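import Pool.Agent.Lib.MP_084b88_gt.PC.Spec
import Pool.Agent.Lib.MP_084b88_gt.CW.DUA
import Pool.Agent.Lib.MP_084b88_gt.CW.SLC

/-!
# MP_084b88_gt, project PC, module BOD: slices of a symmetric planar body
-/

set_option autoImplicit false

open MeasureTheory Set Real Filter Topology
open scoped Pointwise InnerProductSpace

namespace Pool.Agent.Lib.MP_084b88_gt.PC

open Pool.Agent.Lib.MP_084b88_gt.CW

namespace BODM

open DUAM SLCM

/-- the slice over the point `x` of the line in direction `s` -/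
def sl (P : Set (ℝ × ℝ)) (s x : ℝ) : Set ℝ := {t | pt s x t ∈ P}

theorem dotu1 (s x t : ℝ) : dotu s (pt s x t) = x := by
  have h := dotu_pt s x t 0
  rw [add_zero, cos_zero, sin_zero] at h
  linarith

theorem dotu2 (s x t : ℝ) : dotu (s + π / 2) (pt s x t) = t := by
  have h := dotu_pt s x t (π / 2)
  rw [cos_pi_div_two, sin_pi_div_two] at h
  linarith

theorem pt_comb (s x y t u a b : ℝ) :
    pt s (a * x + b * y) (a * t + b * u) = a • pt s x t + b • pt s y u := by
  unfold pt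
  ext <;> simp <;> ring

theorem pt_neg (s x t : ℝ) : pt s (-x) (-t) = -pt s x t := by
  unfold pt
  ext <;> simp <;> ring

theorem cont_pt (s x : ℝ) : Continuous (fun t => pt s x t) := by
  unfold pt
  fun_prop

theorem sup_sym (P : Set (ℝ × ℝ)) (hs : ∀ p ∈ P, -p ∈ P) (s : ℝ) :
    sup2 P (s + π) = sup2 P s := by
  unfold sup2
  congr 1
  ext y
  simp only [mem_image]
  constructor
  · rintro ⟨p, hp, rfl⟩
    refine ⟨-p, hs p hp, ?_⟩
    unfold dotu
    rw [cos_add_pi, sin_add_pi]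
    simp
  · rintro ⟨p, hp, rfl⟩
    refine ⟨-p, hs p hp, ?_⟩
    unfold dotu
    rw [cos_add_pi, sin_add_pi]
    simp

theorem wid_sym (P : Set (ℝ × ℝ)) (hs : ∀ p ∈ P, -p ∈ P) (s : ℝ) :
    wid P s / 2 = sup2 P s := by
  unfold wid
  rw [sup_sym P hs s]
  ring

theorem sl_neg (P : Set (ℝ × ℝ)) (hs : ∀ p ∈ P, -p ∈ P) (s x : ℝ) :
    sl P s (-x) = -sl P s x := by
  ext t
  rw [Set.mem_neg]
  change pt s (-x) t ∈ P ↔ pt s x (-t) ∈ P
  have h1 : pt s (-x) t = -pt s x (-t) := by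
    have h := pt_neg s x (-t)
    rw [neg_neg] at h
    exact h
  rw [h1]
  constructor
  · intro h
    have h2 := hs _ h
    rwa [neg_neg] at h2
  · intro h
    exact hs _ h

theorem sl_bd (hWB2 : SpecWB2) (P : Set (ℝ × ℝ)) (hP : CC P) (s : ℝ) :
    ∃ C : ℝ, ∀ x, sl P s x ⊆ Icc (-C) C := by
  obtain ⟨C, -, hC, -⟩ := hWB2.2.2.1 P hP
  refine ⟨C, fun x t ht => ?_⟩
  have h1 := hWB2.1 P hP (s + π / 2) _ ht
  rw [dotu2] at h1
  have h2 := hWB2.1 P hP (s + π / 2 + π) _ ht
  have h3 : dotu (s + π / 2 + π) (pt s x t) = -t := by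
    have h4 := dotu_pt s x t (π / 2 + π)
    rw [← add_assoc, cos_add_pi, sin_add_pi, cos_pi_div_two, sin_pi_div_two] at h4
    linarith
  rw [h3] at h2
  have h5 := (abs_le.1 (hC (s + π / 2))).2
  have h6 := (abs_le.1 (hC (s + π / 2 + π))).2
  exact ⟨by linarith, by linarith⟩

theorem sl_comp (hWB2 : SpecWB2) (P : Set (ℝ × ℝ)) (hP : CC P) (s x : ℝ) :
    IsCompact (sl P s x) := by
  obtain ⟨C, hC⟩ := sl_bd hWB2 P hP s
  have hcl : IsClosed (sl P s x) := hP.2.1.isClosed.preimage (cont_pt s x)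
  exact isCompact_Icc.of_isClosed_subset hcl (hC x)

theorem sl_conv (P : Set (ℝ × ℝ)) (hP : CC P) (s x : ℝ) : Convex ℝ (sl P s x) := by
  intro t ht u hu a b ha hb hab
  have h1 := hP.1 ht hu ha hb hab
  rw [← pt_comb] at h1
  have h2 : a * x + b * x = x := by rw [← add_mul, hab, one_mul]
  rw [h2] at h1
  exact h1

theorem sl_ne (hWB2 : SpecWB2) (P : Set (ℝ × ℝ)) (hP : CC P) (hs : ∀ p ∈ P, -p ∈ P) (s x : ℝ) :
    (sl P s x).Nonempty ↔ x ∈ Icc (-(wid P s / 2)) (wid P s / 2) := by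
  have h8 := (hWB2.2.2.2.2.2.2.2.1 P hP s).2
  rw [sup_sym P hs] at h8
  rw [wid_sym P hs, ← h8]
  constructor
  · rintro ⟨t, ht⟩
    exact ⟨_, ht, dotu1 s x t⟩
  · rintro ⟨q, hq, hqx⟩
    refine ⟨dotu (s + π / 2) q, ?_⟩
    change pt s x (dotu (s + π / 2) q) ∈ P
    rw [← hqx, pt_dotu]
    exact hq

theorem sl_Icc (hWB2 : SpecWB2) (P : Set (ℝ × ℝ)) (hP : CC P) (hs : ∀ p ∈ P, -p ∈ P) (s x : ℝ)
    (hx : (sl P s x).Nonempty) :
    sl P s x = Icc (-sSup (sl P s (-x))) (sSup (sl P s x)) := by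
  have h1 := eq_Icc_of_connected_compact ⟨hx, (sl_conv P hP s x).isPreconnected⟩
    (sl_comp hWB2 P hP s x)
  have h2 : sSup (sl P s (-x)) = -sInf (sl P s x) := by
    rw [sl_neg P hs, Real.sSup_neg]
  rw [h2, neg_neg]
  exact h1

theorem ro_pt (s : ℝ) (x : ℝ × ℝ) : ro s x = pt s x.1 x.2 := rfl

theorem mp_ro (hRO2 : SpecRO2) (s : ℝ) : MeasurePreserving (ro s) volume volume := by
  have h := (hRO2 (-s)).1
  have e : (fun p : ℝ × ℝ => (dotu (-s) p, dotu (-s + π / 2) p)) = ro s := by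
    funext x
    exact (ro_eq s x).symm
  rwa [e] at h

theorem pre_comp (P : Set (ℝ × ℝ)) (hP : CC P) (s : ℝ) : IsCompact (ro s ⁻¹' P) := by
  have hcl : IsClosed (ro s ⁻¹' P) := hP.2.1.isClosed.preimage (continuous_ro s)
  have hrep : ro s ⁻¹' P ⊆ (ro (-s)) '' P := by
    intro x hx
    refine ⟨ro s x, hx, ?_⟩
    unfold ro
    have h3 := sin_sq_add_cos_sq s
    ext
    · simp only [cos_neg, sin_neg]
      linear_combination x.1 * h3
    · simp only [cos_neg, sin_neg]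
      linear_combination x.2 * h3
  exact (hP.2.1.image (continuous_ro (-s))).of_isClosed_subset hcl hrep

theorem wid_pos (hRO2 : SpecRO2) (hWB2 : SpecWB2) (P : Set (ℝ × ℝ)) (hP : CC P)
    (hs : ∀ p ∈ P, -p ∈ P) (ha : 0 < area P) (s : ℝ) : 0 < wid P s := by
  have h0 := (hWB2.2.2.2.2.2.2.2.1 P hP s).1
  rcases h0.eq_or_lt with h | h
  · exfalso
    have h1 : ro s ⁻¹' P ⊆ ({0} : Set ℝ) ×ˢ (univ : Set ℝ) := by
      intro x hx
      have h2 : (sl P s x.1).Nonempty := ⟨x.2, hx⟩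
      rw [sl_ne hWB2 P hP hs, ← h] at h2
      simp only [zero_div, neg_zero, Icc_self, mem_singleton_iff] at h2
      exact ⟨h2, mem_univ _⟩
    have h3 : volume (ro s ⁻¹' P) = volume P :=
      (mp_ro hRO2 s).measure_preimage hP.2.1.isClosed.measurableSet.nullMeasurableSet
    have h4 : volume (({0} : Set ℝ) ×ˢ (univ : Set ℝ)) = 0 := by
      rw [Measure.volume_eq_prod, Measure.prod_prod]
      simp
    have h5 : volume P = 0 := by
      rw [← h3]
      exact measure_mono_null h1 h4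
    unfold area at ha
    rw [h5] at ha
    simp at ha
  · exact h

/-- Fubini -/
theorem fub2 (S : Set (ℝ × ℝ)) (hS : IsCompact S) (f : ℝ × ℝ → ℝ) (hf : Continuous f) :
    ∫ x in S, f x = ∫ x, ∫ t in {t | (x, t) ∈ S}, f (x, t) := by
  have hSm : MeasurableSet S := hS.isClosed.measurableSet
  have hint : IntegrableOn f S volume := hf.continuousOn.integrableOn_compact hS
  rw [← integral_indicator hSm]
  have hint2 : Integrable (S.indicator f) (volume.prod volume) := by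
    rw [← Measure.volume_eq_prod]
    exact (integrable_indicator_iff hSm).2 hint
  rw [Measure.volume_eq_prod, integral_prod _ hint2]
  refine integral_congr_ae (Eventually.of_forall fun x => ?_)
  simp only
  have hm : MeasurableSet {t : ℝ | (x, t) ∈ S} := measurable_prodMk_left hSm
  rw [← integral_indicator hm]
  refine integral_congr_ae (Eventually.of_forall fun t => ?_)
  by_cases h : (x, t) ∈ S
  · exact (indicator_of_mem h f).trans
      (indicator_of_mem (show t ∈ {t : ℝ | (x, t) ∈ S} from h) (fun t => f (x, t))).symm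
  · exact (indicator_of_notMem h f).trans
      (indicator_of_notMem (show t ∉ {t : ℝ | (x, t) ∈ S} from h) (fun t => f (x, t))).symm

end BODM

open BODM DUAM SLCM in
theorem specBOD (hRO2 : SpecRO2) (hWB2 : SpecWB2) : SpecBOD := by
  intro P hP hs ha s
  have hw := wid_pos hRO2 hWB2 P hP hs ha s
  set h : ℝ := wid P s / 2 with hh
  have h0 : 0 < h := by rw [hh]; linarith
  obtain ⟨C, hC⟩ := sl_bd hWB2 P hP s
  have hne : ∀ τ ∈ Ioo (-1 : ℝ) 1, (sl P s (h * τ)).Nonempty := by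
    intro τ hτ
    rw [sl_ne hWB2 P hP hs, ← hh]
    constructor
    · nlinarith [hτ.1]
    · nlinarith [hτ.2]
  have hneg : ∀ τ ∈ Ioo (-1 : ℝ) 1, -τ ∈ Ioo (-1 : ℝ) 1 := by
    intro τ hτ
    exact ⟨by linarith [hτ.2], by linarith [hτ.1]⟩
  have hmem : ∀ τ ∈ Ioo (-1 : ℝ) 1, sSup (sl P s (h * τ)) ∈ sl P s (h * τ) := by
    intro τ hτ
    exact (sl_comp hWB2 P hP s _).sSup_mem (hne τ hτ)
  have hIcc : ∀ τ ∈ Ioo (-1 : ℝ) 1, sl P s (h * τ) =
      Icc (-sSup (sl P s (h * (-τ)))) (sSup (sl P s (h * τ))) := by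
    intro τ hτ
    have h1 := sl_Icc hWB2 P hP hs s (h * τ) (hne τ hτ)
    have h2 : -(h * τ) = h * (-τ) := by ring
    rw [h2] at h1
    exact h1
  have hle : ∀ τ ∈ Ioo (-1 : ℝ) 1, 0 ≤ sSup (sl P s (h * τ)) + sSup (sl P s (h * (-τ))) := by
    intro τ hτ
    have h1 := (Set.ext_iff.1 (hIcc τ hτ) _).1 (hmem τ hτ)
    linarith [h1.1]
  refine ⟨hw, fun τ => sSup (sl P s (h * τ)), C, ?_, ?_, hle, ?_, ?_⟩
  · refine ⟨convex_Ioo _ _, ?_⟩
    intro x hx y hy a b ha hb hab
    have h1 := hP.1 (hmem x hx) (hmem y hy) ha hb hab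
    rw [← pt_comb] at h1
    have h2 : a * (h * x) + b * (h * y) = h * (a * x + b * y) := by ring
    rw [h2] at h1
    simp only [smul_eq_mul]
    exact le_csSup (sl_comp hWB2 P hP s _).bddAbove h1
  · intro τ hτ
    have h1 := hC _ (hmem τ hτ)
    exact abs_le.2 ⟨h1.1, h1.2⟩
  · intro p hp hτ
    have h1 : dotu (s + π / 2) p ∈ sl P s (h * (dotu s p / h)) := by
      change pt s (h * (dotu s p / h)) (dotu (s + π / 2) p) ∈ P
      rw [mul_div_cancel₀ _ h0.ne', pt_dotu]
      exact hp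
    exact le_csSup (sl_comp hWB2 P hP s _).bddAbove h1
  · intro F hF
    have hemb : MeasurableEmbedding (ro s) := (continuous_ro s).measurableEmbedding (ro_inj s)
    have h1 : ∫ p in P, F (dotu s p / h, dotu (s + π / 2) p) =
        ∫ x in ro s ⁻¹' P, F (x.1 / h, x.2) := by
      rw [← (mp_ro hRO2 s).setIntegral_preimage_emb hemb
        (fun p => F (dotu s p / h, dotu (s + π / 2) p)) P]
      simp only [ro_pt, dotu1, dotu2]
    have hcv : ∀ f : ℝ → ℝ, ∫ x, f x = h * ∫ τ, f (h * τ) := by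
      intro f
      have h2 := Measure.integral_comp_mul_left f h
      rw [abs_of_pos (inv_pos.2 h0), smul_eq_mul] at h2
      rw [h2, ← mul_assoc, mul_inv_cancel₀ h0.ne', one_mul]
    rw [h1, fub2 _ (pre_comp P hP s) (fun x => F (x.1 / h, x.2)) (hF.comp (by fun_prop)), hcv]
    congr 1
    rw [intervalIntegral.integral_of_le (by norm_num), integral_Ioc_eq_integral_Ioo,
      ← integral_indicator measurableSet_Ioo]
    have hae : ∀ᵐ τ : ℝ, τ ≠ 1 ∧ τ ≠ -1 := by
      have a1 : ∀ᵐ τ : ℝ, τ ≠ 1 := by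
        simp [ae_iff, measure_singleton]
      have a2 : ∀ᵐ τ : ℝ, τ ≠ -1 := by
        simp [ae_iff, measure_singleton]
      filter_upwards [a1, a2] with τ t1 t2 using ⟨t1, t2⟩
    refine integral_congr_ae ?_
    filter_upwards [hae] with τ hτ
    have e1 : h * τ / h = τ := by rw [mul_div_cancel_left₀ _ h0.ne']
    have e2 : {t : ℝ | (h * τ, t) ∈ ro s ⁻¹' P} = sl P s (h * τ) := rfl
    by_cases hin : τ ∈ Ioo (-1 : ℝ) 1
    · have h3 := hle τ hin
      have h4 := hIcc τ hin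
      rw [indicator_of_mem hin, e2, e1]
      obtain ⟨b, hb⟩ : ∃ b, b = sSup (sl P s (h * τ)) := ⟨_, rfl⟩
      rw [← hb] at h3 h4 ⊢
      rw [h4, integral_Icc_eq_integral_Ioc, intervalIntegral.integral_of_le (by linarith)]
    · rw [indicator_of_notMem hin, e2]
      have e3 : sl P s (h * τ) = ∅ := by
        rw [← not_nonempty_iff_eq_empty, sl_ne hWB2 P hP hs, ← hh]
        intro h4
        apply hin
        have h7 : τ ≤ 1 := by
          have : h * τ ≤ h * 1 := by linarith [h4.2]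
          exact le_of_mul_le_mul_left this h0
        have h8 : -1 ≤ τ := by
          have : h * (-1) ≤ h * τ := by linarith [h4.1]
          exact le_of_mul_le_mul_left this h0
        exact ⟨lt_of_le_of_ne h8 (fun h => hτ.2 h.symm), lt_of_le_of_ne h7 hτ.1⟩
      rw [e3]
      simp

end Pool.Agent.Lib.MP_084b88_gt.PC
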