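import Pool.Agent.Lib.MP_084b88_gt.CW.SpecC

/-!
# MP_084b88_gt (Chakerian), project PC: one and two directions of a symmetric planar body

Facts on a centrally symmetric planar body `P` in isotropic position (`∫_P <x,u>² = area/3`), used by the certificate
for centrally symmetric bodies: band for `∫ √(1-τ²)`, coupling of two orthogonal directions.

`h(s) = wid P s/2`, `x(s) = 1/h(s)²`; `τ = <p,u_s>/h(s) ∈ [-1,1]`, `x = 3 avg τ²`.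

Rules: file `PC/XXX.lean`, `import Pool.Agent.Lib.MP_084b88_gt.PC.Spec`, namespace
`Pool.Agent.Lib.MP_084b88_gt.PC`, `theorem specXXX (hYYY : SpecYYY) .. : SpecXXX` (any Spec of this file or of
`CW/SpecA, SpecB, SpecC` may be a hypothesis), own lemmas in the namespace `..PC.XXXM`.
-/

set_option autoImplicit false

open MeasureTheory Set Real Filter Topology
open scoped Pointwise InnerProductSpace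

namespace Pool.Agent.Lib.MP_084b88_gt.PC

open Pool.Agent.Lib.MP_084b88_gt.CW

/-- Even, concave, nonnegative function on `(-1,1)`. -/
structure EPF (c : ℝ → ℝ) : Prop where
  conc : ConcaveOn ℝ (Ioo (-1) 1) c
  even : ∀ x, c (-x) = c x
  nn : ∀ x ∈ Ioo (-1 : ℝ) 1, 0 ≤ c x

/-- `J(κ) = ∫_0^1 (1-κx²)^{3/2} dx`. -/
noncomputable def JJ (κ : ℝ) : ℝ := ∫ x in (0 : ℝ)..1, (1 - κ * x ^ 2) * √(1 - κ * x ^ 2)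

/-! ## I. Profiles -/

/-- **EPB** (120 lines). Basics on `EPF c`.
(1) `0 ≤ x ≤ y < 1`: `x` lies between `-y` and `y`, `c(-y) = c(y)`, concavity gives `c x ≥ c y`. (2) from (1) and evenness.
(3) `ConcaveOn.continuousOn` on an open set. (4) bounded by (2) and continuous on `(0,1)`, `G` bounded on
`[0,1] × [0, c 0]`. (5) `y ∈ [x,1)`, chord from `x` to `z`, `z → 1`, `c z ≥ 0`: `c y ≥ ((z-y)/(z-x)) c x`.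
(6) `0 ≤ y ≤ x < z < 1`: `c x ≥ ((z-x)/(z-y)) c y + ((x-y)/(z-y)) c z ≥ ((z-x)/(z-y)) c y`, `z → 1`. -/
def SpecEPB : Prop :=
  ∀ c : ℝ → ℝ, EPF c →
    AntitoneOn c (Ico 0 1) ∧ (∀ x ∈ Ioo (-1 : ℝ) 1, c x ≤ c 0) ∧ ContinuousOn c (Ioo (-1) 1) ∧
    (∀ G : ℝ × ℝ → ℝ, Continuous G → IntervalIntegrable (fun x => G (x, c x)) volume 0 1) ∧
    (∀ x y, 0 ≤ x → x ≤ y → y < 1 → c x * (1 - y) ≤ c y * (1 - x)) ∧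
    (∀ a, 0 ≤ a → a < 1 → ∀ x ∈ Icc (0 : ℝ) a, c x * (1 - a) ≤ c a * (1 - x)) ∧
    (∀ a, 0 ≤ a → a < 1 → ∀ x ∈ Ico a 1, c a * (1 - x) ≤ c x * (1 - a))

/-- **MRB** (150 lines, from EPB). Range of the second moment and lower band.
(1) `ψ = 6x² - 1` is `≤ 0` on `[0,a]`, `≥ 0` on `[a,1]`, `a = 1/√6`. `l(x) = c(a)(1-x)/(1-a)`: by EPB (6), (7) `c ≤ l` on `[0,a]`,
`c ≥ l` on `[a,1)`, so `ψ (c - l) ≥ 0`, and `∫_0^1 (6x²-1)(1-x) = 2 - 1 - 3/2 + 1/2 = 0`.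
(2) `a = 1/√3`, `c` antitone: `(1-3x²)(c - c(a)) ≥ 0`, `∫_0^1 (1-3x²) = 0`.
(3) `ψ(x) = √(1-x²) - α + βx²`, `α = 3π/4 - 4/3`, `β = 3π/2 - 4`: with `u = √(1-x²)`, `ψ = -(βu² - u + (α-β)) `, i.e. a concave quadratic
in `u` with two roots in `(0,1)` (`β - 1 + α - β = α - 1 > 0` at `u = 1`, `α - β = 8/3 - 3π/4 > 0` at `u = 0`, negative at `u = 4/5`), so
there are `0 < a < b < 1` with `ψ ≤ 0` on `[0,a]`, `ψ ≥ 0` on `[a,b]`, `ψ ≤ 0` on `[b,1]`. `l` = the affine function with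
`l = c` at `a`, `b`: `c ≥ l` on `[a,b]`, `c ≤ l` outside (concavity), so `ψ (c - l) ≥ 0`; and `∫_0^1 ψ = π/4 - α + β/3 = 0`,
`∫_0^1 x ψ = 1/3 - α/2 + β/4 = 0` (`∫_0^1 √(1-x²) = π/4`, `∫_0^1 x√(1-x²) = 1/3`), so `∫ ψ l = 0`. -/
def SpecMRB : Prop :=
  ∀ c : ℝ → ℝ, EPF c →
    (∫ x in (0 : ℝ)..1, c x) ≤ 6 * (∫ x in (0 : ℝ)..1, x ^ 2 * c x) ∧
    3 * (∫ x in (0 : ℝ)..1, x ^ 2 * c x) ≤ (∫ x in (0 : ℝ)..1, c x) ∧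
    (3 * π / 4 - 4 / 3) * (∫ x in (0 : ℝ)..1, c x) - (3 * π / 2 - 4) * (∫ x in (0 : ℝ)..1, x ^ 2 * c x) ≤
      ∫ x in (0 : ℝ)..1, √(1 - x ^ 2) * c x

/-- **BHG** (150 lines, from EPB). Comparison with trapezoids. `ψ ≥ 0` on `[0,a]`, `≤ 0` on `[a,b]`, `≥ 0` on `[b,1]`.
PROOF. If `c b = 0` then `c = 0` on `[0,1)` (EPB (6), (7)), trivial. `l₂(x) = c(b)(1-x)/(1-b)`, `l = min (c a) l₂`. On `[0,a]`: `c ≥ c a ≥ l`; on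
`[a,b]`: `c ≤ c a` and `c ≤ l₂` (EPB (6)), so `c ≤ l`; on `[b,1)`: `c ≥ l₂ ≥ l` (EPB (7)). So `ψ (c - l) ≥ 0`. With `k = c(b)/(1-b) > 0` and
`t = 1 - c(a)/k`: `l(x) = k (1 - max x t)`, and `t ∈ [a,b]`: `c a ≤ l₂(a) = k(1-a)` gives `t ≥ a`; `c a ≥ c b = k(1-b)` gives `t ≤ b`. -/
def SpecBHG : Prop :=
  ∀ c : ℝ → ℝ, EPF c → ∀ (ψ : ℝ → ℝ) (a b : ℝ), Continuous ψ → 0 < a → a < b → b < 1 →
    (∀ x ∈ Icc (0 : ℝ) a, 0 ≤ ψ x) → (∀ x ∈ Icc a b, ψ x ≤ 0) → (∀ x ∈ Icc b 1, 0 ≤ ψ x) →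
    (∀ t ∈ Icc a b, 0 ≤ ∫ x in (0 : ℝ)..1, ψ x * (1 - max x t)) →
    0 ≤ ∫ x in (0 : ℝ)..1, ψ x * c x

/-- **BHN** (250 lines, from BHG). The upper band: five lines, tangents of the curve of the trapezoids
`1 - max x t₀`, `t₀ = sin (π/12), sin (π/6), sin (π/4), sin (π/3), sin (5π/12)`.
PROOF. `ψ(x) = p - q x² - √(1-x²)`. With `u = √(1-x²)`: `ψ = q u² - u + (p - q)`, two roots `0 < u₋ < u₊ < 1` (discriminant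
`1 - 4q(p-q) > 0`, `p > 1`, `p > q`), `a = √(1-u₊²) < t₀ < b = √(1-u₋²)`: sign condition of BHG. `Φ(t) = ∫_0^1 ψ (1 - max x t)`. For `t ∈ [a,b]`:
`Φ(t) ≥ Φ(t₀) + Φ'(t₀)(t - t₀)`, `Φ'(t₀) = -∫_0^{t₀} ψ`. Indeed `(1 - max x t) - (1 - max x t₀) + (t - t₀) [x ≤ t₀]` is `0` for `x ≤ min t t₀` and for
`x ≥ max t t₀`, and `≤ 0` in between, where `ψ ≤ 0`. Numbers, `θ = arcsin t₀`, `r = √(1-t₀²)`:
`Φ(t₀) = p(1-t₀²)/2 - q(1-t₀⁴)/12 - [π/4 - t₀² r/2 - t₀ θ/2 - r³/3]`, `Φ'(t₀) = -p t₀ + q t₀³/3 + (t₀ r + θ)/2`. One needs `Φ(t₀) + Φ'(t₀)(a - t₀) ≥ 0` and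
`Φ(t₀) + Φ'(t₀)(b - t₀) ≥ 0`; as `|t - t₀| ≤ 1` it is enough that `|Φ'(t₀)| ≤ Φ(t₀)`, true for the listed numbers except
that one uses `t ≤ b` (and `b - t₀ ≤ .44`) when `Φ' < 0`. -/
def SpecBHN : Prop :=
  ∀ c : ℝ → ℝ, EPF c → ∀ pq : ℝ × ℝ,
    (pq = (10019 / 10000, 5857 / 10000) ∨ pq = (10083 / 10000, 6185 / 10000) ∨
      pq = (10221 / 10000, 6786 / 10000) ∨ pq = (10488 / 10000, 7763 / 10000) ∨
      pq = (10966 / 10000, 9306 / 10000)) →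
    (∫ x in (0 : ℝ)..1, √(1 - x ^ 2) * c x) ≤
      pq.1 * (∫ x in (0 : ℝ)..1, c x) - pq.2 * (∫ x in (0 : ℝ)..1, x ^ 2 * c x)

/-- **CHE** (120 lines). Chebyshev. Let `e` be antitone and `g` monotone on `(0,1)`, both bounded. Then
`∫ x² e g ≤ 3 (∫ x² e)(∫ x² g)`. PROOF. `H = 3 ∫ x² g`. `S = {x ∈ (0,1) | g x ≤ H}`; `x₀ = sSup S` (or `x₀ = 0` if `S = ∅`). For `x < x₀` in `(0,1)`: `g x ≤ H`; for
`x > x₀`: `g x > H`. Choose the number `e₀`: `e(x) ≥ e₀` for `x < x₀`, `e(x) ≤ e₀` for `x > x₀` (`e₀ = e x₀` if `x₀ ∈ (0,1)`, else a bound of `e`).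
`(e - e₀)(g - H) ≤ 0` except at `x = x₀`, so `∫ x² e g ≤ H ∫ x² e + e₀ (∫ x² g - H/3) = H ∫ x² e`. Monotone functions are
interval integrable (`AntitoneOn.intervalIntegrable` needs the closed interval: extend, or use boundedness and measurability). -/
def SpecCHE : Prop :=
  ∀ (e g : ℝ → ℝ) (C : ℝ), AntitoneOn e (Ioo 0 1) → MonotoneOn g (Ioo 0 1) →
    (∀ x ∈ Ioo (0 : ℝ) 1, |e x| ≤ C) → (∀ x ∈ Ioo (0 : ℝ) 1, |g x| ≤ C) →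
    (∫ x in (0 : ℝ)..1, x ^ 2 * (e x * g x)) ≤
      3 * (∫ x in (0 : ℝ)..1, x ^ 2 * e x) * (∫ x in (0 : ℝ)..1, x ^ 2 * g x)

/-- **PA1** (250 lines, from EPB). First half of the pair coupling. `U` concave on `(-1,1)`, `e(x) = (U(x)+U(-x))/2`,
`f(x) = U(0) - e(x)`, `F(x) = ∫_0^x f`. Claim: if `∫_0^1 x (U(x)² - U(-x)²) = 0` then for `0 < p < 1`
`(U(p) - U(0)) ∫_0^1 x² e ≤ ∫_0^1 x e (x f - 2F)`.
PROOF. `o(x) = (U(x)-U(-x))/2`, `U(x)² - U(-x)² = 4 e o`, so `∫ x e o = 0`. `e` is even, concave, `≥ 0`; `f ≥ 0` convex, `f(0) = 0`, monotone on `[0,1)`.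
`k = (U(p) - U(0))/p`. For `0 < x ≤ p`: `U(x) ≥ U(0) + k x` (chord), so `o = U - e ≥ k x + f(x)`. `V(x) = U(-x)` is concave,
`V(p) = 2e(p) - U(p) = U(0) - kp - 2f(p)`, `V(0) = U(0)`; for `p ≤ x < 1`: `V(x) ≤ U(0) + (x/p)(V(p) - U(0)) = U(0) - (x/p)(kp + 2f(p))`, so
`o = e - V ≥ k x - f(x) + 2 f(p) x/p`. Insert in `0 = ∫ x e o` (`x e ≥ 0`):
`k ∫ x² e ≤ - ∫_0^p x e f + ∫_p^1 x e (f - 2 f(p) x/p)`. Multiply by `p` and use pointwise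
`x ≤ p`: `-p f ≤ x f - 2F`, since `F(x) ≤ x f(x)` (`f` monotone) hence `2F ≤ 2 x f ≤ (x+p) f`;
`x ≥ p`: `p f(x) - 2 f(p) x ≤ x f(x) - 2F(x)`, since by convexity (trapezoid rule) `F(p) ≤ p f(p)/2`,
`∫_p^x f ≤ (x-p)(f(p)+f(x))/2`, so `2F(x) ≤ x f(p) + (x-p) f(x) ≤ 2x f(p) + (x-p) f(x)`. -/
def SpecPA1 : Prop :=
  ∀ (U : ℝ → ℝ) (C : ℝ), ConcaveOn ℝ (Ioo (-1) 1) U → (∀ x ∈ Ioo (-1 : ℝ) 1, |U x| ≤ C) →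
    (∀ x ∈ Ioo (-1 : ℝ) 1, 0 ≤ U x + U (-x)) →
    (∫ x in (0 : ℝ)..1, x * (U x ^ 2 - U (-x) ^ 2)) = 0 → ∀ p ∈ Ioo (0 : ℝ) 1,
    (U p - U 0) * (∫ x in (0 : ℝ)..1, x ^ 2 * ((U x + U (-x)) / 2)) ≤
      ∫ x in (0 : ℝ)..1, x * ((U x + U (-x)) / 2) * (x * (U 0 - (U x + U (-x)) / 2) -
        2 * ∫ y in (0 : ℝ)..x, (U 0 - (U y + U (-y)) / 2))

/-- **PA2** (200 lines, from PA1, CHE, EPB). Pair coupling (a) for functions: `U(p) ≤ ∫_0^1 (3 - 6x²) e`, `e = (U(x)+U(-x))/2`, `U(0) > 0`.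
PROOF. By symmetry (`U(-·)` satisfies the hypotheses) `p ∈ (0,1)` or `p = 0`. `m₂ = ∫ x² e > 0` (`e(x) ≥ U(0)(1-x)`, EPB). With
`g(x) = f(x) - 2F(x)/x` (`x > 0`): PA1 says `(U(p) - U(0)) m₂ ≤ ∫ x² e g`. `g` is monotone on `(0,1)`: `F(x)/x = ∫_0^1 f(xτ) dτ`, and for
`x < y`: `f(yτ) - f(xτ) ≤ τ (f(y) - f(x))` (convexity: the slope of `f` between `xτ` and `yτ` is at most the one between `x` and `y`), so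
`2(F(y)/y - F(x)/x) ≤ f(y) - f(x)`. Bounded. CHE: `∫ x² e g ≤ 3 m₂ ∫ x² g`. So `U(p) ≤ U(0) + 3 ∫ x² g` and
`∫ x² g = ∫ x² f - ∫ 2xF`, `∫_0^1 2xF = F(1) - ∫ x² f` (parts), hence `3∫ x² g = ∫ (6x²-3) f = -U(0) - ∫ (6x²-3) e`
(`∫ (6x²-3) = -1`). For `p = 0`: `f ≥ 0` is monotone, `∫ (6x² - 3) f ≥ ..`: use `U(0) ≤ ∫ (3-6x²) e` which is `∫ x² g ≥ 0`:
`2F ≤ x f` (convexity, trapezoid rule), `g ≥ 0`. -/
def SpecPA2 : Prop :=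
  ∀ (U : ℝ → ℝ) (C : ℝ), ConcaveOn ℝ (Ioo (-1) 1) U → (∀ x ∈ Ioo (-1 : ℝ) 1, |U x| ≤ C) →
    (∀ x ∈ Ioo (-1 : ℝ) 1, 0 ≤ U x + U (-x)) → 0 < U 0 →
    (∫ x in (0 : ℝ)..1, x * (U x ^ 2 - U (-x) ^ 2)) = 0 → ∀ p ∈ Ioo (-1 : ℝ) 1,
    U p ≤ ∫ x in (0 : ℝ)..1, (3 - 6 * x ^ 2) * ((U x + U (-x)) / 2)

/-- **HOL** (80 lines, from EPB). Hölder with exponents `3/2`, `3`: `(∫ (1-κx²) e)³ ≤ J(κ)² ∫ e³`.
PROOF. `r = √(1-κx²)`, for every `λ ≥ 0`: `e³ + 2(λr)³ ≥ 3 e (λr)²` (AM-GM for `e, λr, λr ≥ 0`). Integrate: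
`∫ e³ ≥ 3 λ² N - 2 λ³ J`, `N = ∫ (1-κx²) e ≥ 0`, `J = JJ κ > 0`. `λ = N/J`: `∫ e³ ≥ N³/J²`. -/
def SpecHOL : Prop :=
  ∀ e : ℝ → ℝ, EPF e → ∀ κ : ℝ, 0 ≤ κ → κ ≤ 1 →
    ((∫ x in (0 : ℝ)..1, e x) - κ * ∫ x in (0 : ℝ)..1, x ^ 2 * e x) ^ 3 ≤
      JJ κ ^ 2 * ∫ x in (0 : ℝ)..1, e x ^ 3

/-- **JVL** (150 lines). The values `J(0) = 1`, `J(1/4)`, `J(1/2)`, `J(3/4)`, `J(1) = 3π/16`.
`d/dt [t(5-2t²)√(1-t²)/8 + (3/8) arcsin t] = (1-t²)^{3/2}` for `|t| < 1`; with `t = √κ x`: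
`J(κ) = (1/√κ) [t(5-2t²)√(1-t²)/8 + (3/8) arcsin t]` at `t = √κ`. `κ = 1/4`: `t = 1/2`, `arcsin = π/6`, `J = (9/4)(√3/2)/8·.. `: numerically
`.879839`; `κ = 1/2`: `.770074` (`arcsin = π/4`); `κ = 3/4`: `.672200` (`arcsin = π/3`); `κ = 1`: `.589049` (`arcsin 1 = π/2`; continuity at the end). -/
def SpecJVL : Prop :=
  JJ 0 = 1 ∧ 0 ≤ JJ (1 / 4) ∧ JJ (1 / 4) ≤ 87984 / 100000 ∧ 0 ≤ JJ (1 / 2) ∧ JJ (1 / 2) ≤ 77008 / 100000 ∧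
    0 ≤ JJ (3 / 4) ∧ JJ (3 / 4) ≤ 67221 / 100000 ∧ 0 ≤ JJ 1 ∧ JJ 1 ≤ 58906 / 100000

/-- **CUT** (120 lines, from JVL). The linear cuts. `w` is a real number satisfying the pair inequality with `v ∈ [1/2,1]` for
every `κ`. For each line `k + m v` with its `κ`: `(k + m v) (3-2v)² J² ≤ (1-κv/3)³` on `[1/2,1]` with the rational upper
bound for `J` (if `k + m v ≤ 0` trivial), a polynomial inequality of degree 3 in one variable, tangency near the given point: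
`(κ; k, m; v)` = `(0; -3, 4; 1)`, `(1/4; -2.1433, 3.13; .97)`, `(1/4; -1.8265, 2.8; .95)`, `(1/2; -1.2912, 2.23; .925)`,
`(1/2; -1.0539, 1.97; .9)`, `(3/4; -.6459, 1.51; .875)`, `(3/4; -.5165, 1.36; .85)`, `(1; -.1162, .87; .8)`, `(1; .0003, .72; .75)`. Then
`J² (3-2v)² (w - (k + m v)) ≥ 0` and `J² (3-2v)² > 0` (`J > 0` as `(1-κv/3)³ > 0`). -/
def SpecCUT : Prop :=
  ∀ v w : ℝ, 1 / 2 ≤ v → v ≤ 1 → 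
    (∀ κ : ℝ, 0 ≤ κ → κ ≤ 1 → (1 - κ * v / 3) ^ 3 ≤ JJ κ ^ 2 * (3 - 2 * v) ^ 2 * w) →
    -3 + 4 * v ≤ w ∧ -(21433 / 10000) + 313 / 100 * v ≤ w ∧ -(18265 / 10000) + 28 / 10 * v ≤ w ∧
    -(12912 / 10000) + 223 / 100 * v ≤ w ∧ -(10539 / 10000) + 197 / 100 * v ≤ w ∧
    -(6459 / 10000) + 151 / 100 * v ≤ w ∧ -(5165 / 10000) + 136 / 100 * v ≤ w ∧
    -(1162 / 10000) + 87 / 100 * v ≤ w ∧ 3 / 10000 + 72 / 100 * v ≤ w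

/-! ## II. Bodies -/

/-- **BOD** (250 lines, from `CW` WB2, RO2; see `CW/GDU.lean`, `CW/SLC.lean`). Slices of a symmetric planar body. `u = u_s`,
`h = sup2 P s = wid P s/2` (symmetry). In the coordinates `(dotu s p, dotu (s+π/2) p)` (RO2) the slice over `hτ`, `|τ| < 1`, is a compact
interval `[-T(-τ), T(τ)]` (`T(τ) = sSup` of the slice, symmetric under `p ↦ -p`); `T` is concave because `P` is convex, bounded because `P`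
is bounded; Fubini. `0 < h`: otherwise `P` lies in a line and has area `0`. -/
def SpecBOD : Prop :=
  ∀ P : Set (ℝ × ℝ), CC P → (∀ p ∈ P, -p ∈ P) → 0 < area P → ∀ s : ℝ,
    0 < wid P s ∧ ∃ (T : ℝ → ℝ) (C : ℝ), ConcaveOn ℝ (Ioo (-1) 1) T ∧ (∀ τ ∈ Ioo (-1 : ℝ) 1, |T τ| ≤ C) ∧
      (∀ τ ∈ Ioo (-1 : ℝ) 1, 0 ≤ T τ + T (-τ)) ∧
      (∀ p ∈ P, dotu s p / (wid P s / 2) ∈ Ioo (-1 : ℝ) 1 →
        dotu (s + π / 2) p ≤ T (dotu s p / (wid P s / 2))) ∧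
      (∀ F : ℝ × ℝ → ℝ, Continuous F →
        ∫ p in P, F (dotu s p / (wid P s / 2), dotu (s + π / 2) p) =
          wid P s / 2 * ∫ τ in (-1 : ℝ)..1, ∫ y in (-T (-τ))..(T τ), F (τ, y))

/-- **PCB** (250 lines, from BOD, MRB, BHN, PA2, HOL, EPB). Facts on isotropic symmetric bodies. `h = wid P s/2`, `h' = wid P (s+π/2)/2`,
`x = 1/h²`, `x' = 1/h'²`.
PROOF. BOD at `s`; `c(τ) = T(τ) + T(-τ)`, `e = c/2`: `EPF`. Isotropy: `∫_P (dotu s)² = area/3`, `∫_P (dotu (s+π/2))² = area/3`,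
`∫_P dotu s · dotu (s+π/2) = 0` (expand). By BOD with `F = 1, τ², τ y, y², √(1-τ²)` and symmetrisation `τ ↦ -τ`: `area = 2h∫_0^1 c`,
`h² · 2h ∫_0^1 τ² c = area/3`, so `x ∫ c = 3 ∫ τ² c`; `∫_0^1 τ (T(τ)² - T(-τ)²) = 0`; `area/3 = (2h/3) ∫_0^1 (T(τ)³ + T(-τ)³) ≥ (4h/3) ∫_0^1 e³`
(`T = e + o`, `T(-τ) = e - o`: `T³ + T(-τ)³ = 2e³ + 6eo²`), so `∫ e³ ≤ ∫ e =: a`; `qf P s = 2h ∫_0^1 √(1-τ²) c` (`mid P s = 0`).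
MRB, BHN divided by `∫ c > 0` give the range and the band. `T(0) > 0` since `c` is not `0`. Pair: let `p ∈ P` with
`dotu (s+π/2) p = h'` (WB2); for `0 < r < 1`: `r p ∈ P` (convex, `0 ∈ P`), `|dotu s (rp)| < h`, so `r h' ≤ T(..) ≤ ∫ (3-6τ²) e = (3-2x) a` (PA2); `r → 1`:
`h' ≤ (3-2x) a`. HOL: `a³ (1-κx/3)³ ≤ J² ∫ e³ ≤ J² a`. So `(1-κx/3)³ ≤ J²/a² ≤ J² (3-2x)²/h'² = J² (3-2x)² x'`. -/
def SpecPCB : Prop :=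
  ∀ P : Set (ℝ × ℝ), CC P → (∀ p ∈ P, -p ∈ P) → 0 < area P →
    (∫ p in P, p.1 ^ 2) = area P / 3 → (∫ p in P, p.2 ^ 2) = area P / 3 → (∫ p in P, p.1 * p.2) = 0 →
    ∀ s x x' : ℝ, x = 1 / (wid P s / 2) ^ 2 → x' = 1 / (wid P (s + π / 2) / 2) ^ 2 →
      0 < wid P s ∧ 1 / 2 ≤ x ∧ x ≤ 1 ∧
      (3 * π / 4 - 4 / 3 - (π / 2 - 4 / 3) * x) * area P ≤ qf P s ∧
      (∀ pq : ℝ × ℝ, (pq = (10019 / 10000, 5857 / 10000) ∨ pq = (10083 / 10000, 6185 / 10000) ∨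
        pq = (10221 / 10000, 6786 / 10000) ∨ pq = (10488 / 10000, 7763 / 10000) ∨
        pq = (10966 / 10000, 9306 / 10000)) → qf P s ≤ (pq.1 - pq.2 * x / 3) * area P) ∧
      (∀ κ : ℝ, 0 ≤ κ → κ ≤ 1 → (1 - κ * x / 3) ^ 3 ≤ JJ κ ^ 2 * (3 - 2 * x) ^ 2 * x')

end Pool.Agent.Lib.MP_084b88_gt.PC
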