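import Pool.Agent.Lib.MP_084b88_gt.PC.MRB

/-!
# MP_084b88_gt, project PC, module BHG: comparison with trapezoids
-/

set_option autoImplicit false

open MeasureTheory Set Real Filter Topology
open scoped Pointwise InnerProductSpace

namespace Pool.Agent.Lib.MP_084b88_gt.PC

open MRBM

theorem specBHG (hEPB : SpecEPB) : SpecBHG := by
  intro c hc ψ a b hψ ha0 hab hb1 hs1 hs2 hs3 hΦ
  obtain ⟨hanti, hc0, hcont, hint, h5, h6, h7⟩ := hEPB c hc
  have hb0 : 0 < b := ha0.trans hab
  have ha1 : a < 1 := hab.trans hb1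
  have hI : IntervalIntegrable (fun x => ψ x * c x) volume 0 1 :=
    hint (fun p => ψ p.1 * p.2) (by fun_prop)
  have hca : c b ≤ c a := hanti ⟨ha0.le, ha1⟩ ⟨hb0.le, hb1⟩ hab.le
  have hcb : 0 ≤ c b := hc.nn b ⟨by linarith, hb1⟩
  rcases eq_or_lt_of_le hcb with hz | hpos
  · -- `c = 0`
    have hzero : ∀ x ∈ Ioo (0 : ℝ) 1, c x = 0 := by
      intro x hx
      have h0 : 0 ≤ c x := hc.nn x ⟨by linarith [hx.1], hx.2⟩
      rcases le_total x b with hxb | hxb
      · have h1 := h6 b hb0.le hb1 x ⟨hx.1.le, hxb⟩
        rw [← hz, zero_mul] at h1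
        have h2 : 0 < 1 - b := by linarith
        nlinarith
      · have h1 := hanti ⟨hb0.le, hb1⟩ ⟨hx.1.le, hx.2⟩ hxb
        linarith
    exact int_nonneg fun x hx => by rw [hzero x hx, mul_zero]
  · set k : ℝ := c b / (1 - b) with hk
    have h1b : 0 < 1 - b := by linarith
    have hkpos : 0 < k := div_pos hpos h1b
    have hkb : k * (1 - b) = c b := by rw [hk]; field_simp
    set t : ℝ := 1 - c a / k with ht
    have hkt : k * (1 - t) = c a := by rw [ht]; field_simp; ring
    have hta : a ≤ t := by
      have h1 := h6 b hb0.le hb1 a ⟨ha0.le, hab.le⟩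
      -- c a (1-b) ≤ c b (1-a)
      have h2 : k * (1 - t) ≤ k * (1 - a) := by
        rw [hkt]
        have h3 : c a * (1 - b) ≤ k * (1 - b) * (1 - a) := by rw [hkb]; exact h1
        have h4 : c a * (1 - b) ≤ (k * (1 - a)) * (1 - b) := by linarith [mul_comm (k * (1 - b)) (1 - a)]
        exact le_of_mul_le_mul_right h4 h1b
      have h5 := le_of_mul_le_mul_left h2 hkpos
      linarith
    have htb : t ≤ b := by
      have h2 : k * (1 - b) ≤ k * (1 - t) := by rw [hkt, hkb]; exact hca
      have h5 := le_of_mul_le_mul_left h2 hkpos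
      linarith
    have hl : ∀ x, k * (1 - max x t) = min (k * (1 - x)) (c a) := by
      intro x
      rcases le_total x t with h | h
      · rw [max_eq_right h, hkt, min_eq_right]
        rw [← hkt]
        exact mul_le_mul_of_nonneg_left (by linarith) hkpos.le
      · rw [max_eq_left h, min_eq_left]
        rw [← hkt]
        exact mul_le_mul_of_nonneg_left (by linarith) hkpos.le
    have h := int_nonneg (f := fun x => ψ x * (c x - k * (1 - max x t))) (fun x hx => by
      rw [hl]
      rcases le_total x a with hxa | hxa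
      · have e1 := hs1 x ⟨hx.1.le, hxa⟩
        have e2 := hanti ⟨hx.1.le, hx.2⟩ ⟨ha0.le, ha1⟩ hxa
        have e3 := min_le_right (k * (1 - x)) (c a)
        exact mul_nonneg e1 (by linarith)
      · rcases le_total x b with hxb | hxb
        · have e1 := hs2 x ⟨hxa, hxb⟩
          have e2 := hanti ⟨ha0.le, ha1⟩ ⟨hx.1.le, hx.2⟩ hxa
          have e3 := h6 b hb0.le hb1 x ⟨hx.1.le, hxb⟩
          have e4 : c x ≤ k * (1 - x) := by
            have e5 : c x * (1 - b) ≤ (k * (1 - x)) * (1 - b) := by
              have : (k * (1 - x)) * (1 - b) = c b * (1 - x) := by rw [← hkb]; ring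
              rw [this]; exact e3
            exact le_of_mul_le_mul_right e5 h1b
          exact mul_nonneg_of_nonpos_of_nonpos e1 (by linarith [le_min e4 e2])
        · have e1 := hs3 x ⟨hxb, hx.2.le⟩
          have e3 := h7 b hb0.le hb1 x ⟨hxb, hx.2⟩
          have e4 : k * (1 - x) ≤ c x := by
            have e5 : (k * (1 - x)) * (1 - b) ≤ c x * (1 - b) := by
              have : (k * (1 - x)) * (1 - b) = c b * (1 - x) := by rw [← hkb]; ring
              rw [this]; exact e3
            exact le_of_mul_le_mul_right e5 h1b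
          have e5 := min_le_left (k * (1 - x)) (c a)
          exact mul_nonneg e1 (by linarith))
    have h2 : ∫ x in (0 : ℝ)..1, ψ x * (c x - k * (1 - max x t)) =
        (∫ x in (0 : ℝ)..1, ψ x * c x) - k * ∫ x in (0 : ℝ)..1, ψ x * (1 - max x t) := by
      rw [← intervalIntegral.integral_const_mul, ← intervalIntegral.integral_sub hI
        (Continuous.intervalIntegrable (by fun_prop) _ _)]
      refine intervalIntegral.integral_congr fun x _ => ?_
      ring
    rw [h2] at h
    have h3 := mul_nonneg hkpos.le (hΦ t ⟨hta, htb⟩)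
    linarith

end Pool.Agent.Lib.MP_084b88_gt.PC
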