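import Pool.Agent.Lib.MP_084b88_gt.PC.MRB

/-!
# MP_084b88_gt, project PC, module BHN: the upper band, five lines
-/

set_option autoImplicit false

open MeasureTheory Set Real Filter Topology
open scoped Pointwise InnerProductSpace

namespace Pool.Agent.Lib.MP_084b88_gt.PC

open MRBM

namespace BHNM

theorem core (hBHG : SpecBHG) (hEPB : SpecEPB) {c : ℝ → ℝ} (hc : EPF c) {p q θ t r : ℝ}
    (hq : 1 / 2 < q) (hpq : q < p) (hp : 1 < p) (hD : 4 * q * (p - q) < 1)
    (hθ0 : 0 < θ) (hθ1 : θ < π / 2) (ht : sin θ = t) (hr : cos θ = r)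
    (hχ : q * r ^ 2 - r + (p - q) < 0)
    (hΨ : 0 ≤ p * t - q * t ^ 3 / 3 - (t * r + θ) / 2)
    (hE : 0 ≤ p * (1 - t) ^ 2 / 2 - q * ((1 - t ^ 3) / 3 - (1 - t ^ 4) / 4) -
      ((π / 2 - θ) / 2 - t * r / 2 - r ^ 3 / 3)) :
    (∫ x in (0 : ℝ)..1, √(1 - x ^ 2) * c x) ≤
      p * (∫ x in (0 : ℝ)..1, c x) - q * (∫ x in (0 : ℝ)..1, x ^ 2 * c x) := by
  have ht0 : 0 < t := by rw [← ht]; exact Real.sin_pos_of_pos_of_lt_pi hθ0 (by linarith [Real.pi_pos])
  have hr0 : 0 < r := by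
    rw [← hr]; exact Real.cos_pos_of_mem_Ioo ⟨by linarith, hθ1⟩
  have htr : t ^ 2 + r ^ 2 = 1 := by rw [← ht, ← hr]; exact Real.sin_sq_add_cos_sq θ
  have ht1 : t < 1 := by nlinarith
  have hsq : √(1 - t ^ 2) = r := by
    rw [show 1 - t ^ 2 = r ^ 2 by linarith]
    exact Real.sqrt_sq hr0.le
  have has : arcsin t = θ := by
    rw [← ht]; exact Real.arcsin_sin (by linarith) hθ1.le
  let ψ : ℝ → ℝ := fun x => p - q * x ^ 2 - √(1 - x ^ 2)
  have hψc : Continuous ψ := by fun_prop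
  have hψe : ∀ x, ψ x = q * (1 - x ^ 2) - √(1 - x ^ 2) + (p - q) := fun x => by
    show p - q * x ^ 2 - √(1 - x ^ 2) = _
    ring
  obtain ⟨a, b, ha0, hab, hb1, hs1, hs2, hs3⟩ := signs (q := q) (r := p - q) hq (by linarith)
    (by linarith) hD
  have hχt : ψ t < 0 := by
    rw [hψe, hsq]
    have : 1 - t ^ 2 = r ^ 2 := by linarith
    rw [this]
    exact hχ
  have hat : a ≤ t := by
    by_contra hcon
    push Not at hcon
    have := hs1 t ⟨ht0.le, hcon.le⟩
    rw [← hψe] at this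
    linarith
  have htb : t ≤ b := by
    by_contra hcon
    push Not at hcon
    have := hs3 t ⟨hcon.le, ht1.le⟩
    rw [← hψe] at this
    linarith
  have hI : ∀ (f : ℝ → ℝ) (u v : ℝ), Continuous f → IntervalIntegrable f volume u v :=
    fun f u v hf => hf.intervalIntegrable _ _
  have hint1 : ∫ x in (0 : ℝ)..t, ψ x = p * t - q * t ^ 3 / 3 - (t * r + θ) / 2 := by
    have h1 : ∫ x in (0 : ℝ)..t, ψ x = (∫ x in (0 : ℝ)..t, (p + 0 * x + (-q) * x ^ 2 + 0 * x ^ 3)) -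
        ∫ x in (0 : ℝ)..t, √(1 - x ^ 2) := by
      rw [← intervalIntegral.integral_sub (hI _ _ _ (by fun_prop)) (hI _ _ _ (by fun_prop))]
      refine intervalIntegral.integral_congr fun x _ => ?_
      show p - q * x ^ 2 - √(1 - x ^ 2) = _
      ring
    rw [h1, int_poly, int_F le_rfl ht0.le ht1.le, hsq, has]
    simp
    ring
  have hint2 : ∫ x in t..1, ψ x * (1 - x) =
      p * (1 - t) ^ 2 / 2 - q * ((1 - t ^ 3) / 3 - (1 - t ^ 4) / 4) -
      ((π / 2 - θ) / 2 - t * r / 2 - r ^ 3 / 3) := by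
    have h1 : ∫ x in t..1, ψ x * (1 - x) =
        (∫ x in t..1, (p + (-p) * x + (-q) * x ^ 2 + q * x ^ 3)) -
        (∫ x in t..1, √(1 - x ^ 2)) + ∫ x in t..1, x * √(1 - x ^ 2) := by
      rw [← intervalIntegral.integral_sub (hI _ _ _ (by fun_prop)) (hI _ _ _ (by fun_prop)),
        ← intervalIntegral.integral_add (hI _ _ _ (by fun_prop)) (hI _ _ _ (by fun_prop))]
      refine intervalIntegral.integral_congr fun x _ => ?_
      show (p - q * x ^ 2 - √(1 - x ^ 2)) * (1 - x) = _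
      ring
    rw [h1, int_poly, int_F ht0.le ht1.le le_rfl, int_G ht0.le ht1.le le_rfl, hsq, has]
    have h2 : 1 - t ^ 2 = r ^ 2 := by linarith
    simp only [one_pow, sub_self, Real.sqrt_zero, mul_zero, Real.arcsin_one, h2]
    ring
  have hΦ : ∀ s ∈ Icc a b, 0 ≤ ∫ x in (0 : ℝ)..1, ψ x * (1 - max x s) := by
    intro s hs
    have hs1' : s < 1 := hs.2.trans_lt hb1
    rw [← intervalIntegral.integral_add_adjacent_intervals (b := t)
      (hI _ _ _ (by fun_prop)) (hI _ _ _ (by fun_prop))]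
    have h1 : (1 - s) * ∫ x in (0 : ℝ)..t, ψ x ≤ ∫ x in (0 : ℝ)..t, ψ x * (1 - max x s) := by
      rw [← intervalIntegral.integral_const_mul]
      refine intervalIntegral.integral_mono_on ht0.le (hI _ _ _ (by fun_prop))
        (hI _ _ _ (by fun_prop)) fun x hx => ?_
      rcases le_total x s with h | h
      · rw [max_eq_right h]
        linarith
      · rw [max_eq_left h]
        have h2 : ψ x ≤ 0 := by
          rw [hψe]; exact hs2 x ⟨hs.1.trans h, hx.2.trans htb⟩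
        nlinarith
    have h2 : ∫ x in t..1, ψ x * (1 - x) ≤ ∫ x in t..1, ψ x * (1 - max x s) := by
      refine intervalIntegral.integral_mono_on ht1.le (hI _ _ _ (by fun_prop))
        (hI _ _ _ (by fun_prop)) fun x hx => ?_
      rcases le_total x s with h | h
      · rw [max_eq_right h]
        have h2 : ψ x ≤ 0 := by
          rw [hψe]; exact hs2 x ⟨hat.trans hx.1, h.trans hs.2⟩
        nlinarith
      · rw [max_eq_left h]
    rw [hint1] at h1
    rw [hint2] at h2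
    have h3 : 0 ≤ (1 - s) * (p * t - q * t ^ 3 / 3 - (t * r + θ) / 2) :=
      mul_nonneg (by linarith) hΨ
    linarith
  have hmain := hBHG c hc ψ a b hψc ha0 hab hb1 (fun x hx => by rw [hψe]; exact hs1 x hx)
    (fun x hx => by rw [hψe]; exact hs2 x hx) (fun x hx => by rw [hψe]; exact hs3 x hx) hΦ
  obtain ⟨-, -, -, hint, -⟩ := hEPB c hc
  have hI1 : IntervalIntegrable c volume 0 1 := by
    simpa using hint (fun p => p.2) (by fun_prop)
  have hI2 : IntervalIntegrable (fun x => x ^ 2 * c x) volume 0 1 :=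
    hint (fun p => p.1 ^ 2 * p.2) (by fun_prop)
  have hI3 : IntervalIntegrable (fun x => √(1 - x ^ 2) * c x) volume 0 1 :=
    hint (fun p => √(1 - p.1 ^ 2) * p.2) (by fun_prop)
  have h4 : ∫ x in (0 : ℝ)..1, ψ x * c x = (p * (∫ x in (0 : ℝ)..1, c x) -
      q * (∫ x in (0 : ℝ)..1, x ^ 2 * c x)) - ∫ x in (0 : ℝ)..1, √(1 - x ^ 2) * c x := by
    rw [← intervalIntegral.integral_const_mul p, ← intervalIntegral.integral_const_mul q,
      ← intervalIntegral.integral_sub (hI1.const_mul p) (hI2.const_mul q),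
      ← intervalIntegral.integral_sub ((hI1.const_mul p).sub (hI2.const_mul q)) hI3]
    refine intervalIntegral.integral_congr fun x _ => ?_
    show (p - q * x ^ 2 - √(1 - x ^ 2)) * c x = _
    ring
  rw [h4] at hmain
  linarith

theorem sq2 : (14142135623 / 10000000000 : ℝ) < √2 ∧ √2 < 14142135624 / 10000000000 :=
  ⟨Real.lt_sqrt_of_sq_lt (by norm_num), (Real.sqrt_lt' (by norm_num)).2 (by norm_num)⟩

theorem sq3 : (17320508075 / 10000000000 : ℝ) < √3 ∧ √3 < 17320508076 / 10000000000 :=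
  ⟨Real.lt_sqrt_of_sq_lt (by norm_num), (Real.sqrt_lt' (by norm_num)).2 (by norm_num)⟩

theorem sq6 : (24494897427 / 10000000000 : ℝ) < √6 ∧ √6 < 24494897428 / 10000000000 :=
  ⟨Real.lt_sqrt_of_sq_lt (by norm_num), (Real.sqrt_lt' (by norm_num)).2 (by norm_num)⟩

theorem s2 : √2 * √2 = (2 : ℝ) := Real.mul_self_sqrt (by norm_num)
theorem s3 : √3 * √3 = (3 : ℝ) := Real.mul_self_sqrt (by norm_num)
theorem s6 : √6 * √6 = (6 : ℝ) := Real.mul_self_sqrt (by norm_num)
theorem s23 : √2 * √3 = √6 := by rw [← Real.sqrt_mul (by norm_num)]; norm_num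
theorem s26 : √2 * √6 = 2 * √3 := by rw [← s23, ← mul_assoc, s2]
theorem s36 : √3 * √6 = 3 * √2 := by
  rw [← s23, mul_comm (√2), ← mul_assoc, s3]

theorem sin1 : sin (π / 12) = (√6 - √2) / 4 := by
  rw [show π / 12 = π / 3 - π / 4 by ring, Real.sin_sub, Real.sin_pi_div_three,
    Real.cos_pi_div_four, Real.cos_pi_div_three, Real.sin_pi_div_four]
  nlinarith [s23]

theorem cos1 : cos (π / 12) = (√6 + √2) / 4 := by
  rw [show π / 12 = π / 3 - π / 4 by ring, Real.cos_sub, Real.sin_pi_div_three,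
    Real.cos_pi_div_four, Real.cos_pi_div_three, Real.sin_pi_div_four]
  nlinarith [s23]

theorem sin5 : sin (5 * π / 12) = (√6 + √2) / 4 := by
  rw [show 5 * π / 12 = π / 2 - π / 12 by ring, Real.sin_pi_div_two_sub, cos1]

theorem cos5 : cos (5 * π / 12) = (√6 - √2) / 4 := by
  rw [show 5 * π / 12 = π / 2 - π / 12 by ring, Real.cos_pi_div_two_sub, sin1]

theorem m2 : ((√6 - √2) / 4) ^ 2 = (2 - √3) / 4 := by nlinarith [s2, s6, s26]
theorem p2 : ((√6 + √2) / 4) ^ 2 = (2 + √3) / 4 := by nlinarith [s2, s6, s26]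
theorem m3 : ((√6 - √2) / 4) ^ 3 = (3 * √6 - 5 * √2) / 16 := by
  rw [pow_succ, m2]; nlinarith [s23, s36]
theorem p3 : ((√6 + √2) / 4) ^ 3 = (3 * √6 + 5 * √2) / 16 := by
  rw [pow_succ, p2]; nlinarith [s23, s36]
theorem m4 : ((√6 - √2) / 4) ^ 4 = (7 - 4 * √3) / 16 := by
  rw [show ((√6 - √2) / 4) ^ 4 = (((√6 - √2) / 4) ^ 2) ^ 2 by ring, m2]; nlinarith [s3]
theorem p4 : ((√6 + √2) / 4) ^ 4 = (7 + 4 * √3) / 16 := by
  rw [show ((√6 + √2) / 4) ^ 4 = (((√6 + √2) / 4) ^ 2) ^ 2 by ring, p2]; nlinarith [s3]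
theorem mp : (√6 - √2) / 4 * ((√6 + √2) / 4) = 1 / 4 := by nlinarith [s2, s6]
theorem pm : (√6 + √2) / 4 * ((√6 - √2) / 4) = 1 / 4 := by nlinarith [s2, s6]
theorem u2 : (√3 / 2) ^ 2 = 3 / 4 := by nlinarith [s3]
theorem u3 : (√3 / 2) ^ 3 = 3 * √3 / 8 := by rw [pow_succ, u2]; ring
theorem u4 : (√3 / 2) ^ 4 = 9 / 16 := by
  rw [show (√3 / 2) ^ 4 = ((√3 / 2) ^ 2) ^ 2 by ring, u2]; norm_num
theorem v2 : (√2 / 2) ^ 2 = 1 / 2 := by nlinarith [s2]
theorem v3 : (√2 / 2) ^ 3 = √2 / 4 := by rw [pow_succ, v2]; ring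
theorem v4 : (√2 / 2) ^ 4 = 1 / 4 := by
  rw [show (√2 / 2) ^ 4 = ((√2 / 2) ^ 2) ^ 2 by ring, v2]; norm_num
theorem vv : √2 / 2 * (√2 / 2) = 1 / 2 := by nlinarith [s2]

end BHNM

open BHNM

theorem specBHN (hBHG : SpecBHG) (hEPB : SpecEPB) : SpecBHN := by
  intro c hc pq hpq
  have hπ := Real.pi_pos
  have hπ1 := Real.pi_gt_d20
  have hπ2 := Real.pi_lt_d20
  obtain ⟨a2, b2⟩ := sq2
  obtain ⟨a3, b3⟩ := sq3
  obtain ⟨a6, b6⟩ := sq6
  rcases hpq with h | h | h | h | h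
  · subst h
    refine core hBHG hEPB hc (θ := π / 12) (by norm_num) (by norm_num) (by norm_num) (by norm_num)
      (by linarith) (by linarith) sin1 cos1 ?_ ?_ ?_
    · rw [p2]; norm_num; linarith
    · rw [m3, mp]; norm_num; linarith
    · rw [m3, m4, p3, mp,
        show (1 - (√6 - √2) / 4) ^ 2 = 1 - (√6 - √2) / 2 + ((√6 - √2) / 4) ^ 2 by ring, m2]
      norm_num; linarith
  · subst h
    refine core hBHG hEPB hc (θ := π / 6) (by norm_num) (by norm_num) (by norm_num) (by norm_num)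
      (by linarith) (by linarith) Real.sin_pi_div_six Real.cos_pi_div_six ?_ ?_ ?_
    · rw [u2]; norm_num; linarith
    · norm_num; linarith
    · rw [u3]; norm_num; linarith
  · subst h
    refine core hBHG hEPB hc (θ := π / 4) (by norm_num) (by norm_num) (by norm_num) (by norm_num)
      (by linarith) (by linarith) Real.sin_pi_div_four Real.cos_pi_div_four ?_ ?_ ?_
    · rw [v2]; norm_num; linarith
    · rw [v3, vv]; norm_num; linarith
    · rw [v3, v4, vv, show (1 - √2 / 2) ^ 2 = 1 - √2 + (√2 / 2) ^ 2 by ring, v2]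
      norm_num; linarith
  · subst h
    refine core hBHG hEPB hc (θ := π / 3) (by norm_num) (by norm_num) (by norm_num) (by norm_num)
      (by linarith) (by linarith) Real.sin_pi_div_three Real.cos_pi_div_three ?_ ?_ ?_
    · norm_num
    · rw [u3]; norm_num; linarith
    · rw [u3, u4, show (1 - √3 / 2) ^ 2 = 1 - √3 + (√3 / 2) ^ 2 by ring, u2]
      norm_num; linarith
  · subst h
    refine core hBHG hEPB hc (θ := 5 * π / 12) (by norm_num) (by norm_num) (by norm_num)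
      (by norm_num) (by linarith) (by linarith) sin5 cos5 ?_ ?_ ?_
    · rw [m2]; norm_num; linarith
    · rw [p3, pm]; norm_num; linarith
    · rw [p3, p4, m3, pm,
        show (1 - (√6 + √2) / 4) ^ 2 = 1 - (√6 + √2) / 2 + ((√6 + √2) / 4) ^ 2 by ring, p2]
      norm_num; linarith

end Pool.Agent.Lib.MP_084b88_gt.PC
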