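import Pool.Agent.Lib.MP_084b88_gt.PC.Spec

/-!
# MP_084b88_gt, project PC, module CHE: Chebyshev inequality with the weight x²
-/

set_option autoImplicit false

open MeasureTheory Set Real Filter Topology
open scoped Pointwise InnerProductSpace

namespace Pool.Agent.Lib.MP_084b88_gt.PC

namespace CHEM

theorem toIoo (F : ℝ → ℝ) : (∫ x in (0 : ℝ)..1, F x) = ∫ x in Ioo (0 : ℝ) 1, F x := by
  rw [intervalIntegral.integral_of_le zero_le_one, integral_Ioc_eq_integral_Ioo]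

theorem intb (F : ℝ → ℝ) (M : ℝ) (hm : AEMeasurable F (volume.restrict (Ioo (0 : ℝ) 1)))
    (hb : ∀ x ∈ Ioo (0 : ℝ) 1, |F x| ≤ M) : IntegrableOn F (Ioo (0 : ℝ) 1) := by
  refine Integrable.of_bound hm.aestronglyMeasurable M ?_
  rw [ae_restrict_iff' measurableSet_Ioo]
  exact Eventually.of_forall fun x hx => hb x hx

/-- the constant `e₀` -/
theorem exE (e g : ℝ → ℝ) (C H : ℝ) (he : AntitoneOn e (Ioo 0 1)) (hg : MonotoneOn g (Ioo 0 1))
    (heC : ∀ x ∈ Ioo (0 : ℝ) 1, |e x| ≤ C) :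
    ∃ e₀ : ℝ, ∀ x ∈ Ioo (0 : ℝ) 1, (e x - e₀) * (g x - H) ≤ 0 := by
  by_cases h1 : ∀ x ∈ Ioo (0 : ℝ) 1, H < g x
  · refine ⟨C, fun x hx => ?_⟩
    have h2 := (abs_le.1 (heC x hx)).2
    have h3 := h1 x hx
    exact mul_nonpos_of_nonpos_of_nonneg (by linarith) (by linarith)
  · push Not at h1
    obtain ⟨a, ha, hga⟩ := h1
    by_cases h2 : ∀ x ∈ Ioo (0 : ℝ) 1, g x ≤ H
    · refine ⟨-C, fun x hx => ?_⟩
      have h3 := (abs_le.1 (heC x hx)).1
      have h4 := h2 x hx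
      exact mul_nonpos_of_nonneg_of_nonpos (by linarith) (by linarith)
    · push Not at h2
      obtain ⟨b, hb, hgb⟩ := h2
      set S : Set ℝ := {x | x ∈ Ioo (0 : ℝ) 1 ∧ g x ≤ H} with hS
      have hSb : ∀ x ∈ S, x ≤ b := by
        intro x hx
        by_contra h3
        push Not at h3
        have h4 := hg hb hx.1 h3.le
        have h5 := hx.2
        linarith
      have hbdd : BddAbove S := ⟨b, fun x hx => hSb x hx⟩
      have haS : a ∈ S := ⟨ha, hga⟩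
      have h3 : a ≤ sSup S := le_csSup hbdd haS
      have h4 : sSup S ≤ b := csSup_le ⟨a, haS⟩ hSb
      have h5 : sSup S ∈ Ioo (0 : ℝ) 1 := ⟨lt_of_lt_of_le ha.1 h3, lt_of_le_of_lt h4 hb.2⟩
      refine ⟨e (sSup S), fun x hx => ?_⟩
      rcases lt_trichotomy x (sSup S) with h6 | h6 | h6
      · obtain ⟨s, hs, hxs⟩ := exists_lt_of_lt_csSup ⟨a, haS⟩ h6
        have h7 := hg hx hs.1 hxs.le
        have h8 := hs.2
        have h9 := he hx h5 h6.le
        exact mul_nonpos_of_nonneg_of_nonpos (by linarith) (by linarith)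
      · rw [← h6]
        simp
      · have h7 : H < g x := by
          by_contra h8
          push Not at h8
          have h9 : x ≤ sSup S := le_csSup hbdd ⟨hx, h8⟩
          linarith
        have h9 := he h5 hx h6.le
        exact mul_nonpos_of_nonpos_of_nonneg (by linarith) (by linarith)

end CHEM

open CHEM in
theorem specCHE : SpecCHE := by
  intro e g C he hg heC hgC
  simp only [toIoo]
  have hme : AEMeasurable e (volume.restrict (Ioo (0 : ℝ) 1)) :=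
    aemeasurable_restrict_of_antitoneOn measurableSet_Ioo he
  have hmg : AEMeasurable g (volume.restrict (Ioo (0 : ℝ) 1)) :=
    aemeasurable_restrict_of_monotoneOn measurableSet_Ioo hg
  have hmx : AEMeasurable (fun x : ℝ => x ^ 2) (volume.restrict (Ioo (0 : ℝ) 1)) :=
    (measurable_id.pow_const 2).aemeasurable
  have hC : 0 ≤ C := (abs_nonneg _).trans (heC (1 / 2) ⟨by norm_num, by norm_num⟩)
  have hx1 : ∀ x ∈ Ioo (0 : ℝ) 1, |x ^ 2| ≤ 1 := by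
    intro x hx
    rw [abs_of_nonneg (sq_nonneg x)]
    nlinarith [hx.1, hx.2]
  have i1 : IntegrableOn (fun x : ℝ => x ^ 2 * (e x * g x)) (Ioo (0 : ℝ) 1) := by
    refine intb _ (1 * (C * C)) (hmx.mul (hme.mul hmg)) fun x hx => ?_
    rw [abs_mul, abs_mul]
    exact mul_le_mul (hx1 x hx) (mul_le_mul (heC x hx) (hgC x hx) (abs_nonneg _) hC)
      (mul_nonneg (abs_nonneg _) (abs_nonneg _)) zero_le_one
  have i2 : IntegrableOn (fun x : ℝ => x ^ 2 * e x) (Ioo (0 : ℝ) 1) := by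
    refine intb _ (1 * C) (hmx.mul hme) fun x hx => ?_
    rw [abs_mul]
    exact mul_le_mul (hx1 x hx) (heC x hx) (abs_nonneg _) zero_le_one
  have i3 : IntegrableOn (fun x : ℝ => x ^ 2 * g x) (Ioo (0 : ℝ) 1) := by
    refine intb _ (1 * C) (hmx.mul hmg) fun x hx => ?_
    rw [abs_mul]
    exact mul_le_mul (hx1 x hx) (hgC x hx) (abs_nonneg _) zero_le_one
  have i4 : IntegrableOn (fun x : ℝ => x ^ 2) (Ioo (0 : ℝ) 1) := intb _ 1 hmx hx1
  have h4 : ∫ x in Ioo (0 : ℝ) 1, x ^ 2 = 1 / 3 := by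
    rw [← toIoo (fun x => x ^ 2), integral_pow]
    norm_num
  set H : ℝ := 3 * ∫ x in Ioo (0 : ℝ) 1, x ^ 2 * g x with hH
  obtain ⟨e₀, he₀⟩ := exE e g C H he hg heC
  have h5 : ∫ x in Ioo (0 : ℝ) 1, x ^ 2 * ((e x - e₀) * (g x - H)) ≤ 0 := by
    refine setIntegral_nonpos measurableSet_Ioo fun x hx => ?_
    exact mul_nonpos_of_nonneg_of_nonpos (sq_nonneg x) (he₀ x hx)
  have h6 : ∫ x in Ioo (0 : ℝ) 1, x ^ 2 * ((e x - e₀) * (g x - H)) =
      (∫ x in Ioo (0 : ℝ) 1, x ^ 2 * (e x * g x)) - H * (∫ x in Ioo (0 : ℝ) 1, x ^ 2 * e x) -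
        e₀ * (∫ x in Ioo (0 : ℝ) 1, x ^ 2 * g x) + e₀ * H * (∫ x in Ioo (0 : ℝ) 1, x ^ 2) := by
    have k1 : IntegrableOn (fun x : ℝ => x ^ 2 * (e x * g x) - H * (x ^ 2 * e x))
        (Ioo (0 : ℝ) 1) := i1.sub (i2.const_mul H)
    have k2 : IntegrableOn (fun x : ℝ => x ^ 2 * (e x * g x) - H * (x ^ 2 * e x) -
        e₀ * (x ^ 2 * g x)) (Ioo (0 : ℝ) 1) := k1.sub (i3.const_mul e₀)
    have j1 : ∫ x in Ioo (0 : ℝ) 1, (x ^ 2 * (e x * g x) - H * (x ^ 2 * e x) -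
        e₀ * (x ^ 2 * g x) + e₀ * H * x ^ 2) =
        (∫ x in Ioo (0 : ℝ) 1, (x ^ 2 * (e x * g x) - H * (x ^ 2 * e x) - e₀ * (x ^ 2 * g x))) +
          ∫ x in Ioo (0 : ℝ) 1, e₀ * H * x ^ 2 := integral_add k2 (i4.const_mul (e₀ * H))
    have j2 : ∫ x in Ioo (0 : ℝ) 1, (x ^ 2 * (e x * g x) - H * (x ^ 2 * e x) -
        e₀ * (x ^ 2 * g x)) =
        (∫ x in Ioo (0 : ℝ) 1, (x ^ 2 * (e x * g x) - H * (x ^ 2 * e x))) -
          ∫ x in Ioo (0 : ℝ) 1, e₀ * (x ^ 2 * g x) := integral_sub k1 (i3.const_mul e₀)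
    have j3 : ∫ x in Ioo (0 : ℝ) 1, (x ^ 2 * (e x * g x) - H * (x ^ 2 * e x)) =
        (∫ x in Ioo (0 : ℝ) 1, x ^ 2 * (e x * g x)) -
          ∫ x in Ioo (0 : ℝ) 1, H * (x ^ 2 * e x) := integral_sub i1 (i2.const_mul H)
    have j0 : ∫ x in Ioo (0 : ℝ) 1, x ^ 2 * ((e x - e₀) * (g x - H)) =
        ∫ x in Ioo (0 : ℝ) 1, (x ^ 2 * (e x * g x) - H * (x ^ 2 * e x) -
        e₀ * (x ^ 2 * g x) + e₀ * H * x ^ 2) := by
      refine integral_congr_ae (Eventually.of_forall fun x => ?_)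
      simp only
      ring
    rw [j0, j1, j2, j3, integral_const_mul, integral_const_mul, integral_const_mul]
  rw [h6, h4] at h5
  have h7 : e₀ * (∫ x in Ioo (0 : ℝ) 1, x ^ 2 * g x) = e₀ * H * (1 / 3) := by
    rw [hH]
    ring
  rw [h7] at h5
  have h8 : 3 * (∫ x in Ioo (0 : ℝ) 1, x ^ 2 * e x) * (∫ x in Ioo (0 : ℝ) 1, x ^ 2 * g x) =
      H * (∫ x in Ioo (0 : ℝ) 1, x ^ 2 * e x) := by
    rw [hH]
    ring
  rw [h8]
  linarith

end Pool.Agent.Lib.MP_084b88_gt.PC
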