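import Pool.Agent.Lib.MP_084b88_gt.PC.Spec

/-!
# MP_084b88_gt, project PC, module CUT: the linear cuts
-/

set_option autoImplicit false

open MeasureTheory Set Real Filter Topology
open scoped Pointwise InnerProductSpace

namespace Pool.Agent.Lib.MP_084b88_gt.PC

open Pool.Agent.Lib.MP_084b88_gt.CW

namespace CUTM

/-- The general step: a cut from a polynomial inequality. -/
theorem cut {v w κ J Jm L : ℝ} (hκ0 : 0 ≤ κ) (hκ1 : κ ≤ 1) (hv1 : v ≤ 1)
    (hJ0 : 0 ≤ J) (hJ : J ≤ Jm) (h : (1 - κ * v / 3) ^ 3 ≤ J ^ 2 * (3 - 2 * v) ^ 2 * w)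
    (hp : Jm ^ 2 * (3 - 2 * v) ^ 2 * L ≤ (1 - κ * v / 3) ^ 3) : L ≤ w := by
  have h0 : 0 < 1 - κ * v / 3 := by nlinarith
  have h3 : 0 < (1 - κ * v / 3) ^ 3 := pow_pos h0 3
  have hq : 0 ≤ J ^ 2 * (3 - 2 * v) ^ 2 := by positivity
  have hw : 0 < w := by
    by_contra hc
    have : J ^ 2 * (3 - 2 * v) ^ 2 * w ≤ 0 := mul_nonpos_of_nonneg_of_nonpos hq (not_lt.1 hc)
    linarith
  by_contra hc
  have hc' : w < L := not_le.1 hc
  have hJ2 : J ^ 2 ≤ Jm ^ 2 := pow_le_pow_left₀ hJ0 hJ 2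
  have h2 : 0 < (3 - 2 * v) ^ 2 := by
    have : 0 < 3 - 2 * v := by linarith
    positivity
  have h4 : J ^ 2 * (3 - 2 * v) ^ 2 * w ≤ Jm ^ 2 * (3 - 2 * v) ^ 2 * w := by
    apply mul_le_mul_of_nonneg_right _ hw.le
    exact mul_le_mul_of_nonneg_right hJ2 h2.le
  have h5 : 0 < Jm ^ 2 * (3 - 2 * v) ^ 2 := by
    by_contra h6
    have : Jm ^ 2 * (3 - 2 * v) ^ 2 * w ≤ 0 := mul_nonpos_of_nonpos_of_nonneg (not_lt.1 h6) hw.le
    linarith
  have h6 : Jm ^ 2 * (3 - 2 * v) ^ 2 * w < Jm ^ 2 * (3 - 2 * v) ^ 2 * L :=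
    mul_lt_mul_of_pos_left hc' h5
  linarith

end CUTM

open CUTM in
theorem specCUT (hJVL : SpecJVL) : SpecCUT := by
  obtain ⟨j0, j1, j1', j2, j2', j3, j3', j4, j4'⟩ := hJVL
  intro v w hv hv1 h
  have a : 0 ≤ v - 1 / 2 := by linarith
  have b : 0 ≤ 1 - v := by linarith
  refine ⟨?_, ?_, ?_, ?_, ?_, ?_, ?_, ?_, ?_⟩
  · refine cut (κ := 0) le_rfl zero_le_one hv1 (by rw [j0]; exact zero_le_one) j0.le
      (h 0 le_rfl zero_le_one) ?_
    nlinarith [mul_nonneg (sq_nonneg (v - 1)) a, mul_nonneg (sq_nonneg (v - 1)) b,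
      sq_nonneg (v - 1)]
  · refine cut (κ := 1 / 4) (by norm_num) (by norm_num) hv1 j1 j1'
      (h (1 / 4) (by norm_num) (by norm_num)) ?_
    nlinarith [mul_nonneg (sq_nonneg (v - 97 / 100)) a, mul_nonneg (sq_nonneg (v - 97 / 100)) b,
      sq_nonneg (v - 97 / 100), sq_nonneg (v - 97022 / 100000)]
  · refine cut (κ := 1 / 4) (by norm_num) (by norm_num) hv1 j1 j1'
      (h (1 / 4) (by norm_num) (by norm_num)) ?_
    nlinarith [mul_nonneg (sq_nonneg (v - 95 / 100)) a, mul_nonneg (sq_nonneg (v - 95 / 100)) b,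
      sq_nonneg (v - 95 / 100), sq_nonneg (v - 94969 / 100000)]
  · refine cut (κ := 1 / 2) (by norm_num) (by norm_num) hv1 j2 j2'
      (h (1 / 2) (by norm_num) (by norm_num)) ?_
    nlinarith [mul_nonneg (sq_nonneg (v - 925 / 1000)) a, mul_nonneg (sq_nonneg (v - 925 / 1000)) b,
      sq_nonneg (v - 925 / 1000), sq_nonneg (v - 925225 / 1000000)]
  · refine cut (κ := 1 / 2) (by norm_num) (by norm_num) hv1 j2 j2'
      (h (1 / 2) (by norm_num) (by norm_num)) ?_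
    nlinarith [mul_nonneg (sq_nonneg (v - 9 / 10)) a, mul_nonneg (sq_nonneg (v - 9 / 10)) b,
      sq_nonneg (v - 9 / 10), sq_nonneg (v - 899575 / 1000000)]
  · refine cut (κ := 3 / 4) (by norm_num) (by norm_num) hv1 j3 j3'
      (h (3 / 4) (by norm_num) (by norm_num)) ?_
    nlinarith [mul_nonneg (sq_nonneg (v - 875 / 1000)) a, mul_nonneg (sq_nonneg (v - 875 / 1000)) b,
      sq_nonneg (v - 875 / 1000), sq_nonneg (v - 87458 / 100000)]
  · refine cut (κ := 3 / 4) (by norm_num) (by norm_num) hv1 j3 j3'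
      (h (3 / 4) (by norm_num) (by norm_num)) ?_
    nlinarith [mul_nonneg (sq_nonneg (v - 85 / 100)) a, mul_nonneg (sq_nonneg (v - 85 / 100)) b,
      sq_nonneg (v - 85 / 100), sq_nonneg (v - 85024 / 100000)]
  · refine cut (κ := 1) (by norm_num) le_rfl hv1 j4 j4' (h 1 (by norm_num) le_rfl) ?_
    nlinarith [mul_nonneg (sq_nonneg (v - 8 / 10)) a, mul_nonneg (sq_nonneg (v - 8 / 10)) b,
      sq_nonneg (v - 8 / 10), sq_nonneg (v - 801255 / 1000000)]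
  · refine cut (κ := 1) (by norm_num) le_rfl hv1 j4 j4' (h 1 (by norm_num) le_rfl) ?_
    nlinarith [mul_nonneg (sq_nonneg (v - 75 / 100)) a, mul_nonneg (sq_nonneg (v - 75 / 100)) b,
      sq_nonneg (v - 75 / 100), sq_nonneg (v - 749875 / 1000000)]

end Pool.Agent.Lib.MP_084b88_gt.PC
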