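import Pool.Agent.Lib.MP_084b88_gt.PC.Spec

/-!
# EPB: basics on even concave nonnegative functions (project PC)
-/

set_option autoImplicit false

open MeasureTheory Set Real Filter Topology

namespace Pool.Agent.Lib.MP_084b88_gt.PC

namespace EPBM

theorem anti {c : ℝ → ℝ} (h : EPF c) : AntitoneOn c (Ico 0 1) := by
  intro x hx y hy hxy
  rcases eq_or_lt_of_le hy.1 with hy0 | hy0
  · have hx0 : x = y := le_antisymm hxy (hy0 ▸ hx.1)
    rw [hx0]
  have h2 : (0 : ℝ) < 2 * y := by linarith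
  have hx1 := hx.1
  have hy1 := hy.2
  have hc := h.conc.2 (show -y ∈ Ioo (-1 : ℝ) 1 from ⟨by linarith, by linarith⟩)
    (show y ∈ Ioo (-1 : ℝ) 1 from ⟨by linarith, by linarith⟩)
    (show 0 ≤ (y - x) / (2 * y) from div_nonneg (by linarith) h2.le)
    (show 0 ≤ (y + x) / (2 * y) from div_nonneg (by linarith) h2.le)
    (by field_simp; ring)
  simp only [smul_eq_mul] at hc
  rw [h.even y] at hc
  have e1 : (y - x) / (2 * y) * -y + (y + x) / (2 * y) * y = x := by field_simp; ring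
  have e2 : (y - x) / (2 * y) * c y + (y + x) / (2 * y) * c y = c y := by field_simp; ring
  rw [e1, e2] at hc
  exact hc

theorem lim_le {f : ℝ → ℝ} {y : ℝ} (hf : Continuous f) (hy : y < 1)
    (h : ∀ z, y < z → z < 1 → 0 ≤ f z) : 0 ≤ f 1 := by
  have h1 : Tendsto f (𝓝[<] 1) (𝓝 (f 1)) := (hf.tendsto 1).mono_left nhdsWithin_le_nhds
  refine ge_of_tendsto h1 ?_
  filter_upwards [Ioo_mem_nhdsLT hy] with z hz
  exact h z hz.1 hz.2

theorem five {c : ℝ → ℝ} (h : EPF c) (x y : ℝ) (hx : 0 ≤ x) (hxy : x ≤ y) (hy : y < 1) :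
    c x * (1 - y) ≤ c y * (1 - x) := by
  have key := lim_le (f := fun z => (z - x) * c y - (z - y) * c x) (by fun_prop) hy
    (fun z hz1 hz2 => by
      have hzx : 0 < z - x := by linarith
      have hc := h.conc.2 (show x ∈ Ioo (-1 : ℝ) 1 from ⟨by linarith, by linarith⟩)
        (show z ∈ Ioo (-1 : ℝ) 1 from ⟨by linarith, by linarith⟩)
        (show 0 ≤ (z - y) / (z - x) from div_nonneg (by linarith) hzx.le)
        (show 0 ≤ (y - x) / (z - x) from div_nonneg (by linarith) hzx.le)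
        (by field_simp; ring)
      simp only [smul_eq_mul] at hc
      have e1 : (z - y) / (z - x) * x + (y - x) / (z - x) * z = y := by field_simp; ring
      rw [e1] at hc
      have hz0 : 0 ≤ c z := h.nn z ⟨by linarith, by linarith⟩
      have h3 : 0 ≤ (y - x) / (z - x) * c z :=
        mul_nonneg (div_nonneg (by linarith) hzx.le) hz0
      have h4 : (z - y) / (z - x) * c x ≤ c y := by linarith
      have h5 : (z - x) * ((z - y) / (z - x) * c x) ≤ (z - x) * c y :=
        mul_le_mul_of_nonneg_left h4 hzx.le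
      have e2 : (z - x) * ((z - y) / (z - x) * c x) = (z - y) * c x := by field_simp
      rw [e2] at h5
      linarith)
  have key2 : 0 ≤ (1 - x) * c y - (1 - y) * c x := key
  linarith

theorem le0 {c : ℝ → ℝ} (h : EPF c) : ∀ x ∈ Ioo (-1 : ℝ) 1, c x ≤ c 0 := by
  intro x hx
  rcases le_total 0 x with h0 | h0
  · exact anti h ⟨le_rfl, zero_lt_one⟩ ⟨h0, hx.2⟩ h0
  · rw [← h.even x]
    have := hx.1
    exact anti h ⟨le_rfl, zero_lt_one⟩ ⟨by linarith, by linarith⟩ (by linarith)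

theorem integ {c : ℝ → ℝ} (h : EPF c) (hcont : ContinuousOn c (Ioo (-1) 1)) (G : ℝ × ℝ → ℝ)
    (hG : Continuous G) : IntervalIntegrable (fun x => G (x, c x)) volume 0 1 := by
  rw [intervalIntegrable_iff_integrableOn_Ioo_of_le zero_le_one]
  have hcomp : IsCompact (Icc (0 : ℝ) 1 ×ˢ Icc (0 : ℝ) (c 0)) := isCompact_Icc.prod isCompact_Icc
  obtain ⟨M, hM⟩ := hcomp.exists_bound_of_continuousOn hG.continuousOn
  have hc1 : ContinuousOn c (Ioo (0 : ℝ) 1) :=
    hcont.mono (Ioo_subset_Ioo_left (by norm_num))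
  have hc2 : ContinuousOn (fun x : ℝ => G (x, c x)) (Ioo (0 : ℝ) 1) :=
    hG.comp_continuousOn (continuousOn_id.prodMk hc1)
  refine Integrable.of_bound (hc2.aestronglyMeasurable measurableSet_Ioo) M ?_
  refine (ae_restrict_iff' measurableSet_Ioo).2 (Eventually.of_forall fun x hx => ?_)
  exact hM (x, c x) ⟨⟨hx.1.le, hx.2.le⟩,
    ⟨h.nn x ⟨by linarith [hx.1], hx.2⟩, le0 h x ⟨by linarith [hx.1], hx.2⟩⟩⟩

end EPBM

theorem specEPB : SpecEPB := by
  intro c h
  have hcont : ContinuousOn c (Ioo (-1) 1) := ConcaveOn.continuousOn isOpen_Ioo h.conc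
  refine ⟨EPBM.anti h, EPBM.le0 h, hcont, EPBM.integ h hcont, EPBM.five h, ?_, ?_⟩
  · intro a _ ha1 x hx
    exact EPBM.five h x a hx.1 hx.2 ha1
  · intro a ha0 _ x hx
    exact EPBM.five h a x ha0 hx.1 hx.2

end Pool.Agent.Lib.MP_084b88_gt.PC
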