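import Pool.Agent.Lib.MP_084b88_gt.PC.Spec

set_option autoImplicit false

open MeasureTheory Set Real Filter Topology
open scoped Pointwise InnerProductSpace

namespace Pool.Agent.Lib.MP_084b88_gt.PC.HOLM

theorem amgm {a b : ℝ} (ha : 0 ≤ a) (hb : 0 ≤ b) : 3 * (a * b ^ 2) ≤ a ^ 3 + 2 * b ^ 3 := by
  nlinarith [mul_nonneg (sq_nonneg (a - b)) (by positivity : 0 ≤ a + 2 * b)]

/-- optimisation in `l` -/
theorem opt {N J E : ℝ} (hJ : 0 ≤ J) (hN : 0 ≤ N) (hE : 0 ≤ E)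
    (h : ∀ l : ℝ, 0 ≤ l → 3 * l ^ 2 * N ≤ E + 2 * l ^ 3 * J) : N ^ 3 ≤ J ^ 2 * E := by
  rcases hJ.eq_or_lt with h0 | hJ
  · subst h0
    have : N = 0 := by
      by_contra hne
      have hN' : 0 < N := lt_of_le_of_ne hN (Ne.symm hne)
      have hq : 0 ≤ E / N := div_nonneg hE hN
      have h1 := h (E / N + 1) (by positivity)
      have h2 : E = E / N * N := by field_simp
      have h3 : 3 * (E / N + 1) ^ 2 * N ≤ E / N * N := by rw [← h2]; linarith
      nlinarith [mul_nonneg hq hN, mul_nonneg (mul_nonneg hq hq) hN]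
    simp [this]
  · have h1 := h (N / J) (by positivity)
    have h2 : 3 * (N / J) ^ 2 * N - 2 * (N / J) ^ 3 * J = N ^ 3 / J ^ 2 := by
      field_simp
      ring
    have h3 : N ^ 3 / J ^ 2 ≤ E := by linarith
    rw [div_le_iff₀ (by positivity)] at h3
    linarith

end Pool.Agent.Lib.MP_084b88_gt.PC.HOLM

namespace Pool.Agent.Lib.MP_084b88_gt.PC

open HOLM

theorem specHOL (hEPB : SpecEPB) : SpecHOL := by
  intro e he κ hκ0 hκ1
  obtain ⟨-, -, -, hint, -, -, -⟩ := hEPB e he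
  have hu : ∀ x ∈ Icc (0 : ℝ) 1, 0 ≤ 1 - κ * x ^ 2 := by
    intro x hx
    have h1 : x ^ 2 ≤ 1 := by nlinarith [hx.1, hx.2]
    nlinarith [sq_nonneg x]
  have ie : IntervalIntegrable (fun x => e x) volume 0 1 := hint (fun p => p.2) continuous_snd
  have ix : IntervalIntegrable (fun x => x ^ 2 * e x) volume 0 1 :=
    hint (fun p => p.1 ^ 2 * p.2) (by fun_prop)
  have i3 : IntervalIntegrable (fun x => e x ^ 3) volume 0 1 :=
    hint (fun p => p.2 ^ 3) (by fun_prop)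
  have iN : IntervalIntegrable (fun x => (1 - κ * x ^ 2) * e x) volume 0 1 :=
    hint (fun p => (1 - κ * p.1 ^ 2) * p.2) (by fun_prop)
  have iJ : IntervalIntegrable (fun x : ℝ => (1 - κ * x ^ 2) * √(1 - κ * x ^ 2)) volume 0 1 :=
    Continuous.intervalIntegrable (by fun_prop) _ _
  set N : ℝ := (∫ x in (0 : ℝ)..1, e x) - κ * ∫ x in (0 : ℝ)..1, x ^ 2 * e x with hNdef
  have hNeq : N = ∫ x in (0 : ℝ)..1, (1 - κ * x ^ 2) * e x := by
    rw [hNdef, ← intervalIntegral.integral_const_mul, ← intervalIntegral.integral_sub ie (ix.const_mul κ)]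
    apply intervalIntegral.integral_congr
    intro x _
    ring
  have hnn : ∀ x ∈ Ioo (0 : ℝ) 1, 0 ≤ e x := fun x hx => he.nn x ⟨by linarith [hx.1], hx.2⟩
  have aeIoo : ∀ᵐ x ∂(volume.restrict (Ioc (0 : ℝ) 1)), x ∈ Ioo (0 : ℝ) 1 := by
    rw [← Measure.restrict_congr_set (Ioo_ae_eq_Ioc (μ := volume) (a := (0 : ℝ)) (b := 1))]
    exact ae_restrict_mem measurableSet_Ioo
  have hN0 : 0 ≤ N := by
    rw [hNeq]
    apply intervalIntegral.integral_nonneg_of_ae_restrict (by norm_num)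
    have h' : ∀ᵐ x ∂(volume.restrict (Icc (0 : ℝ) 1)), x ∈ Ioo (0 : ℝ) 1 := by
      rw [← Measure.restrict_congr_set (Ioo_ae_eq_Icc (μ := volume) (a := (0 : ℝ)) (b := 1))]
      exact ae_restrict_mem measurableSet_Ioo
    filter_upwards [h'] with x hx
    exact mul_nonneg (hu x ⟨hx.1.le, hx.2.le⟩) (hnn x hx)
  have hE0 : 0 ≤ ∫ x in (0 : ℝ)..1, e x ^ 3 := by
    apply intervalIntegral.integral_nonneg_of_ae_restrict (by norm_num)
    have h' : ∀ᵐ x ∂(volume.restrict (Icc (0 : ℝ) 1)), x ∈ Ioo (0 : ℝ) 1 := by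
      rw [← Measure.restrict_congr_set (Ioo_ae_eq_Icc (μ := volume) (a := (0 : ℝ)) (b := 1))]
      exact ae_restrict_mem measurableSet_Ioo
    filter_upwards [h'] with x hx
    exact pow_nonneg (hnn x hx) 3
  have hJ0 : 0 ≤ JJ κ := by
    unfold JJ
    apply intervalIntegral.integral_nonneg (by norm_num)
    intro x hx
    exact mul_nonneg (hu x hx) (Real.sqrt_nonneg _)
  apply opt hJ0 hN0 hE0
  intro l hl
  rw [hNeq, JJ, ← intervalIntegral.integral_const_mul, ← intervalIntegral.integral_const_mul,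
    ← intervalIntegral.integral_add i3 (iJ.const_mul _)]
  rw [intervalIntegral.integral_of_le (by norm_num), intervalIntegral.integral_of_le (by norm_num)]
  apply MeasureTheory.integral_mono_ae
  · exact ((iN.const_mul _).1)
  · exact ((i3.add (iJ.const_mul _)).1)
  · filter_upwards [aeIoo] with x hx
    have h1 := hu x ⟨hx.1.le, hx.2.le⟩
    have h2 := amgm (hnn x hx) (mul_nonneg hl (Real.sqrt_nonneg (1 - κ * x ^ 2)))
    have h3 : √(1 - κ * x ^ 2) ^ 2 = 1 - κ * x ^ 2 := Real.sq_sqrt h1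
    have h4 : √(1 - κ * x ^ 2) ^ 3 = (1 - κ * x ^ 2) * √(1 - κ * x ^ 2) := by
      rw [pow_succ, h3]
    rw [mul_pow, mul_pow, h3, h4] at h2
    show 3 * l ^ 2 * ((1 - κ * x ^ 2) * e x) ≤ e x ^ 3 + 2 * l ^ 3 * ((1 - κ * x ^ 2) * √(1 - κ * x ^ 2))
    nlinarith [h2]

end Pool.Agent.Lib.MP_084b88_gt.PC
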