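import Pool.Agent.Lib.MP_084b88_gt.PC.Spec

set_option autoImplicit false

open MeasureTheory Set Real Filter Topology
open scoped Pointwise InnerProductSpace

namespace Pool.Agent.Lib.MP_084b88_gt.PC.JVLM

/-- antiderivative of `(1 - t²)^{3/2}` -/
noncomputable def G (t : ℝ) : ℝ := t * (5 - 2 * t ^ 2) * √(1 - t ^ 2) / 8 + 3 / 8 * arcsin t

theorem G_cont : Continuous G := by
  unfold G
  have := Real.continuous_arcsin
  fun_prop

theorem G_deriv {t : ℝ} (h1 : -1 < t) (h2 : t < 1) :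
    HasDerivAt G ((1 - t ^ 2) * √(1 - t ^ 2)) t := by
  have hp : 0 < 1 - t ^ 2 := by nlinarith
  have hs : 0 < √(1 - t ^ 2) := Real.sqrt_pos.mpr hp
  have hsq : √(1 - t ^ 2) ^ 2 = 1 - t ^ 2 := Real.sq_sqrt hp.le
  have d1 : HasDerivAt (fun t : ℝ => 1 - t ^ 2) (-(2 * t)) t := by
    have := (hasDerivAt_pow 2 t).const_sub 1
    simpa using this
  have d2 : HasDerivAt (fun t : ℝ => √(1 - t ^ 2)) (-(2 * t) / (2 * √(1 - t ^ 2))) t := d1.sqrt hp.ne'
  have d3 : HasDerivAt (fun t : ℝ => t * (5 - 2 * t ^ 2)) (1 * (5 - 2 * t ^ 2) + t * (-(4 * t))) t := by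
    have e1 : HasDerivAt (fun t : ℝ => 5 - 2 * t ^ 2) (-(4 * t)) t := by
      have := ((hasDerivAt_pow 2 t).const_mul 2).const_sub 5
      refine this.congr_deriv ?_
      simp
      ring
    exact (hasDerivAt_id t).mul e1
  have d4 := (Real.hasDerivAt_arcsin h1.ne' h2.ne).const_mul (3 / 8)
  have d5 := ((d3.mul d2).div_const 8).add d4
  refine d5.congr_deriv ?_
  field_simp
  have h3 : √(1 - t ^ 2) ^ 2 = 1 - t ^ 2 := hsq
  nlinarith [h3, sq_nonneg t, congrArg (fun z => z * t ^ 2) h3, congrArg (fun z => z * √(1 - t ^ 2) ^ 2) h3]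

theorem JJ_eq {s : ℝ} (hs : 0 < s) (hs1 : s ≤ 1) : JJ (s ^ 2) = G s / s := by
  unfold JJ
  have hc : ContinuousOn (fun x : ℝ => G (s * x) / s) (Icc 0 1) := by
    have := G_cont
    exact (Continuous.div_const (this.comp (by fun_prop)) s).continuousOn
  have hd : ∀ x ∈ Ioo (0 : ℝ) 1, HasDerivWithinAt (fun x : ℝ => G (s * x) / s)
      ((1 - s ^ 2 * x ^ 2) * √(1 - s ^ 2 * x ^ 2)) (Ioi x) x := by
    intro x hx
    have h1 : s * x < 1 := by nlinarith [hx.1, hx.2]
    have h2 : -1 < s * x := by nlinarith [mul_pos hs hx.1]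
    have h3 : HasDerivAt (fun x : ℝ => s * x) s x := by
      simpa using (hasDerivAt_id x).const_mul s
    have h4 := ((G_deriv h2 h1).comp x h3).div_const s
    refine (h4.congr_deriv ?_).hasDerivWithinAt
    rw [mul_pow]
    field_simp
  have hi : IntervalIntegrable (fun x : ℝ => (1 - s ^ 2 * x ^ 2) * √(1 - s ^ 2 * x ^ 2)) volume 0 1 :=
    Continuous.intervalIntegrable (by fun_prop) _ _
  rw [intervalIntegral.integral_eq_sub_of_hasDeriv_right_of_le (by norm_num) hc hd hi]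
  simp [G]

theorem JJ_nn {κ : ℝ} (h0 : 0 ≤ κ) (h1 : κ ≤ 1) : 0 ≤ JJ κ := by
  unfold JJ
  apply intervalIntegral.integral_nonneg (by norm_num)
  intro x hx
  have : x ^ 2 ≤ 1 := by nlinarith [hx.1, hx.2]
  exact mul_nonneg (by nlinarith [sq_nonneg x]) (Real.sqrt_nonneg _)

end Pool.Agent.Lib.MP_084b88_gt.PC.JVLM

namespace Pool.Agent.Lib.MP_084b88_gt.PC

open JVLM

theorem specJVL : SpecJVL := by
  have hpi := Real.pi_lt_d6
  have hpi0 := Real.pi_pos
  refine ⟨?_, JJ_nn (by norm_num) (by norm_num), ?_, JJ_nn (by norm_num) (by norm_num), ?_,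
    JJ_nn (by norm_num) (by norm_num), ?_, JJ_nn (by norm_num) (by norm_num), ?_⟩
  · simp [JJ]
  · have h : JJ (1 / 4) = G (1 / 2) / (1 / 2) := by
      rw [← JJ_eq (by norm_num) (by norm_num)]
      norm_num
    have ha : arcsin (1 / 2) = π / 6 := by
      rw [← Real.sin_pi_div_six]
      exact Real.arcsin_sin (by linarith) (by linarith)
    have hsq : √(1 - (1 / 2 : ℝ) ^ 2) = √3 / 2 := by
      rw [show (1 - (1 / 2 : ℝ) ^ 2) = 3 / 2 ^ 2 by norm_num, Real.sqrt_div (by norm_num), Real.sqrt_sq (by norm_num)]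
    have h3 : √3 < 1732051 / 1000000 := by
      rw [Real.sqrt_lt' (by norm_num)]; norm_num
    rw [h, G, ha, hsq]
    norm_num at *
    linarith
  · have h2 : √2 ^ 2 = 2 := Real.sq_sqrt (by norm_num)
    have h20 : 0 < √2 := by positivity
    have h2u : √2 < 1414214 / 1000000 := by
      rw [Real.sqrt_lt' (by norm_num)]; norm_num
    have h : JJ (1 / 2) = G (√2 / 2) / (√2 / 2) := by
      rw [← JJ_eq (by positivity) (by linarith)]
      congr 1
      nlinarith
    have ha : arcsin (√2 / 2) = π / 4 := by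
      rw [← Real.sin_pi_div_four]
      exact Real.arcsin_sin (by linarith) (by linarith)
    have hsq : √(1 - (√2 / 2 : ℝ) ^ 2) = √2 / 2 := by
      rw [show (1 - (√2 / 2 : ℝ) ^ 2) = (√2 / 2) ^ 2 by nlinarith, Real.sqrt_sq (by positivity)]
    have hv : G (√2 / 2) / (√2 / 2) = √2 / 4 + √2 * (3 * π / 32) := by
      rw [G, ha, hsq]
      field_simp
      nlinarith [h2]
    rw [h, hv]
    nlinarith [mul_lt_mul'' h2u hpi h20.le hpi0.le]
  · have h3 : √3 ^ 2 = 3 := Real.sq_sqrt (by norm_num)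
    have h30 : 0 < √3 := by positivity
    have h3u : √3 < 1732051 / 1000000 := by
      rw [Real.sqrt_lt' (by norm_num)]; norm_num
    have h3l : 1732050 / 1000000 < √3 := by
      rw [Real.lt_sqrt (by norm_num)]; norm_num
    have h : JJ (3 / 4) = G (√3 / 2) / (√3 / 2) := by
      rw [← JJ_eq (by positivity) (by linarith)]
      congr 1
      nlinarith
    have ha : arcsin (√3 / 2) = π / 3 := by
      rw [← Real.sin_pi_div_three]
      exact Real.arcsin_sin (by linarith) (by linarith)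
    have hsq : √(1 - (√3 / 2 : ℝ) ^ 2) = 1 / 2 := by
      rw [show (1 - (√3 / 2 : ℝ) ^ 2) = (1 / 2) ^ 2 by nlinarith, Real.sqrt_sq (by positivity)]
    have hv : G (√3 / 2) / (√3 / 2) = 7 / 32 + √3 * (π / 12) := by
      rw [G, ha, hsq]
      field_simp
      nlinarith [h3]
    rw [h, hv]
    nlinarith [mul_lt_mul'' h3u hpi h30.le hpi0.le]
  · have h : JJ 1 = G 1 / 1 := by
      rw [← JJ_eq (by norm_num) (by norm_num)]
      norm_num
    rw [h, G, Real.arcsin_one]
    norm_num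
    linarith

end Pool.Agent.Lib.MP_084b88_gt.PC
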