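import Pool.Agent.Lib.MP_084b88_gt.PC.Spec

/-!
# MP_084b88_gt, project PC: module PA1 (first half of the pair coupling)
-/

set_option autoImplicit false

open MeasureTheory Set Real Filter Topology
open scoped Pointwise InnerProductSpace

namespace Pool.Agent.Lib.MP_084b88_gt.PC

namespace PA1M

/-- Bounded continuous functions on the open interval are interval integrable. -/
theorem ii (g : ℝ → ℝ) (C : ℝ) (hc : ContinuousOn g (Ioo 0 1))
    (hb : ∀ x ∈ Ioo (0 : ℝ) 1, |g x| ≤ C) : IntervalIntegrable g volume 0 1 := by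
  rw [intervalIntegrable_iff_integrableOn_Ioo_of_le zero_le_one]
  refine Integrable.of_bound (hc.aestronglyMeasurable measurableSet_Ioo) C ?_
  exact (ae_restrict_iff' measurableSet_Ioo).2 (Eventually.of_forall fun x hx => by
      rw [Real.norm_eq_abs]; exact hb x hx)

section

variable {U : ℝ → ℝ}

/-- the even part -/
noncomputable def E (U : ℝ → ℝ) (x : ℝ) : ℝ := (U x + U (-x)) / 2

/-- `U 0 - E` -/
noncomputable def f (U : ℝ → ℝ) (x : ℝ) : ℝ := U 0 - E U x

/-- its primitive -/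
noncomputable def F (U : ℝ → ℝ) (x : ℝ) : ℝ := ∫ y in (0 : ℝ)..x, f U y

theorem chord (hU : ConcaveOn ℝ (Ioo (-1) 1) U) {x y z : ℝ} (hx : x ∈ Ioo (-1 : ℝ) 1)
    (hz : z ∈ Ioo (-1 : ℝ) 1) (hxy : x ≤ y) (hyz : y ≤ z) :
    (z - y) * U x + (y - x) * U z ≤ (z - x) * U y := by
  rcases hxy.eq_or_lt with h | h
  · subst h; ring_nf; rfl
  · have hxz : 0 < z - x := by linarith
    have ha : 0 ≤ (z - y) / (z - x) := div_nonneg (by linarith) hxz.le
    have hb : 0 ≤ (y - x) / (z - x) := div_nonneg (by linarith) hxz.le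
    have hab : (z - y) / (z - x) + (y - x) / (z - x) = 1 := by
      rw [← add_div, div_eq_one_iff_eq hxz.ne']; ring
    have h1 := hU.2 hx hz ha hb hab
    simp only [smul_eq_mul] at h1
    have e1 : (z - y) / (z - x) * x + (y - x) / (z - x) * z = y := by
      field_simp
      ring
    rw [e1] at h1
    have e2 : (z - y) / (z - x) * U x + (y - x) / (z - x) * U z =
        ((z - y) * U x + (y - x) * U z) / (z - x) := by ring
    rw [e2, div_le_iff₀ hxz] at h1
    linarith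

theorem concE (hU : ConcaveOn ℝ (Ioo (-1) 1) U) : ConcaveOn ℝ (Ioo (-1) 1) (E U) := by
  have h2 : ConcaveOn ℝ (Ioo (-1) 1) (fun x => U (-x)) := by
    refine ⟨convex_Ioo _ _, ?_⟩
    intro x hx y hy a b ha hb hab
    have hx' : -x ∈ Ioo (-1 : ℝ) 1 := ⟨by linarith [hx.2], by linarith [hx.1]⟩
    have hy' : -y ∈ Ioo (-1 : ℝ) 1 := ⟨by linarith [hy.2], by linarith [hy.1]⟩
    have := hU.2 hx' hy' ha hb hab
    simp only [smul_eq_mul] at this ⊢
    have e : -(a * x + b * y) = a * -x + b * -y := by ring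
    rw [e]
    exact this
  have h3 := (hU.add h2).smul (show (0 : ℝ) ≤ 1 / 2 by norm_num)
  refine h3.congr ?_
  intro x _
  simp only [E, Pi.add_apply, smul_eq_mul]
  ring

theorem epfE (hU : ConcaveOn ℝ (Ioo (-1) 1) U) (h0 : ∀ x ∈ Ioo (-1 : ℝ) 1, 0 ≤ U x + U (-x)) :
    EPF (E U) := by
  refine ⟨concE hU, ?_, ?_⟩
  · intro x
    simp only [E, neg_neg]
    ring
  · intro x hx
    have := h0 x hx
    simp only [E]
    linarith

theorem E0 : E U 0 = U 0 := by simp [E]

theorem f0 : f U 0 = 0 := by simp [f, E0]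

/-- basic facts on `f` on `[0,1)` -/
theorem f_mono (hEPB : SpecEPB) (hU : ConcaveOn ℝ (Ioo (-1) 1) U)
    (h0 : ∀ x ∈ Ioo (-1 : ℝ) 1, 0 ≤ U x + U (-x)) : MonotoneOn (f U) (Ico 0 1) := by
  have h := (hEPB _ (epfE hU h0)).1
  intro x hx y hy hxy
  have := h hx hy hxy
  simp only [f]
  linarith

theorem f_nonneg (hEPB : SpecEPB) (hU : ConcaveOn ℝ (Ioo (-1) 1) U)
    (h0 : ∀ x ∈ Ioo (-1 : ℝ) 1, 0 ≤ U x + U (-x)) {x : ℝ} (hx : x ∈ Ico (0 : ℝ) 1) : 0 ≤ f U x := by
  have := f_mono hEPB hU h0 (show (0 : ℝ) ∈ Ico (0 : ℝ) 1 by simp) hx hx.1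
  rwa [f0] at this

theorem f_cont (hEPB : SpecEPB) (hU : ConcaveOn ℝ (Ioo (-1) 1) U)
    (h0 : ∀ x ∈ Ioo (-1 : ℝ) 1, 0 ≤ U x + U (-x)) : ContinuousOn (f U) (Ioo (-1) 1) :=
  continuousOn_const.sub (hEPB _ (epfE hU h0)).2.2.1

theorem f_ii (hEPB : SpecEPB) (hU : ConcaveOn ℝ (Ioo (-1) 1) U)
    (h0 : ∀ x ∈ Ioo (-1 : ℝ) 1, 0 ≤ U x + U (-x)) {x y : ℝ} (hx : x ∈ Ioo (-1 : ℝ) 1)
    (hy : y ∈ Ioo (-1 : ℝ) 1) : IntervalIntegrable (f U) volume x y := by
  apply ContinuousOn.intervalIntegrable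
  apply (f_cont hEPB hU h0).mono
  intro z hz
  rcases le_total x y with h | h
  · rw [uIcc_of_le h] at hz
    exact ⟨lt_of_lt_of_le hx.1 hz.1, lt_of_le_of_lt hz.2 hy.2⟩
  · rw [uIcc_of_ge h] at hz
    exact ⟨lt_of_lt_of_le hy.1 hz.1, lt_of_le_of_lt hz.2 hx.2⟩

/-- `F x ≤ x f x` -/
theorem F_le (hEPB : SpecEPB) (hU : ConcaveOn ℝ (Ioo (-1) 1) U)
    (h0 : ∀ x ∈ Ioo (-1 : ℝ) 1, 0 ≤ U x + U (-x)) {x : ℝ} (hx : x ∈ Ico (0 : ℝ) 1) :
    F U x ≤ x * f U x := by
  have h1 : F U x ≤ ∫ _y in (0 : ℝ)..x, f U x := by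
    apply intervalIntegral.integral_mono_on hx.1
    · exact f_ii hEPB hU h0 (by norm_num) ⟨by linarith [hx.1], hx.2⟩
    · exact intervalIntegrable_const
    · intro y hy
      exact f_mono hEPB hU h0 ⟨hy.1, lt_of_le_of_lt hy.2 hx.2⟩ hx hy.2
  rw [intervalIntegral.integral_const, smul_eq_mul, sub_zero] at h1
  exact h1

theorem F_nonneg (hEPB : SpecEPB) (hU : ConcaveOn ℝ (Ioo (-1) 1) U)
    (h0 : ∀ x ∈ Ioo (-1 : ℝ) 1, 0 ≤ U x + U (-x)) {x : ℝ} (hx : x ∈ Ico (0 : ℝ) 1) :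
    0 ≤ F U x := by
  apply intervalIntegral.integral_nonneg hx.1
  intro y hy
  exact f_nonneg hEPB hU h0 ⟨hy.1, lt_of_le_of_lt hy.2 hx.2⟩

/-- trapezoid rule -/
theorem trap (hEPB : SpecEPB) (hU : ConcaveOn ℝ (Ioo (-1) 1) U)
    (h0 : ∀ x ∈ Ioo (-1 : ℝ) 1, 0 ≤ U x + U (-x)) {p x : ℝ} (hp : 0 ≤ p) (hpx : p ≤ x)
    (hx : x < 1) : 2 * (∫ y in p..x, f U y) ≤ (x - p) * (f U p + f U x) := by
  rcases hpx.eq_or_lt with h | h
  · subst h; simp
  have hpI : p ∈ Ioo (-1 : ℝ) 1 := ⟨by linarith, by linarith⟩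
  have hxI : x ∈ Ioo (-1 : ℝ) 1 := ⟨by linarith, hx⟩
  have hd : 0 < x - p := by linarith
  have h1 : (∫ y in p..x, f U y) ≤ ∫ y in p..x, (f U p + (f U x - f U p) / (x - p) * (y - p)) := by
    apply intervalIntegral.integral_mono_on hpx
    · exact f_ii hEPB hU h0 hpI hxI
    · exact (Continuous.intervalIntegrable (by fun_prop) _ _)
    · intro y hy
      have hc := chord (concE hU) hpI hxI hy.1 hy.2
      have e : f U p + (f U x - f U p) / (x - p) * (y - p) =
          ((x - y) * f U p + (y - p) * f U x) / (x - p) := by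
        field_simp
        ring
      rw [e, le_div_iff₀ hd]
      simp only [f]
      nlinarith
  have h2 : (∫ y in p..x, (f U p + (f U x - f U p) / (x - p) * (y - p))) =
      (x - p) * (f U p + f U x) / 2 := by
    rw [intervalIntegral.integral_add (by simp) (Continuous.intervalIntegrable (by fun_prop) _ _),
      intervalIntegral.integral_const, intervalIntegral.integral_const_mul,
      intervalIntegral.integral_sub (by simp) (by simp), integral_id,
      intervalIntegral.integral_const]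
    simp only [smul_eq_mul]
    field_simp
    ring
  rw [h2] at h1
  linarith

/-- second pointwise bound -/
theorem F_le2 (hEPB : SpecEPB) (hU : ConcaveOn ℝ (Ioo (-1) 1) U)
    (h0 : ∀ x ∈ Ioo (-1 : ℝ) 1, 0 ≤ U x + U (-x)) {p x : ℝ} (hp : 0 < p) (hpx : p ≤ x)
    (hx : x < 1) : 2 * F U x ≤ (x - p) * f U x + 2 * x * f U p := by
  have hpI : p ∈ Ioo (-1 : ℝ) 1 := ⟨by linarith, by linarith⟩
  have hxI : x ∈ Ioo (-1 : ℝ) 1 := ⟨by linarith, hx⟩
  have h1 : F U x = F U p + ∫ y in p..x, f U y := by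
    unfold F
    rw [intervalIntegral.integral_add_adjacent_intervals
      (f_ii hEPB hU h0 (by norm_num) hpI) (f_ii hEPB hU h0 hpI hxI)]
  have h2 := F_le hEPB hU h0 (x := p) ⟨hp.le, by linarith⟩
  have h3 := trap hEPB hU h0 hp.le hpx hx
  have h4 := f_nonneg hEPB hU h0 (x := p) ⟨hp.le, by linarith⟩
  rw [h1]
  nlinarith

end

end PA1M

open PA1M in
/-- **PA1**. -/
theorem specPA1 (hEPB : SpecEPB) : SpecPA1 := by
  intro U C hU hC h0 hint p hp
  have hE := epfE hU h0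
  obtain ⟨-, hE2, hE3, -, -⟩ := hEPB _ hE
  have hpI : p ∈ Ioo (-1 : ℝ) 1 := ⟨by linarith [hp.1], hp.2⟩
  have h0I : (0 : ℝ) ∈ Ioo (-1 : ℝ) 1 := by norm_num
  have hC0 : 0 ≤ C := (abs_nonneg _).trans (hC 0 h0I)
  -- pointwise inequality
  have key : ∀ x ∈ Ioo (0 : ℝ) 1, (U p - U 0) * x ≤
      p * ((U x - U (-x)) / 2) + (x * f U x - 2 * F U x) := by
    intro x hx
    have hxI : x ∈ Ioo (-1 : ℝ) 1 := ⟨by linarith [hx.1], hx.2⟩
    have hxI' : -x ∈ Ioo (-1 : ℝ) 1 := ⟨by linarith [hx.2], by linarith [hx.1]⟩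
    have hpI' : -p ∈ Ioo (-1 : ℝ) 1 := ⟨by linarith [hp.2], by linarith [hp.1]⟩
    rcases le_total x p with h | h
    · have h1 := chord hU h0I hpI hx.1.le h
      have h2 := F_le hEPB hU h0 (x := x) ⟨hx.1.le, hx.2⟩
      have h3 := f_nonneg hEPB hU h0 (x := x) ⟨hx.1.le, hx.2⟩
      have h4 : f U x = U 0 - (U x + U (-x)) / 2 := rfl
      have h5 : (p - x) * f U x ≥ 0 := mul_nonneg (by linarith) h3
      have hx0 := hx.1
      have e : p * ((U x - U (-x)) / 2) = p * (U x - U 0) + p * f U x := by rw [h4]; ring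
      rw [e]
      nlinarith
    · have h1 := chord hU hxI' h0I (y := -p) (by linarith) (by linarith [hp.1])
      have h2 := F_le2 hEPB hU h0 hp.1 h hx.2
      have h4 : f U x = U 0 - (U x + U (-x)) / 2 := rfl
      have h5 : f U p = U 0 - (U p + U (-p)) / 2 := rfl
      have e : p * ((U x - U (-x)) / 2) = p * (U 0 - f U x) - p * U (-x) := by rw [h4]; ring
      rw [e]
      have e2 : U (-p) = 2 * (U 0 - f U p) - U p := by rw [h5]; ring
      rw [e2] at h1
      nlinarith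
  -- continuity and bounds
  have hUc : ContinuousOn U (Ioo (-1) 1) := hU.continuousOn isOpen_Ioo
  have hUc1 : ContinuousOn U (Ioo 0 1) := hUc.mono (by
    intro x hx; exact ⟨by linarith [hx.1], hx.2⟩)
  have hUc2 : ContinuousOn (fun x => U (-x)) (Ioo 0 1) :=
    hUc.comp continuousOn_neg (by intro x hx; exact ⟨by linarith [hx.2], by linarith [hx.1]⟩)
  have hEc : ContinuousOn (E U) (Ioo 0 1) := by
    unfold E
    exact (hUc1.add hUc2).div_const 2
  have hfc : ContinuousOn (f U) (Ioo 0 1) := continuousOn_const.sub hEc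
  have hFc : ContinuousOn (F U) (Ioo 0 1) := by
    intro x hx
    apply ContinuousAt.continuousWithinAt
    have hxI : x ∈ Ioo (-1 : ℝ) 1 := ⟨by linarith [hx.1], hx.2⟩
    have h1 : HasDerivAt (F U) (f U x) x := by
      apply intervalIntegral.integral_hasDerivAt_right (f_ii hEPB hU h0 h0I hxI)
      · exact ContinuousOn.stronglyMeasurableAtFilter isOpen_Ioo (f_cont hEPB hU h0) x hxI
      · exact (f_cont hEPB hU h0).continuousAt (isOpen_Ioo.mem_nhds hxI)
    exact h1.continuousAt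
  have hEb : ∀ x ∈ Ioo (0 : ℝ) 1, |E U x| ≤ C := by
    intro x hx
    have h1 := hC x ⟨by linarith [hx.1], hx.2⟩
    have h2 := hC (-x) ⟨by linarith [hx.2], by linarith [hx.1]⟩
    unfold E
    rw [abs_le] at h1 h2 ⊢
    constructor <;> linarith [h1.1, h1.2, h2.1, h2.2]
  have hob : ∀ x ∈ Ioo (0 : ℝ) 1, |(U x - U (-x)) / 2| ≤ C := by
    intro x hx
    have h1 := hC x ⟨by linarith [hx.1], hx.2⟩
    have h2 := hC (-x) ⟨by linarith [hx.2], by linarith [hx.1]⟩
    rw [abs_le] at h1 h2 ⊢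
    constructor <;> linarith [h1.1, h1.2, h2.1, h2.2]
  have hfb : ∀ x ∈ Ioo (0 : ℝ) 1, 0 ≤ f U x ∧ f U x ≤ 2 * C := by
    intro x hx
    refine ⟨f_nonneg hEPB hU h0 ⟨hx.1.le, hx.2⟩, ?_⟩
    have h1 := (abs_le.1 (hEb x hx)).1
    have h2 := (abs_le.1 (hC 0 h0I)).2
    unfold f
    linarith
  have hFb : ∀ x ∈ Ioo (0 : ℝ) 1, 0 ≤ F U x ∧ F U x ≤ 2 * C := by
    intro x hx
    refine ⟨F_nonneg hEPB hU h0 ⟨hx.1.le, hx.2⟩, ?_⟩
    have h1 := F_le hEPB hU h0 (x := x) ⟨hx.1.le, hx.2⟩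
    have h2 := hfb x hx
    have h3 : x * f U x ≤ 1 * f U x := mul_le_mul_of_nonneg_right hx.2.le h2.1
    linarith [h2.2]
  have hEn : ∀ x ∈ Ioo (0 : ℝ) 1, 0 ≤ E U x := fun x hx =>
    hE.nn x ⟨by linarith [hx.1], hx.2⟩
  -- integrability
  have i1 : IntervalIntegrable (fun x => x * E U x * ((U x - U (-x)) / 2)) volume 0 1 := by
    apply ii _ (C * C)
    · exact (continuousOn_id.mul hEc).mul ((hUc1.sub hUc2).div_const 2)
    · intro x hx
      rw [abs_mul, abs_mul]
      have hx1 : |x| ≤ 1 := by rw [abs_of_pos hx.1]; exact hx.2.le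
      calc |x| * |E U x| * |(U x - U (-x)) / 2| ≤ 1 * C * C := by
            gcongr
            · exact hEb x hx
            · exact hob x hx
        _ = C * C := by ring
  have i2 : IntervalIntegrable (fun x => x ^ 2 * E U x) volume 0 1 := by
    apply ii _ C
    · exact (continuousOn_pow 2).mul hEc
    · intro x hx
      rw [abs_mul]
      have hx1 : |x ^ 2| ≤ 1 := by
        rw [abs_of_nonneg (sq_nonneg x)]
        nlinarith [hx.1, hx.2]
      calc |x ^ 2| * |E U x| ≤ 1 * C := by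
            gcongr
            exact hEb x hx
        _ = C := one_mul C
  have i3 : IntervalIntegrable (fun x => x * E U x * (x * f U x - 2 * F U x)) volume 0 1 := by
    apply ii _ (C * (6 * C))
    · exact (continuousOn_id.mul hEc).mul ((continuousOn_id.mul hfc).sub (continuousOn_const.mul hFc))
    · intro x hx
      rw [abs_mul, abs_mul]
      have hx1 : |x| ≤ 1 := by rw [abs_of_pos hx.1]; exact hx.2.le
      have h1 := hfb x hx
      have h2 := hFb x hx
      have h3 : |x * f U x - 2 * F U x| ≤ 6 * C := by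
        have h4 : x * f U x ≤ 1 * f U x := mul_le_mul_of_nonneg_right hx.2.le h1.1
        have h5 : 0 ≤ x * f U x := mul_nonneg hx.1.le h1.1
        rw [abs_le]
        constructor <;> linarith [h1.2, h2.1, h2.2]
      calc |x| * |E U x| * |x * f U x - 2 * F U x| ≤ 1 * C * (6 * C) := by
            gcongr
            exact hEb x hx
        _ = C * (6 * C) := by ring
  -- the vanishing integral
  have hz : (∫ x in (0 : ℝ)..1, x * E U x * ((U x - U (-x)) / 2)) = 0 := by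
    have e : ∀ x, x * E U x * ((U x - U (-x)) / 2) = (1 / 4) * (x * (U x ^ 2 - U (-x) ^ 2)) := by
      intro x; unfold E; ring
    simp only [e]
    rw [intervalIntegral.integral_const_mul, hint, mul_zero]
  have hfin : 0 ≤ ∫ x in (0 : ℝ)..1, (p * (x * E U x * ((U x - U (-x)) / 2)) +
      x * E U x * (x * f U x - 2 * F U x) - (U p - U 0) * (x ^ 2 * E U x)) := by
    rw [intervalIntegral.integral_of_le zero_le_one, integral_Ioc_eq_integral_Ioo]
    apply setIntegral_nonneg measurableSet_Ioo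
    intro x hx
    have h1 := key x hx
    have h2 : 0 ≤ x * E U x := mul_nonneg hx.1.le (hEn x hx)
    have h3 := mul_nonneg h2 (sub_nonneg.2 h1)
    have e : x * E U x * (p * ((U x - U (-x)) / 2) + (x * f U x - 2 * F U x) - (U p - U 0) * x) =
        p * (x * E U x * ((U x - U (-x)) / 2)) +
      x * E U x * (x * f U x - 2 * F U x) - (U p - U 0) * (x ^ 2 * E U x) := by ring
    rw [e] at h3
    exact h3
  rw [intervalIntegral.integral_sub ((i1.const_mul p).add i3) (i2.const_mul _),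
    intervalIntegral.integral_add (i1.const_mul p) i3, intervalIntegral.integral_const_mul,
    intervalIntegral.integral_const_mul, hz, mul_zero, zero_add] at hfin
  change (U p - U 0) * (∫ x in (0 : ℝ)..1, x ^ 2 * E U x) ≤
    ∫ x in (0 : ℝ)..1, x * E U x * (x * f U x - 2 * F U x)
  linarith

end Pool.Agent.Lib.MP_084b88_gt.PC
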