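import Pool.Agent.Lib.MP_084b88_gt.PC.Spec

/-!
# MP_084b88_gt, project PC, module PA2: pair coupling for functions (helper28)
-/

set_option autoImplicit false

open MeasureTheory Set Real Filter Topology
open scoped Pointwise InnerProductSpace

namespace Pool.Agent.Lib.MP_084b88_gt.PC

open Pool.Agent.Lib.MP_084b88_gt.CW

namespace PA2M

theorem neg_mem_Ioo {x : ℝ} (h : x ∈ Ioo (-1 : ℝ) 1) : -x ∈ Ioo (-1 : ℝ) 1 :=
  ⟨by linarith [h.2], by linarith [h.1]⟩

theorem conc_neg {U : ℝ → ℝ} (h : ConcaveOn ℝ (Ioo (-1) 1) U) :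
    ConcaveOn ℝ (Ioo (-1) 1) (fun x => U (-x)) := by
  refine ⟨h.1, ?_⟩
  intro x hx y hy a b ha hb hab
  have h1 := h.2 (neg_mem_Ioo hx) (neg_mem_Ioo hy) ha hb hab
  have h2 : a • -x + b • -y = -(a • x + b • y) := by
    simp only [smul_eq_mul]
    ring
  rw [h2] at h1
  exact h1

theorem epf {U : ℝ → ℝ} (h : ConcaveOn ℝ (Ioo (-1) 1) U)
    (hs : ∀ x ∈ Ioo (-1 : ℝ) 1, 0 ≤ U x + U (-x)) : EPF (fun x => (U x + U (-x)) / 2) := by
  refine ⟨?_, ?_, ?_⟩
  · have h1 := (h.add (conc_neg h)).smul (c := (1 / 2 : ℝ)) (by norm_num)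
    refine h1.congr ?_
    intro x _
    simp only [Pi.add_apply, smul_eq_mul]
    ring
  · intro x
    change (U (-x) + U (- -x)) / 2 = (U x + U (-x)) / 2
    rw [neg_neg, add_comm]
  · intro x hx
    have := hs x hx
    change 0 ≤ (U x + U (-x)) / 2
    linarith

/-- slopes of a convex function with `f 0 = 0` -/
theorem slope {f : ℝ → ℝ} (hf : ConvexOn ℝ (Ioo (-1) 1) f) {x y t : ℝ}
    (hx : 0 < x) (hxy : x < y) (hy : y < 1) (ht0 : 0 ≤ t) (ht1 : t ≤ 1) :
    f (y * t) - f (x * t) ≤ t * (f y - f x) := by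
  rcases eq_or_lt_of_le ht0 with h0 | h0
  · rw [← h0, mul_zero, mul_zero, sub_self, zero_mul]
  have hxt : 0 < x * t := mul_pos hx h0
  have hxt1 : x * t ≤ x := mul_le_of_le_one_right hx.le ht1
  have hyt1 : y * t ≤ y := mul_le_of_le_one_right (by linarith) ht1
  have hlt : x * t < y * t := mul_lt_mul_of_pos_right hxy h0
  have m1 : x * t ∈ Ioo (-1 : ℝ) 1 := ⟨by linarith, by linarith⟩
  have m2 : y * t ∈ Ioo (-1 : ℝ) 1 := ⟨by linarith, by linarith⟩
  have m3 : y ∈ Ioo (-1 : ℝ) 1 := ⟨by linarith, by linarith⟩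
  have m4 : x ∈ Ioo (-1 : ℝ) 1 := ⟨by linarith, by linarith⟩
  have s1 := hf.secant_mono m1 m2 m3 hlt.ne' (by linarith : y ≠ x * t) hyt1
  have s2 := hf.secant_mono m3 m1 m4 (by linarith : x * t ≠ y) hxy.ne hxt1
  have s3 : (f (x * t) - f y) / (x * t - y) = (f y - f (x * t)) / (y - x * t) := by
    rw [← neg_div_neg_eq, neg_sub, neg_sub]
  have s4 : (f x - f y) / (x - y) = (f y - f x) / (y - x) := by
    rw [← neg_div_neg_eq, neg_sub, neg_sub]
  rw [s3, s4] at s2
  have s5 := s1.trans s2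
  have h5 : 0 < y * t - x * t := by linarith
  rw [div_le_iff₀ h5] at s5
  have h6 : (f y - f x) / (y - x) * (y * t - x * t) = t * (f y - f x) := by
    have h7 : y - x ≠ 0 := by linarith
    field_simp
  rw [h6] at s5
  exact s5

theorem core (hPA1 : SpecPA1) (hCHE : SpecCHE) (hEPB : SpecEPB) (U : ℝ → ℝ) (C : ℝ)
    (hU : ConcaveOn ℝ (Ioo (-1) 1) U) (hC : ∀ x ∈ Ioo (-1 : ℝ) 1, |U x| ≤ C)
    (hs : ∀ x ∈ Ioo (-1 : ℝ) 1, 0 ≤ U x + U (-x)) (h0 : 0 < U 0)
    (hI : (∫ x in (0 : ℝ)..1, x * (U x ^ 2 - U (-x) ^ 2)) = 0) (p : ℝ) (hp : p ∈ Ioo (0 : ℝ) 1) :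
    U p ≤ ∫ x in (0 : ℝ)..1, (3 - 6 * x ^ 2) * ((U x + U (-x)) / 2) := by
  set e : ℝ → ℝ := fun x => (U x + U (-x)) / 2 with he
  have hE : EPF e := epf hU hs
  obtain ⟨hanti, hle0, hcont, hint, h5, -, -⟩ := hEPB e hE
  have he0 : e 0 = U 0 := by
    rw [he]
    simp
  set f : ℝ → ℝ := fun x => U 0 - e x with hf
  have hfc : ContinuousOn f (Ioo (-1) 1) := continuousOn_const.sub hcont
  have hfv : ConvexOn ℝ (Ioo (-1) 1) f := (convexOn_const (U 0) hU.1).sub hE.conc
  have hfi : IntervalIntegrable f volume 0 1 := hint (fun z => U 0 - z.2) (by fun_prop)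
  have hei : IntervalIntegrable e volume 0 1 := hint (fun z => z.2) (by fun_prop)
  have hx2e : IntervalIntegrable (fun x => x ^ 2 * e x) volume 0 1 :=
    hint (fun z => z.1 ^ 2 * z.2) (by fun_prop)
  have hx2f : IntervalIntegrable (fun x => x ^ 2 * f x) volume 0 1 :=
    hint (fun z => z.1 ^ 2 * (U 0 - z.2)) (by fun_prop)
  have hfb : ∀ x ∈ Ioo (-1 : ℝ) 1, 0 ≤ f x ∧ f x ≤ U 0 := by
    intro x hx
    have h1 := hle0 x hx
    have h2 := hE.nn x hx
    rw [he0] at h1
    exact ⟨by change 0 ≤ U 0 - e x; linarith, by change U 0 - e x ≤ U 0; linarith⟩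
  set F : ℝ → ℝ := fun x => ∫ y in (0 : ℝ)..x, f y with hF
  -- the average
  have hav : ∀ x ∈ Ioo (0 : ℝ) 1, F x / x = ∫ t in (0 : ℝ)..1, f (x * t) := by
    intro x hx
    rw [intervalIntegral.integral_comp_mul_left f hx.1.ne', mul_zero, mul_one, smul_eq_mul,
      div_eq_inv_mul]
  have hmem : ∀ x ∈ Ioo (0 : ℝ) 1, ∀ t ∈ Icc (0 : ℝ) 1, x * t ∈ Ioo (-1 : ℝ) 1 := by
    intro x hx t ht
    have h1 : 0 ≤ x * t := mul_nonneg hx.1.le ht.1
    have h2 : x * t ≤ x := mul_le_of_le_one_right hx.1.le ht.2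
    exact ⟨by linarith, by linarith [hx.2]⟩
  have hci : ∀ x ∈ Ioo (0 : ℝ) 1, IntervalIntegrable (fun t => f (x * t)) volume 0 1 := by
    intro x hx
    refine ContinuousOn.intervalIntegrable ?_
    rw [uIcc_of_le (zero_le_one' ℝ)]
    exact hfc.comp (by fun_prop) (fun t ht => hmem x hx t ht)
  have havb : ∀ x ∈ Ioo (0 : ℝ) 1, 0 ≤ F x / x ∧ F x / x ≤ U 0 := by
    intro x hx
    rw [hav x hx]
    constructor
    · exact intervalIntegral.integral_nonneg (zero_le_one' ℝ) fun t ht => (hfb _ (hmem x hx t ht)).1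
    · have h1 := intervalIntegral.integral_mono_on (zero_le_one' ℝ) (hci x hx)
        (intervalIntegrable_const (c := U 0)) (fun t ht =>
          (hfb _ (hmem x hx t ht)).2)
      rw [intervalIntegral.integral_const, sub_zero, one_smul] at h1
      exact h1
  set g : ℝ → ℝ := fun x => f x - 2 * (F x / x) with hg
  have hgm : MonotoneOn g (Ioo 0 1) := by
    intro x hx y hy hxy
    rcases eq_or_lt_of_le hxy with h | h
    · rw [h]
    · change f x - 2 * (F x / x) ≤ f y - 2 * (F y / y)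
      rw [hav x hx, hav y hy]
      have h1 : (∫ t in (0 : ℝ)..1, f (y * t)) - ∫ t in (0 : ℝ)..1, f (x * t) ≤
          ∫ t in (0 : ℝ)..1, t * (f y - f x) := by
        rw [← intervalIntegral.integral_sub (hci y hy) (hci x hx)]
        refine intervalIntegral.integral_mono_on (zero_le_one' ℝ) ((hci y hy).sub (hci x hx))
          (Continuous.intervalIntegrable (by fun_prop) _ _) fun t ht => ?_
        exact slope hfv hx.1 h hy.2 ht.1 ht.2
      have h2 : ∫ t in (0 : ℝ)..1, t * (f y - f x) = (f y - f x) / 2 := by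
        rw [intervalIntegral.integral_mul_const, integral_id]
        ring
      rw [h2] at h1
      linarith
  have hea : AntitoneOn e (Ioo 0 1) := hanti.mono Ioo_subset_Ico_self
  have hche := hCHE e g (3 * U 0) hea hgm (by
      intro x hx
      have hx' : x ∈ Ioo (-1 : ℝ) 1 := ⟨by linarith [hx.1], hx.2⟩
      have h1 := hle0 x hx'
      have h2 := hE.nn x hx'
      rw [he0] at h1
      rw [abs_of_nonneg h2]
      linarith) (by
      intro x hx
      have hx' : x ∈ Ioo (-1 : ℝ) 1 := ⟨by linarith [hx.1], hx.2⟩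
      have h1 := hfb x hx'
      have h2 := havb x hx
      change |f x - 2 * (F x / x)| ≤ 3 * U 0
      rw [abs_le]
      constructor <;> linarith [h1.1, h1.2, h2.1, h2.2])
  have hpa := hPA1 U C hU hC hs hI p hp
  have e1 : (∫ x in (0 : ℝ)..1, x * ((U x + U (-x)) / 2) * (x * (U 0 - (U x + U (-x)) / 2) -
      2 * ∫ y in (0 : ℝ)..x, (U 0 - (U y + U (-y)) / 2))) =
      ∫ x in (0 : ℝ)..1, x ^ 2 * (e x * g x) := by
    refine intervalIntegral.integral_congr fun x _ => ?_
    change x * e x * (x * f x - 2 * F x) = x ^ 2 * (e x * (f x - 2 * (F x / x)))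
    rcases eq_or_ne x 0 with h | h
    · rw [h]
      ring
    · field_simp
  rw [e1] at hpa
  have hm2 : 0 < ∫ x in (0 : ℝ)..1, x ^ 2 * e x := by
    have h1 : ∫ x in (0 : ℝ)..1, x ^ 2 * (U 0 * (1 - x)) ≤ ∫ x in (0 : ℝ)..1, x ^ 2 * e x := by
      refine intervalIntegral.integral_mono_on_of_le_Ioo (zero_le_one' ℝ)
        (Continuous.intervalIntegrable (by fun_prop) _ _) hx2e fun x hx => ?_
      have h2 := h5 0 x le_rfl hx.1.le hx.2
      rw [he0, sub_zero, mul_one] at h2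
      exact mul_le_mul_of_nonneg_left h2 (sq_nonneg x)
    have h2 : ∫ x in (0 : ℝ)..1, x ^ 2 * (U 0 * (1 - x)) = U 0 / 12 := by
      have h3 : ∀ x : ℝ, x ^ 2 * (U 0 * (1 - x)) = U 0 * x ^ 2 - U 0 * x ^ 3 := fun x => by ring
      simp only [h3]
      rw [intervalIntegral.integral_sub (Continuous.intervalIntegrable (by fun_prop) _ _)
        (Continuous.intervalIntegrable (by fun_prop) _ _), intervalIntegral.integral_const_mul,
        intervalIntegral.integral_const_mul, integral_pow, integral_pow]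
      norm_num
      ring
    rw [h2] at h1
    have : 0 < U 0 / 12 := by positivity
    linarith
  have e2 : U p - U 0 ≤ 3 * ∫ x in (0 : ℝ)..1, x ^ 2 * g x := by
    have h1 := hpa.trans hche
    have h2 : 3 * (∫ x in (0 : ℝ)..1, x ^ 2 * e x) * (∫ x in (0 : ℝ)..1, x ^ 2 * g x) =
        (3 * ∫ x in (0 : ℝ)..1, x ^ 2 * g x) * (∫ x in (0 : ℝ)..1, x ^ 2 * e x) := by ring
    rw [h2] at h1
    exact le_of_mul_le_mul_right h1 hm2
  -- integration by parts
  have hFc : ContinuousOn F (Icc 0 1) := by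
    have h1 := intervalIntegral.continuousOn_primitive_interval' hfi left_mem_uIcc
    rw [uIcc_of_le (zero_le_one' ℝ)] at h1
    exact h1
  have hxF : IntervalIntegrable (fun x => 2 * x * F x) volume 0 1 := by
    refine ContinuousOn.intervalIntegrable ?_
    rw [uIcc_of_le (zero_le_one' ℝ)]
    exact ContinuousOn.mul (by fun_prop) hFc
  have hderiv : ∀ x ∈ Ioo (0 : ℝ) 1, HasDerivAt (fun x => x ^ 2 * F x)
      (2 * x * F x + x ^ 2 * f x) x := by
    intro x hx
    have hx' : x ∈ Ioo (-1 : ℝ) 1 := ⟨by linarith [hx.1], hx.2⟩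
    have h1 : IntervalIntegrable f volume 0 x := by
      refine ContinuousOn.intervalIntegrable (hfc.mono ?_)
      rw [uIcc_of_le hx.1.le]
      intro t ht
      exact ⟨by linarith [ht.1], by linarith [ht.2, hx.2]⟩
    have h2 : HasDerivAt F (f x) x :=
      intervalIntegral.integral_hasDerivAt_right h1
        (hfc.stronglyMeasurableAtFilter isOpen_Ioo x hx')
        (hfc.continuousAt (isOpen_Ioo.mem_nhds hx'))
    have h3 := (hasDerivAt_pow 2 x).mul h2
    refine h3.congr_deriv ?_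
    norm_num
  have e3 : ∫ x in (0 : ℝ)..1, (2 * x * F x + x ^ 2 * f x) = F 1 := by
    rw [intervalIntegral.integral_eq_sub_of_hasDerivAt_of_le (zero_le_one' ℝ)
      (ContinuousOn.mul (by fun_prop) hFc) hderiv (hxF.add hx2f)]
    simp
  rw [intervalIntegral.integral_add hxF hx2f] at e3
  have e4 : ∫ x in (0 : ℝ)..1, x ^ 2 * g x =
      (∫ x in (0 : ℝ)..1, x ^ 2 * f x) - ∫ x in (0 : ℝ)..1, 2 * x * F x := by
    rw [← intervalIntegral.integral_sub hx2f hxF]
    refine intervalIntegral.integral_congr fun x _ => ?_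
    change x ^ 2 * (f x - 2 * (F x / x)) = x ^ 2 * f x - 2 * x * F x
    rcases eq_or_ne x 0 with h | h
    · rw [h]
      ring
    · field_simp
  have e5 : F 1 = U 0 - ∫ x in (0 : ℝ)..1, e x := by
    change ∫ y in (0 : ℝ)..1, (U 0 - e y) = _
    rw [intervalIntegral.integral_sub intervalIntegrable_const hei,
      intervalIntegral.integral_const, sub_zero, one_smul]
  have e6 : ∫ x in (0 : ℝ)..1, x ^ 2 * f x = U 0 / 3 - ∫ x in (0 : ℝ)..1, x ^ 2 * e x := by
    have h1 : ∀ x : ℝ, x ^ 2 * f x = U 0 * x ^ 2 - x ^ 2 * e x := fun x => by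
      change x ^ 2 * (U 0 - e x) = _
      ring
    simp only [h1]
    rw [intervalIntegral.integral_sub (Continuous.intervalIntegrable (by fun_prop) _ _) hx2e,
      intervalIntegral.integral_const_mul, integral_pow]
    norm_num
    ring
  have e7 : ∫ x in (0 : ℝ)..1, (3 - 6 * x ^ 2) * e x =
      3 * (∫ x in (0 : ℝ)..1, e x) - 6 * ∫ x in (0 : ℝ)..1, x ^ 2 * e x := by
    have h1 : ∀ x : ℝ, (3 - 6 * x ^ 2) * e x = 3 * e x - 6 * (x ^ 2 * e x) := fun x => by ring
    simp only [h1]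
    rw [intervalIntegral.integral_sub (hei.const_mul 3) (hx2e.const_mul 6),
      intervalIntegral.integral_const_mul, intervalIntegral.integral_const_mul]
  change U p ≤ ∫ x in (0 : ℝ)..1, (3 - 6 * x ^ 2) * e x
  rw [e7]
  linarith

end PA2M

open PA2M

/-- PA2. -/
theorem specPA2 (hPA1 : SpecPA1) (hCHE : SpecCHE) (hEPB : SpecEPB) : SpecPA2 := by
  intro U C hU hC hs h0 hI p hp
  rcases lt_trichotomy p 0 with h | h | h
  · have h1 := core hPA1 hCHE hEPB (fun x => U (-x)) C (conc_neg hU)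
      (fun x hx => hC _ (neg_mem_Ioo hx)) (fun x hx => by
        have := hs x hx
        change 0 ≤ U (-x) + U (- -x)
        rw [neg_neg]
        linarith) (by
        change 0 < U (-0)
        rw [neg_zero]
        exact h0) (by
        have h2 : ∀ x : ℝ, x * (U (-x) ^ 2 - U (- -x) ^ 2) =
            -(x * (U x ^ 2 - U (-x) ^ 2)) := fun x => by
          rw [neg_neg]
          ring
        simp only [h2]
        rw [intervalIntegral.integral_neg, hI, neg_zero]) (-p) ⟨by linarith, by linarith [hp.1]⟩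
    simp only [neg_neg] at h1
    refine h1.trans (le_of_eq ?_)
    refine intervalIntegral.integral_congr fun x _ => ?_
    change (3 - 6 * x ^ 2) * ((U (-x) + U x) / 2) = (3 - 6 * x ^ 2) * ((U x + U (-x)) / 2)
    rw [add_comm (U (-x))]
  · subst h
    have hc : ContinuousOn U (Ioo (-1) 1) := hU.continuousOn isOpen_Ioo
    have hc0 : ContinuousAt U 0 := hc.continuousAt (isOpen_Ioo.mem_nhds hp)
    have h1 : Tendsto U (𝓝[>] (0 : ℝ)) (𝓝 (U 0)) := hc0.tendsto.mono_left nhdsWithin_le_nhds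
    refine le_of_tendsto h1 ?_
    have h2 : Ioo (0 : ℝ) 1 ∈ 𝓝[>] (0 : ℝ) := Ioo_mem_nhdsGT one_pos
    filter_upwards [h2] with x hx
    exact core hPA1 hCHE hEPB U C hU hC hs h0 hI x hx
  · exact core hPA1 hCHE hEPB U C hU hC hs h0 hI p ⟨h, hp.2⟩

end Pool.Agent.Lib.MP_084b88_gt.PC
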