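import Pool.Agent.Lib.MP_084b88_gt.PC.Spec

/-!
# PCB: facts on isotropic symmetric planar bodies
-/

set_option autoImplicit false

open MeasureTheory Set Real Filter Topology
open scoped Pointwise InnerProductSpace

namespace Pool.Agent.Lib.MP_084b88_gt.PC

open Pool.Agent.Lib.MP_084b88_gt.CW

namespace PCBM

theorem even_int (g : ℝ → ℝ) (hg : IntervalIntegrable g volume (-1) 1) (he : ∀ x, g (-x) = g x) :
    IntervalIntegrable g volume 0 1 ∧
    ∫ x in (-1 : ℝ)..1, g x = 2 * ∫ x in (0 : ℝ)..1, g x := by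
  have h1 : IntervalIntegrable g volume (-1) 0 :=
    hg.mono_set (by
      rw [uIcc_of_le (by norm_num), uIcc_of_le (by norm_num)]
      exact Icc_subset_Icc le_rfl (by norm_num))
  have h2 : IntervalIntegrable g volume 0 1 :=
    hg.mono_set (by
      rw [uIcc_of_le (by norm_num), uIcc_of_le (by norm_num)]
      exact Icc_subset_Icc (by norm_num) le_rfl)
  refine ⟨h2, ?_⟩
  rw [← intervalIntegral.integral_add_adjacent_intervals h1 h2]
  have h3 : ∫ x in (-1 : ℝ)..0, g x = ∫ x in (0 : ℝ)..1, g x := by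
    have h4 := intervalIntegral.integral_comp_neg (a := (0 : ℝ)) (b := 1) g
    rw [neg_zero] at h4
    rw [← h4]
    congr 1
    funext x
    rw [he]
  rw [h3]
  ring

section

variable {T : ℝ → ℝ} {C : ℝ}

theorem tint (hconc : ConcaveOn ℝ (Ioo (-1) 1) T) (hb : ∀ τ ∈ Ioo (-1 : ℝ) 1, |T τ| ≤ C)
    (G : ℝ × ℝ × ℝ → ℝ) (hG : Continuous G) :
    IntervalIntegrable (fun τ => G (τ, T τ, T (-τ))) volume (-1) 1 := by
  rw [intervalIntegrable_iff_integrableOn_Ioo_of_le (by norm_num)]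
  have hT : ContinuousOn T (Ioo (-1) 1) := hconc.continuousOn isOpen_Ioo
  have hneg : ∀ τ ∈ Ioo (-1 : ℝ) 1, -τ ∈ Ioo (-1 : ℝ) 1 := by
    intro τ hτ
    exact ⟨by linarith [hτ.2], by linarith [hτ.1]⟩
  have hT2 : ContinuousOn (fun τ => T (-τ)) (Ioo (-1) 1) :=
    hT.comp continuous_neg.continuousOn hneg
  have hc : ContinuousOn (fun τ => G (τ, T τ, T (-τ))) (Ioo (-1) 1) :=
    hG.comp_continuousOn (continuousOn_id.prodMk (hT.prodMk hT2))
  have hK : IsCompact (Icc (-1 : ℝ) 1 ×ˢ (Icc (-C) C ×ˢ Icc (-C) C)) :=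
    isCompact_Icc.prod (isCompact_Icc.prod isCompact_Icc)
  obtain ⟨M, hM⟩ := hK.exists_bound_of_continuousOn (f := G) hG.continuousOn
  refine Integrable.of_bound (hc.aestronglyMeasurable measurableSet_Ioo) M ?_
  refine (ae_restrict_iff' measurableSet_Ioo).2 (Eventually.of_forall fun τ hτ => ?_)
  refine hM _ ⟨⟨hτ.1.le, hτ.2.le⟩, ?_, ?_⟩
  · exact ⟨(abs_le.1 (hb τ hτ)).1, (abs_le.1 (hb τ hτ)).2⟩
  · exact ⟨(abs_le.1 (hb _ (hneg τ hτ))).1, (abs_le.1 (hb _ (hneg τ hτ))).2⟩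

end

section

variable {P : Set (ℝ × ℝ)}

theorem sup2_symm (hs : ∀ p ∈ P, -p ∈ P) (θ : ℝ) : sup2 P (θ + π) = sup2 P θ := by
  unfold sup2
  congr 1
  ext y
  constructor
  · rintro ⟨p, hp, rfl⟩
    refine ⟨-p, hs p hp, ?_⟩
    rw [dotu_add_pi]
    simp [dotu]
    ring
  · rintro ⟨p, hp, rfl⟩
    refine ⟨-p, hs p hp, ?_⟩
    rw [dotu_add_pi]
    simp [dotu]
    ring

theorem wid_eq (hs : ∀ p ∈ P, -p ∈ P) (θ : ℝ) : wid P θ / 2 = sup2 P θ := by
  unfold wid
  rw [sup2_symm hs]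
  ring

theorem mid_eq (hs : ∀ p ∈ P, -p ∈ P) (θ : ℝ) : mid P θ = 0 := by
  unfold mid
  rw [sup2_symm hs]
  ring

theorem iso_sq (hK : IsCompact P) (h1 : (∫ p in P, p.1 ^ 2) = area P / 3)
    (h2 : (∫ p in P, p.2 ^ 2) = area P / 3) (h3 : (∫ p in P, p.1 * p.2) = 0) (s : ℝ) :
    ∫ p in P, dotu s p ^ 2 = area P / 3 := by
  have e : (fun p : ℝ × ℝ => dotu s p ^ 2) = fun p =>
      (cos s ^ 2 * p.1 ^ 2 + 2 * cos s * sin s * (p.1 * p.2)) + sin s ^ 2 * p.2 ^ 2 := by
    funext p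
    unfold dotu
    ring
  have i1 : IntegrableOn (fun p : ℝ × ℝ => cos s ^ 2 * p.1 ^ 2) P :=
    (Continuous.continuousOn (by fun_prop)).integrableOn_compact hK
  have i2 : IntegrableOn (fun p : ℝ × ℝ => 2 * cos s * sin s * (p.1 * p.2)) P :=
    (Continuous.continuousOn (by fun_prop)).integrableOn_compact hK
  have i3 : IntegrableOn (fun p : ℝ × ℝ => sin s ^ 2 * p.2 ^ 2) P :=
    (Continuous.continuousOn (by fun_prop)).integrableOn_compact hK
  have i12 : IntegrableOn (fun p : ℝ × ℝ =>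
      cos s ^ 2 * p.1 ^ 2 + 2 * cos s * sin s * (p.1 * p.2)) P := i1.add i2
  rw [e, integral_add i12 i3, integral_add i1 i2, integral_const_mul, integral_const_mul,
    integral_const_mul, h1, h2, h3]
  have := sin_sq_add_cos_sq s
  linear_combination (area P / 3) * this

theorem iso_mul (hK : IsCompact P) (h1 : (∫ p in P, p.1 ^ 2) = area P / 3)
    (h2 : (∫ p in P, p.2 ^ 2) = area P / 3) (h3 : (∫ p in P, p.1 * p.2) = 0) (s : ℝ) :
    ∫ p in P, dotu s p * dotu (s + π / 2) p = 0 := by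
  have e : (fun p : ℝ × ℝ => dotu s p * dotu (s + π / 2) p) = fun p =>
      ((-(cos s * sin s)) * p.1 ^ 2 + (cos s ^ 2 - sin s ^ 2) * (p.1 * p.2)) +
        (cos s * sin s) * p.2 ^ 2 := by
    funext p
    unfold dotu
    rw [cos_add_pi_div_two, sin_add_pi_div_two]
    ring
  have i1 : IntegrableOn (fun p : ℝ × ℝ => (-(cos s * sin s)) * p.1 ^ 2) P :=
    (Continuous.continuousOn (by fun_prop)).integrableOn_compact hK
  have i2 : IntegrableOn (fun p : ℝ × ℝ => (cos s ^ 2 - sin s ^ 2) * (p.1 * p.2)) P :=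
    (Continuous.continuousOn (by fun_prop)).integrableOn_compact hK
  have i3 : IntegrableOn (fun p : ℝ × ℝ => (cos s * sin s) * p.2 ^ 2) P :=
    (Continuous.continuousOn (by fun_prop)).integrableOn_compact hK
  have i12 : IntegrableOn (fun p : ℝ × ℝ =>
      (-(cos s * sin s)) * p.1 ^ 2 + (cos s ^ 2 - sin s ^ 2) * (p.1 * p.2)) P := i1.add i2
  rw [e, integral_add i12 i3, integral_add i1 i2, integral_const_mul, integral_const_mul,
    integral_const_mul, h1, h2, h3]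
  ring

end

/-- The numeric end of the argument. -/
theorem final_num {a e3 J x x' h' κ : ℝ} (ha : 0 < a) (hh' : 0 < h') (hx' : x' = 1 / h' ^ 2)
    (h1 : h' ≤ (3 - 2 * x) * a) (h2 : (a - κ * (x * a / 3)) ^ 3 ≤ J ^ 2 * e3) (h3 : e3 ≤ a) :
    (1 - κ * x / 3) ^ 3 ≤ J ^ 2 * (3 - 2 * x) ^ 2 * x' := by
  have e1 : (a - κ * (x * a / 3)) ^ 3 = a ^ 3 * (1 - κ * x / 3) ^ 3 := by ring
  have h4 : a ^ 3 * (1 - κ * x / 3) ^ 3 ≤ J ^ 2 * a := by
    rw [← e1]
    exact h2.trans (mul_le_mul_of_nonneg_left h3 (sq_nonneg J))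
  have h5 : a ^ 2 * (1 - κ * x / 3) ^ 3 ≤ J ^ 2 := by
    have : a * (a ^ 2 * (1 - κ * x / 3) ^ 3) ≤ a * J ^ 2 := by
      calc a * (a ^ 2 * (1 - κ * x / 3) ^ 3) = a ^ 3 * (1 - κ * x / 3) ^ 3 := by ring
        _ ≤ J ^ 2 * a := h4
        _ = a * J ^ 2 := by ring
    exact le_of_mul_le_mul_left this ha
  have h6 : h' ^ 2 ≤ ((3 - 2 * x) * a) ^ 2 := pow_le_pow_left₀ hh'.le h1 2
  have h7 : (1 - κ * x / 3) ^ 3 ≤ J ^ 2 / a ^ 2 := by
    rw [le_div_iff₀ (by positivity)]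
    linarith
  refine h7.trans ?_
  rw [hx', div_le_iff₀ (by positivity)]
  have h8 : 1 ≤ (3 - 2 * x) ^ 2 * a ^ 2 / h' ^ 2 := by
    rw [le_div_iff₀ (by positivity), one_mul]
    calc h' ^ 2 ≤ ((3 - 2 * x) * a) ^ 2 := h6
      _ = _ := by ring
  calc J ^ 2 = J ^ 2 * 1 := (mul_one _).symm
    _ ≤ J ^ 2 * ((3 - 2 * x) ^ 2 * a ^ 2 / h' ^ 2) := mul_le_mul_of_nonneg_left h8 (sq_nonneg J)
    _ = J ^ 2 * (3 - 2 * x) ^ 2 * (1 / h' ^ 2) * a ^ 2 := by ring

end PCBM

open PCBM in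
theorem specPCB (hBOD : SpecBOD) (hMRB : SpecMRB) (hBHN : SpecBHN) (hPA2 : SpecPA2)
    (hHOL : SpecHOL) (hEPB : SpecEPB) (hWB2 : SpecWB2) : SpecPCB := by
  intro P hP hs hA hI1 hI2 hI3 s x x' hx hx'
  obtain ⟨hw, T, C, hconc, hb, hnn, hslice, hF⟩ := hBOD P hP hs hA s
  have hw' := (hBOD P hP hs hA (s + π / 2)).1
  have hK := hP.2.1
  set h : ℝ := wid P s / 2 with hh
  set h' : ℝ := wid P (s + π / 2) / 2 with hh'
  have hpos : 0 < h := by rw [hh]; positivity
  have hpos' : 0 < h' := by rw [hh']; positivity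
  have hneg : ∀ τ ∈ Ioo (-1 : ℝ) 1, -τ ∈ Ioo (-1 : ℝ) 1 := by
    intro τ hτ
    exact ⟨by linarith [hτ.2], by linarith [hτ.1]⟩
  have hTi := tint hconc hb
  have hconc2 : ConcaveOn ℝ (Ioo (-1) 1) (fun τ => T (-τ)) := by
    refine ⟨convex_Ioo _ _, ?_⟩
    intro y hy z hz a b ha hb' hab
    have := hconc.2 (hneg y hy) (hneg z hz) ha hb' hab
    simp only [smul_eq_mul] at this ⊢
    rw [show -(a * y + b * z) = a * -y + b * -z by ring]
    exact this
  -- profile
  have hc : EPF (fun τ => T τ + T (-τ)) := by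
    refine ⟨hconc.add hconc2, ?_, fun τ hτ => hnn τ hτ⟩
    intro τ
    show T (-τ) + T (- -τ) = T τ + T (-τ)
    rw [neg_neg, add_comm]
  have he : EPF (fun τ => (T τ + T (-τ)) / 2) := by
    refine ⟨?_, ?_, ?_⟩
    · have := hc.conc.smul (show (0 : ℝ) ≤ 1 / 2 by norm_num)
      refine this.congr ?_
      intro τ _
      simp only [smul_eq_mul]
      ring
    · intro τ
      show (T (-τ) + T (- -τ)) / 2 = (T τ + T (-τ)) / 2
      rw [neg_neg, add_comm]
    · intro τ hτ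
      have := hnn τ hτ
      show 0 ≤ (T τ + T (-τ)) / 2
      linarith
  obtain ⟨-, hmax, -, hcint, -, -, -⟩ := hEPB _ hc
  -- area
  have eA : area P = 2 * h * ∫ τ in (0 : ℝ)..1, (T τ + T (-τ)) := by
    have h1 := hF (fun _ => 1) continuous_const
    simp only [intervalIntegral.integral_const, smul_eq_mul, mul_one, sub_neg_eq_add] at h1
    have h2 := (even_int _ (hTi (fun q => q.2.1 + q.2.2) (by fun_prop)) (by
      intro τ; simp only; rw [neg_neg, add_comm])).2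
    simp only at h2
    rw [h2] at h1
    have h3 : ∫ _ in P, (1 : ℝ) = area P := by
      simp [area, Measure.real]
    rw [h3] at h1
    rw [h1]
    ring
  -- second moment
  have e2 : area P / 3 = h ^ 2 * (2 * h * ∫ τ in (0 : ℝ)..1, τ ^ 2 * (T τ + T (-τ))) := by
    have h1 := hF (fun q => q.1 ^ 2) (by fun_prop)
    simp only [intervalIntegral.integral_const, smul_eq_mul, sub_neg_eq_add] at h1
    have h2 := (even_int _ (hTi (fun q => (q.2.1 + q.2.2) * q.1 ^ 2) (by fun_prop)) (by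
      intro τ; simp only; rw [neg_neg, add_comm, neg_sq])).2
    simp only at h2
    rw [h2] at h1
    have h3 : ∫ p in P, (dotu s p / h) ^ 2 = (area P / 3) / h ^ 2 := by
      rw [← iso_sq hK hI1 hI2 hI3 s, ← integral_div]
      congr 1
      funext p
      rw [div_pow]
    rw [h3] at h1
    have h4 : ∫ τ in (0 : ℝ)..1, τ ^ 2 * (T τ + T (-τ)) =
        ∫ τ in (0 : ℝ)..1, (T τ + T (-τ)) * τ ^ 2 := by
      congr 1
      funext τ
      ring
    rw [h4]
    have h5 : area P / 3 = h ^ 2 * (area P / 3 / h ^ 2) := by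
      field_simp
    rw [h5, h1]
    ring
  -- mixed moment
  have e3 : ∫ τ in (0 : ℝ)..1, τ * (T τ ^ 2 - T (-τ) ^ 2) = 0 := by
    have h1 := hF (fun q => q.1 * q.2) (by fun_prop)
    have hin : (fun τ : ℝ => ∫ y in (-T (-τ))..(T τ), τ * y) =
        fun τ => τ * ((T τ ^ 2 - (-T (-τ)) ^ 2) / 2) := by
      funext τ
      rw [intervalIntegral.integral_const_mul, integral_id]
    simp only at h1
    rw [hin] at h1
    have h2 := (even_int _ (hTi (fun q => q.1 * ((q.2.1 ^ 2 - (-q.2.2) ^ 2) / 2)) (by fun_prop)) (by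
      intro τ; simp only; rw [neg_neg]; ring)).2
    simp only at h2
    rw [h2] at h1
    have h3 : ∫ p in P, dotu s p / h * dotu (s + π / 2) p = 0 := by
      have : (fun p : ℝ × ℝ => dotu s p / h * dotu (s + π / 2) p) =
          fun p => (dotu s p * dotu (s + π / 2) p) / h := by
        funext p
        ring
      rw [this, integral_div, iso_mul hK hI1 hI2 hI3 s, zero_div]
    rw [h3] at h1
    have h4 : ∫ τ in (0 : ℝ)..1, τ * (T τ ^ 2 - T (-τ) ^ 2) =
        2 * ∫ τ in (0 : ℝ)..1, τ * ((T τ ^ 2 - (-T (-τ)) ^ 2) / 2) := by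
      rw [← intervalIntegral.integral_const_mul]
      congr 1
      funext τ
      ring
    rw [h4]
    have h5 : h * (2 * ∫ τ in (0 : ℝ)..1, τ * ((T τ ^ 2 - (-T (-τ)) ^ 2) / 2)) = 0 := h1.symm
    exact (mul_eq_zero.1 h5).resolve_left hpos.ne'
  -- third powers
  have e4 : area P / 3 = 2 * h * ∫ τ in (0 : ℝ)..1, (T τ ^ 3 + T (-τ) ^ 3) / 3 := by
    have h1 := hF (fun q => q.2 ^ 2) (by fun_prop)
    simp only [integral_pow] at h1
    have h2 := (even_int _ (hTi (fun q => (q.2.1 ^ 3 + q.2.2 ^ 3) / 3) (by fun_prop)) (by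
      intro τ; simp only; rw [neg_neg]; ring)).2
    simp only at h2
    have h4 : ∫ τ in (-1 : ℝ)..1, (T τ ^ (2 + 1) - (-T (-τ)) ^ (2 + 1)) / ((2 : ℕ) + 1) =
        ∫ τ in (-1 : ℝ)..1, (T τ ^ 3 + T (-τ) ^ 3) / 3 := by
      congr 1
      funext τ
      norm_num
      ring
    rw [h4, h2] at h1
    rw [iso_sq hK hI1 hI2 hI3 (s + π / 2)] at h1
    rw [h1]
    ring
  -- q
  have e5 : qf P s = 2 * h * ∫ τ in (0 : ℝ)..1, √(1 - τ ^ 2) * (T τ + T (-τ)) := by
    have h1 := hF (fun q => √(1 - q.1 ^ 2)) (by fun_prop)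
    simp only [intervalIntegral.integral_const, smul_eq_mul, sub_neg_eq_add] at h1
    have h2 := (even_int _ (hTi (fun q => (q.2.1 + q.2.2) * √(1 - q.1 ^ 2)) (by fun_prop)) (by
      intro τ; simp only; rw [neg_neg, add_comm, neg_sq])).2
    simp only at h2
    rw [h2] at h1
    unfold qf
    rw [mid_eq hs]
    simp only [sub_zero]
    rw [← hh, h1]
    have h4 : ∫ τ in (0 : ℝ)..1, √(1 - τ ^ 2) * (T τ + T (-τ)) =
        ∫ τ in (0 : ℝ)..1, (T τ + T (-τ)) * √(1 - τ ^ 2) := by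
      congr 1
      funext τ
      ring
    rw [h4]
    ring
  obtain ⟨hM1, hM2, hM3⟩ := hMRB _ hc
  have hN := hBHN _ hc
  set I0 : ℝ := ∫ τ in (0 : ℝ)..1, (T τ + T (-τ)) with hI0
  set I2 : ℝ := ∫ τ in (0 : ℝ)..1, τ ^ 2 * (T τ + T (-τ)) with hI2'
  set IS : ℝ := ∫ τ in (0 : ℝ)..1, √(1 - τ ^ 2) * (T τ + T (-τ)) with hIS
  have hI0pos : 0 < I0 := by
    have h1 : 0 < 2 * h * I0 := by rw [← eA]; exact hA
    exact (mul_pos_iff_of_pos_left (show (0 : ℝ) < 2 * h by positivity)).1 h1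
  -- x * I0 = 3 * I2
  have hxI : x * I0 = 3 * I2 := by
    rw [hx]
    have h1 : 2 * h * I0 / 3 = h ^ 2 * (2 * h * I2) := by rw [← eA]; exact e2
    have h2 : I0 = 3 * (h ^ 2 * I2) := by
      have h3 : (2 * h) * (I0 - 3 * (h ^ 2 * I2)) = 0 := by linarith
      have := (mul_eq_zero.1 h3).resolve_left (by positivity)
      linarith
    rw [h2]
    field_simp
  have hxa : 1 / 2 ≤ x := by
    have : I0 * (1 / 2) ≤ I0 * x := by rw [mul_comm I0 x]; linarith
    exact le_of_mul_le_mul_left this hI0pos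
  have hxb : x ≤ 1 := by
    have : I0 * x ≤ I0 * 1 := by rw [mul_comm I0 x]; linarith
    exact le_of_mul_le_mul_left this hI0pos
  have hI2x : I2 = x * I0 / 3 := by linarith
  refine ⟨hw, hxa, hxb, ?_, ?_, ?_⟩
  · rw [e5, eA]
    have h1 : (3 * π / 4 - 4 / 3 - (π / 2 - 4 / 3) * x) * I0 ≤ IS := by
      rw [hI2x] at hM3
      calc (3 * π / 4 - 4 / 3 - (π / 2 - 4 / 3) * x) * I0 =
            (3 * π / 4 - 4 / 3) * I0 - (3 * π / 2 - 4) * (x * I0 / 3) := by ring
        _ ≤ IS := hM3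
    calc (3 * π / 4 - 4 / 3 - (π / 2 - 4 / 3) * x) * (2 * h * I0) =
          2 * h * ((3 * π / 4 - 4 / 3 - (π / 2 - 4 / 3) * x) * I0) := by ring
      _ ≤ 2 * h * IS := mul_le_mul_of_nonneg_left h1 (by positivity)
  · intro pq hpq
    have h0 := hN pq hpq
    rw [e5, eA]
    have h1 : IS ≤ (pq.1 - pq.2 * x / 3) * I0 := by
      rw [hI2x] at h0
      calc IS ≤ pq.1 * I0 - pq.2 * (x * I0 / 3) := h0
        _ = (pq.1 - pq.2 * x / 3) * I0 := by ring
    calc 2 * h * IS ≤ 2 * h * ((pq.1 - pq.2 * x / 3) * I0) :=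
          mul_le_mul_of_nonneg_left h1 (by positivity)
      _ = (pq.1 - pq.2 * x / 3) * (2 * h * I0) := by ring
  · intro κ hκ0 hκ1
    -- e = c / 2
    have hIe : ∫ τ in (0 : ℝ)..1, (T τ + T (-τ)) / 2 = I0 / 2 := by
      rw [intervalIntegral.integral_div]
    have hIe2 : ∫ τ in (0 : ℝ)..1, τ ^ 2 * ((T τ + T (-τ)) / 2) = I2 / 2 := by
      rw [hI2', ← intervalIntegral.integral_div]
      congr 1
      funext τ
      ring
    have hsub : ∀ (G : ℝ × ℝ × ℝ → ℝ), Continuous G →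
        IntervalIntegrable (fun τ => G (τ, T τ, T (-τ))) volume 0 1 := fun G hG =>
      (hTi G hG).mono_set (by
        rw [uIcc_of_le (by norm_num), uIcc_of_le (by norm_num)]
        exact Icc_subset_Icc (by norm_num) le_rfl)
    have hI3 : ∫ τ in (0 : ℝ)..1, ((T τ + T (-τ)) / 2) ^ 3 ≤ I0 / 2 := by
      have h1 : ∫ τ in (0 : ℝ)..1, ((T τ + T (-τ)) / 2) ^ 3 ≤
          ∫ τ in (0 : ℝ)..1, (T τ ^ 3 + T (-τ) ^ 3) / 3 * (3 / 2) := by
        refine intervalIntegral.integral_mono_on_of_le_Ioo (by norm_num)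
          (hsub (fun q => ((q.2.1 + q.2.2) / 2) ^ 3) (by fun_prop))
          (hsub (fun q => (q.2.1 ^ 3 + q.2.2 ^ 3) / 3 * (3 / 2)) (by fun_prop)) ?_
        intro τ hτ
        have h2 := hnn τ ⟨by linarith [hτ.1], hτ.2⟩
        nlinarith [mul_nonneg h2 (sq_nonneg (T τ - T (-τ)))]
      rw [intervalIntegral.integral_mul_const] at h1
      refine h1.trans (le_of_eq ?_)
      have h3 : 2 * h * I0 / 3 = 2 * h * ∫ τ in (0 : ℝ)..1, (T τ ^ 3 + T (-τ) ^ 3) / 3 := by
        rw [← eA]; exact e4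
      have h4 : I0 / 3 = ∫ τ in (0 : ℝ)..1, (T τ ^ 3 + T (-τ) ^ 3) / 3 := by
        have h5 : (2 * h) * (I0 / 3) = 2 * h * ∫ τ in (0 : ℝ)..1, (T τ ^ 3 + T (-τ) ^ 3) / 3 := by
          rw [← h3]; ring
        exact mul_left_cancel₀ (by positivity) h5
      rw [← h4]
      ring
    -- T 0 > 0
    have hT0 : 0 < T 0 := by
      by_contra hcon
      rw [not_lt] at hcon
      have h1 : I0 ≤ ∫ τ in (0 : ℝ)..1, (0 : ℝ) := by
        refine intervalIntegral.integral_mono_on_of_le_Ioo (by norm_num)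
          (hsub (fun q => q.2.1 + q.2.2) (by fun_prop)) (by simp) ?_
        intro τ hτ
        have := hmax τ ⟨by linarith [hτ.1], hτ.2⟩
        simp only [neg_zero] at this
        linarith
      simp at h1
      linarith
    -- pair coupling
    have hpa : ∀ p ∈ Ioo (-1 : ℝ) 1, T p ≤ (3 - 2 * x) * (I0 / 2) := by
      intro p hp
      refine (hPA2 T C hconc hb hnn hT0 e3 p hp).trans (le_of_eq ?_)
      have e1 : (fun τ : ℝ => (3 - 6 * τ ^ 2) * ((T τ + T (-τ)) / 2)) =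
          fun τ => 3 * ((T τ + T (-τ)) / 2) - 6 * (τ ^ 2 * ((T τ + T (-τ)) / 2)) := by
        funext τ
        ring
      rw [e1, intervalIntegral.integral_sub, intervalIntegral.integral_const_mul,
        intervalIntegral.integral_const_mul, hIe, hIe2, hI2x]
      · ring
      · exact hsub (fun q => 3 * ((q.2.1 + q.2.2) / 2)) (by fun_prop)
      · exact hsub (fun q => 6 * (q.1 ^ 2 * ((q.2.1 + q.2.2) / 2))) (by fun_prop)
    have hsup : h = sup2 P s := wid_eq hs s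
    have hsup' : h' = sup2 P (s + π / 2) := wid_eq hs (s + π / 2)
    obtain ⟨p, hpP, hpe⟩ := hWB2.2.1 P hP (s + π / 2)
    have hle1 : dotu s p ≤ h := by rw [hsup]; exact hWB2.1 P hP s p hpP
    have hle2 : -dotu s p ≤ h := by
      have := hWB2.1 P hP s (-p) (hs p hpP)
      rw [hsup]
      refine le_trans (le_of_eq ?_) this
      simp [dotu]
      ring
    have h0P : (0 : ℝ × ℝ) ∈ P := by
      have := hP.1 hpP (hs p hpP) (show (0 : ℝ) ≤ 1 / 2 by norm_num)
        (show (0 : ℝ) ≤ 1 / 2 by norm_num) (by norm_num)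
      simpa using this
    have hr : ∀ r : ℝ, 0 < r → r < 1 → r * h' ≤ (3 - 2 * x) * (I0 / 2) := by
      intro r hr0 hr1
      have hrp : r • p ∈ P := by
        have := hP.1 hpP h0P hr0.le (show (0 : ℝ) ≤ 1 - r by linarith) (by ring)
        simpa using this
      have a1 : r * dotu s p ≤ r * h := mul_le_mul_of_nonneg_left hle1 hr0.le
      have a2 : r * (-dotu s p) ≤ r * h := mul_le_mul_of_nonneg_left hle2 hr0.le
      have a3 : r * h < 1 * h := mul_lt_mul_of_pos_right hr1 hpos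
      have hmem : dotu s (r • p) / h ∈ Ioo (-1 : ℝ) 1 := by
        rw [dotu_smul]
        constructor
        · rw [lt_div_iff₀ hpos]
          linarith
        · rw [div_lt_iff₀ hpos]
          linarith
      have h1 := hslice (r • p) hrp hmem
      rw [dotu_smul (s + π / 2), hpe, ← hsup'] at h1
      exact h1.trans (hpa _ hmem)
    have hfin : h' ≤ (3 - 2 * x) * (I0 / 2) := by
      by_contra hcon
      rw [not_le] at hcon
      have hr0 : 0 < (3 - 2 * x) * (I0 / 2) := by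
        have : 0 < 3 - 2 * x := by linarith
        positivity
      have hlt : (3 - 2 * x) * (I0 / 2) < h' := hcon
      have hq : (3 - 2 * x) * (I0 / 2) / h' < 1 := by
        rw [div_lt_one hpos']; exact hlt
      have hq0 : 0 < (3 - 2 * x) * (I0 / 2) / h' := by positivity
      obtain ⟨r, hr1, hr2⟩ := exists_between hq
      have := hr r (hq0.trans hr1) hr2
      rw [div_lt_iff₀ hpos'] at hr1
      linarith
    have hH := hHOL _ he κ hκ0 hκ1
    rw [hIe, hIe2, hI2x] at hH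
    have hH' : (I0 / 2 - κ * (x * (I0 / 2) / 3)) ^ 3 ≤
        JJ κ ^ 2 * ∫ τ in (0 : ℝ)..1, ((T τ + T (-τ)) / 2) ^ 3 := by
      refine le_trans (le_of_eq ?_) hH
      ring
    exact final_num (by positivity) hpos' hx' hfin hH' hI3

end Pool.Agent.Lib.MP_084b88_gt.PC
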