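import Pool.Agent.Lib.MP_084b88_gt.PC.Spec

/-!
# MP_084b88_gt, project PC, module MRB: range of the second moment and lower band
-/

set_option autoImplicit false

open MeasureTheory Set Real Filter Topology
open scoped Pointwise InnerProductSpace

namespace Pool.Agent.Lib.MP_084b88_gt.PC

namespace MRBM

theorem int_nonneg {f : ℝ → ℝ} (h : ∀ x ∈ Ioo (0 : ℝ) 1, 0 ≤ f x) :
    0 ≤ ∫ x in (0 : ℝ)..1, f x := by
  rw [intervalIntegral.integral_of_le zero_le_one, MeasureTheory.integral_Ioc_eq_integral_Ioo]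
  exact setIntegral_nonneg measurableSet_Ioo h

/-- Three points and a concave function. -/
theorem three {c : ℝ → ℝ} (hc : ConcaveOn ℝ (Ioo (-1) 1) c) {x y z : ℝ}
    (hx : x ∈ Ioo (-1 : ℝ) 1) (hz : z ∈ Ioo (-1 : ℝ) 1) (hxy : x ≤ y) (hyz : y ≤ z) :
    (z - y) * c x + (y - x) * c z ≤ (z - x) * c y := by
  rcases eq_or_lt_of_le (hxy.trans hyz) with h | h
  · have h1 : y = x := le_antisymm (hyz.trans h.ge) hxy
    rw [h1, ← h]
    simp
  · have hzx : 0 < z - x := by linarith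
    have h1 := hc.2 hx hz (show 0 ≤ (z - y) / (z - x) from div_nonneg (by linarith) hzx.le)
      (show 0 ≤ (y - x) / (z - x) from div_nonneg (by linarith) hzx.le) (by field_simp; ring)
    simp only [smul_eq_mul] at h1
    have h2 : (z - y) / (z - x) * x + (y - x) / (z - x) * z = y := by
      field_simp
      ring
    rw [h2] at h1
    have h3 : (z - x) * ((z - y) / (z - x) * c x + (y - x) / (z - x) * c z) ≤ (z - x) * c y :=
      mul_le_mul_of_nonneg_left h1 hzx.le
    have h4 : (z - x) * ((z - y) / (z - x) * c x + (y - x) / (z - x) * c z) =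
        (z - y) * c x + (y - x) * c z := by
      field_simp
    rwa [h4] at h3

theorem int_poly (a0 a1 a2 a3 s t : ℝ) :
    ∫ x in s..t, (a0 + a1 * x + a2 * x ^ 2 + a3 * x ^ 3) =
      (a0 * t + a1 * t ^ 2 / 2 + a2 * t ^ 3 / 3 + a3 * t ^ 4 / 4) -
      (a0 * s + a1 * s ^ 2 / 2 + a2 * s ^ 3 / 3 + a3 * s ^ 4 / 4) := by
  have h : ∀ x ∈ uIcc s t, HasDerivAt
      (fun x => a0 * x + a1 * x ^ 2 / 2 + a2 * x ^ 3 / 3 + a3 * x ^ 4 / 4)
      (a0 + a1 * x + a2 * x ^ 2 + a3 * x ^ 3) x := by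
    intro x _
    have h1 := ((((hasDerivAt_id x).const_mul a0).add
      (((hasDerivAt_pow 2 x).const_mul a1).div_const 2)).add
      (((hasDerivAt_pow 3 x).const_mul a2).div_const 3)).add
      (((hasDerivAt_pow 4 x).const_mul a3).div_const 4)
    refine h1.congr_deriv ?_
    push_cast
    ring
  exact intervalIntegral.integral_eq_sub_of_hasDerivAt h
    (Continuous.intervalIntegrable (by fun_prop) _ _)

theorem sq_pos {x : ℝ} (hx : x ∈ Ioo (-1 : ℝ) 1) : 0 < 1 - x ^ 2 := by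
  nlinarith [hx.1, hx.2]

theorem deriv_r {x : ℝ} (hx : x ∈ Ioo (-1 : ℝ) 1) :
    HasDerivAt (fun x => √(1 - x ^ 2)) (-x / √(1 - x ^ 2)) x := by
  have h := sq_pos hx
  have h1 : HasDerivAt (fun x : ℝ => 1 - x ^ 2) (-(2 * x)) x := by
    have := (hasDerivAt_pow 2 x).const_sub 1
    refine this.congr_deriv ?_
    push_cast
    ring
  have h2 := h1.sqrt h.ne'
  refine h2.congr_deriv ?_
  have : √(1 - x ^ 2) ≠ 0 := (Real.sqrt_pos.2 h).ne'
  field_simp

theorem deriv_F {x : ℝ} (hx : x ∈ Ioo (-1 : ℝ) 1) :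
    HasDerivAt (fun x => (x * √(1 - x ^ 2) + arcsin x) / 2) (√(1 - x ^ 2)) x := by
  have h := sq_pos hx
  have h1 := (((hasDerivAt_id x).mul (deriv_r hx)).add
    (Real.hasDerivAt_arcsin (by linarith [hx.1]) (by linarith [hx.2]))).div_const 2
  refine h1.congr_deriv ?_
  have h2 : 0 < √(1 - x ^ 2) := Real.sqrt_pos.2 h
  have h3 : √(1 - x ^ 2) ^ 2 = 1 - x ^ 2 := Real.sq_sqrt h.le
  simp only [id]
  field_simp
  rw [h3]
  ring

theorem deriv_G {x : ℝ} (hx : x ∈ Ioo (-1 : ℝ) 1) :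
    HasDerivAt (fun x => -((1 - x ^ 2) * √(1 - x ^ 2)) / 3) (x * √(1 - x ^ 2)) x := by
  have h := sq_pos hx
  have h0 : HasDerivAt (fun x : ℝ => 1 - x ^ 2) (-(2 * x)) x := by
    have := (hasDerivAt_pow 2 x).const_sub 1
    refine this.congr_deriv ?_
    push_cast
    ring
  have h1 := ((h0.mul (deriv_r hx)).neg).div_const 3
  refine h1.congr_deriv ?_
  have h2 : 0 < √(1 - x ^ 2) := Real.sqrt_pos.2 h
  have h3 : √(1 - x ^ 2) ^ 2 = 1 - x ^ 2 := Real.sq_sqrt h.le
  field_simp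
  rw [h3]
  ring

theorem int_F {s t : ℝ} (hs : 0 ≤ s) (hst : s ≤ t) (ht : t ≤ 1) :
    ∫ x in s..t, √(1 - x ^ 2) =
      (t * √(1 - t ^ 2) + arcsin t) / 2 - (s * √(1 - s ^ 2) + arcsin s) / 2 := by
  refine intervalIntegral.integral_eq_sub_of_hasDerivAt_of_le
    (f := fun x => (x * √(1 - x ^ 2) + arcsin x) / 2) hst ?_ (fun x hx => ?_) ?_
  · exact Continuous.continuousOn (by fun_prop)
  · exact deriv_F ⟨by linarith [hx.1], by linarith [hx.2]⟩
  · exact Continuous.intervalIntegrable (by fun_prop) _ _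

theorem int_G {s t : ℝ} (hs : 0 ≤ s) (hst : s ≤ t) (ht : t ≤ 1) :
    ∫ x in s..t, x * √(1 - x ^ 2) =
      -((1 - t ^ 2) * √(1 - t ^ 2)) / 3 - -((1 - s ^ 2) * √(1 - s ^ 2)) / 3 := by
  refine intervalIntegral.integral_eq_sub_of_hasDerivAt_of_le
    (f := fun x => -((1 - x ^ 2) * √(1 - x ^ 2)) / 3) hst ?_ (fun x hx => ?_) ?_
  · exact Continuous.continuousOn (by fun_prop)
  · exact deriv_G ⟨by linarith [hx.1], by linarith [hx.2]⟩
  · exact Continuous.intervalIntegrable (by fun_prop) _ _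

/-- Sign of `q u² - u + r`, `u = √(1-x²)`. -/
theorem signs {q r : ℝ} (hq : 1 / 2 < q) (hr : 0 < r) (hqr : 1 < q + r) (hD : 4 * q * r < 1) :
    ∃ a b : ℝ, 0 < a ∧ a < b ∧ b < 1 ∧
      (∀ x ∈ Icc (0 : ℝ) a, 0 ≤ q * (1 - x ^ 2) - √(1 - x ^ 2) + r) ∧
      (∀ x ∈ Icc a b, q * (1 - x ^ 2) - √(1 - x ^ 2) + r ≤ 0) ∧
      (∀ x ∈ Icc b 1, 0 ≤ q * (1 - x ^ 2) - √(1 - x ^ 2) + r) := by
  set D := 1 - 4 * q * r with hDdef
  have hDpos : 0 < D := by linarith
  set d := √D with hd
  have hdpos : 0 < d := Real.sqrt_pos.2 hDpos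
  have hdsq : d ^ 2 = D := Real.sq_sqrt hDpos.le
  have hq0 : 0 < q := by linarith
  have hd1 : d < 1 := by
    have h1 : d ^ 2 < 1 := by
      rw [hdsq, hDdef]
      nlinarith [mul_pos hq0 hr]
    nlinarith
  have hd2 : d < 2 * q - 1 := by
    have h1 : d ^ 2 < (2 * q - 1) ^ 2 := by
      rw [hdsq, hDdef]
      nlinarith
    nlinarith
  set um := (1 - d) / (2 * q) with hum
  set up := (1 + d) / (2 * q) with hup
  have hum0 : 0 < um := div_pos (by linarith) (by linarith)
  have hup1 : up < 1 := by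
    rw [hup, div_lt_one (by linarith)]
    linarith
  have hmp : um < up := by
    rw [hum, hup]
    exact div_lt_div_of_pos_right (by linarith) (by linarith)
  have hup0 : 0 < up := hum0.trans hmp
  have hum1 : um < 1 := hmp.trans hup1
  have hfac : ∀ u : ℝ, q * u ^ 2 - u + r = q * (u - um) * (u - up) := by
    intro u
    have h1 : r = (1 - d ^ 2) / (4 * q) := by
      rw [hdsq, hDdef]
      field_simp
      ring
    rw [hum, hup]
    have h2 : q * (u - (1 - d) / (2 * q)) * (u - (1 + d) / (2 * q)) =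
        q * u ^ 2 - u + (1 - d ^ 2) / (4 * q) := by
      field_simp
      ring
    rw [h2, ← h1]
  have hA : 0 < 1 - up ^ 2 := by nlinarith
  have hB : 0 < 1 - um ^ 2 := by nlinarith
  have hχ : ∀ x ∈ Icc (0 : ℝ) 1, q * (1 - x ^ 2) - √(1 - x ^ 2) + r =
      q * (√(1 - x ^ 2) - um) * (√(1 - x ^ 2) - up) := by
    intro x hx
    have h1 : √(1 - x ^ 2) ^ 2 = 1 - x ^ 2 := Real.sq_sqrt (by nlinarith [hx.1, hx.2])
    rw [← hfac, h1]
  have ha1 : √(1 - up ^ 2) < 1 := by
    rw [Real.sqrt_lt' one_pos]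
    nlinarith
  have hb1 : √(1 - um ^ 2) < 1 := by
    rw [Real.sqrt_lt' one_pos]
    nlinarith
  have hge : ∀ x : ℝ, 0 ≤ x → x ≤ 1 → ∀ v : ℝ, 0 < v → v < 1 → x ≤ √(1 - v ^ 2) →
      v ≤ √(1 - x ^ 2) := by
    intro x hx hx1 v hv hv1 h
    apply Real.le_sqrt_of_sq_le
    have h1 : x ^ 2 ≤ 1 - v ^ 2 := by
      have := pow_le_pow_left₀ hx h 2
      rwa [Real.sq_sqrt (by nlinarith)] at this
    linarith
  have hle : ∀ x : ℝ, 0 ≤ x → x ≤ 1 → ∀ v : ℝ, 0 < v → v < 1 → √(1 - v ^ 2) ≤ x →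
      √(1 - x ^ 2) ≤ v := by
    intro x hx hx1 v hv hv1 h
    rw [Real.sqrt_le_left hv.le]
    have h1 : 1 - v ^ 2 ≤ x ^ 2 := by
      have := pow_le_pow_left₀ (Real.sqrt_nonneg _) h 2
      rwa [Real.sq_sqrt (by nlinarith)] at this
    linarith
  refine ⟨√(1 - up ^ 2), √(1 - um ^ 2), Real.sqrt_pos.2 hA, ?_, hb1, ?_, ?_, ?_⟩
  · apply Real.sqrt_lt_sqrt hA.le
    nlinarith
  · intro x hx
    have hx1 : x ≤ 1 := hx.2.trans ha1.le
    rw [hχ x ⟨hx.1, hx1⟩]
    have h1 := hge x hx.1 hx1 up hup0 hup1 hx.2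
    exact mul_nonneg (mul_nonneg hq0.le (by linarith)) (by linarith)
  · intro x hx
    have hx0 : 0 ≤ x := (Real.sqrt_nonneg _).trans hx.1
    have hx1 : x ≤ 1 := hx.2.trans hb1.le
    rw [hχ x ⟨hx0, hx1⟩]
    have h1 := hle x hx0 hx1 up hup0 hup1 hx.1
    have h2 := hge x hx0 hx1 um hum0 hum1 hx.2
    exact mul_nonpos_of_nonneg_of_nonpos (mul_nonneg hq0.le (by linarith)) (by linarith)
  · intro x hx
    have hx0 : 0 ≤ x := (Real.sqrt_nonneg _).trans hx.1
    rw [hχ x ⟨hx0, hx.2⟩]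
    have h1 := hle x hx0 hx.2 um hum0 hum1 hx.1
    exact mul_nonneg_of_nonpos_of_nonpos
      (mul_nonpos_of_nonneg_of_nonpos hq0.le (by linarith)) (by linarith)

end MRBM

open MRBM

theorem specMRB (hEPB : SpecEPB) : SpecMRB := by
  intro c hc
  obtain ⟨hanti, hc0, hcont, hint, h5, h6, h7⟩ := hEPB c hc
  have hI : ∀ ψ : ℝ → ℝ, Continuous ψ →
      IntervalIntegrable (fun x => ψ x * c x) volume 0 1 := fun ψ hψ =>
    hint (fun p => ψ p.1 * p.2) (by fun_prop)
  have hI1 : IntervalIntegrable c volume 0 1 := by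
    simpa using hI (fun _ => 1) (by fun_prop)
  have hI2 : IntervalIntegrable (fun x => x ^ 2 * c x) volume 0 1 := hI (fun x => x ^ 2) (by fun_prop)
  have hI3 : IntervalIntegrable (fun x => √(1 - x ^ 2) * c x) volume 0 1 :=
    hI (fun x => √(1 - x ^ 2)) (by fun_prop)
  refine ⟨?_, ?_, ?_⟩
  · set a : ℝ := √(1 / 6) with ha
    have ha0 : 0 ≤ a := Real.sqrt_nonneg _
    have hasq : a ^ 2 = 1 / 6 := Real.sq_sqrt (by norm_num)
    have ha1 : a < 1 := by nlinarith
    have h := int_nonneg (f := fun x => (6 * x ^ 2 - 1) * (c x * (1 - a) - c a * (1 - x)))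
      (fun x hx => by
        rcases le_total x a with hxa | hxa
        · have h1 := h6 a ha0 ha1 x ⟨hx.1.le, hxa⟩
          have h2 : 6 * x ^ 2 - 1 ≤ 0 := by nlinarith [hx.1]
          exact mul_nonneg_of_nonpos_of_nonpos h2 (by linarith)
        · have h1 := h7 a ha0 ha1 x ⟨hxa, hx.2⟩
          have h2 : 0 ≤ 6 * x ^ 2 - 1 := by nlinarith [hx.1]
          exact mul_nonneg h2 (by linarith))
    have h2 : ∫ x in (0 : ℝ)..1, (6 * x ^ 2 - 1) * (c x * (1 - a) - c a * (1 - x)) =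
        (1 - a) * (6 * (∫ x in (0 : ℝ)..1, x ^ 2 * c x) - ∫ x in (0 : ℝ)..1, c x) -
        c a * ∫ x in (0 : ℝ)..1, (-1 + 1 * x + 6 * x ^ 2 + (-6) * x ^ 3) := by
      rw [← intervalIntegral.integral_const_mul, ← intervalIntegral.integral_sub
        (hI2.const_mul 6) hI1, ← intervalIntegral.integral_const_mul,
        ← intervalIntegral.integral_const_mul, ← intervalIntegral.integral_sub
        (((hI2.const_mul 6).sub hI1).const_mul (1 - a))
        (Continuous.intervalIntegrable (by fun_prop) _ _)]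
      refine intervalIntegral.integral_congr fun x _ => ?_
      ring
    rw [h2, int_poly] at h
    have h3 : 0 ≤ (1 - a) * (6 * (∫ x in (0 : ℝ)..1, x ^ 2 * c x) - ∫ x in (0 : ℝ)..1, c x) := by
      refine h.trans (le_of_eq ?_)
      ring
    have h4 := nonneg_of_mul_nonneg_right h3 (by linarith)
    linarith
  · set a : ℝ := √(1 / 3) with ha
    have ha0 : 0 ≤ a := Real.sqrt_nonneg _
    have hasq : a ^ 2 = 1 / 3 := Real.sq_sqrt (by norm_num)
    have ha1 : a < 1 := by nlinarith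
    have h := int_nonneg (f := fun x => (1 - 3 * x ^ 2) * (c x - c a))
      (fun x hx => by
        rcases le_total x a with hxa | hxa
        · have h1 := hanti ⟨hx.1.le, hx.2⟩ ⟨ha0, ha1⟩ hxa
          have h2 : 0 ≤ 1 - 3 * x ^ 2 := by nlinarith [hx.1]
          exact mul_nonneg h2 (by linarith)
        · have h1 := hanti ⟨ha0, ha1⟩ ⟨hx.1.le, hx.2⟩ hxa
          have h2 : 1 - 3 * x ^ 2 ≤ 0 := by nlinarith [hx.1]
          exact mul_nonneg_of_nonpos_of_nonpos h2 (by linarith))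
    have h2 : ∫ x in (0 : ℝ)..1, (1 - 3 * x ^ 2) * (c x - c a) =
        ((∫ x in (0 : ℝ)..1, c x) - 3 * ∫ x in (0 : ℝ)..1, x ^ 2 * c x) -
        c a * ∫ x in (0 : ℝ)..1, (1 + 0 * x + (-3) * x ^ 2 + 0 * x ^ 3) := by
      rw [← intervalIntegral.integral_const_mul, ← intervalIntegral.integral_sub
        hI1 (hI2.const_mul 3), ← intervalIntegral.integral_const_mul,
        ← intervalIntegral.integral_sub (hI1.sub (hI2.const_mul 3))
        (Continuous.intervalIntegrable (by fun_prop) _ _)]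
      refine intervalIntegral.integral_congr fun x _ => ?_
      ring
    rw [h2, int_poly] at h
    linarith
  · set β : ℝ := 3 * π / 2 - 4 with hβ
    set α : ℝ := 3 * π / 4 - 4 / 3 with hα
    have hπ1 := Real.pi_gt_d6
    have hπ2 := Real.pi_lt_d6
    obtain ⟨a, b, ha0, hab, hb1, hs1, hs2, hs3⟩ := signs (q := β) (r := α - β)
      (by rw [hβ]; linarith) (by rw [hβ, hα]; linarith) (by rw [hβ, hα]; linarith)
      (by rw [hβ, hα]; nlinarith)
    have haI : a ∈ Ioo (-1 : ℝ) 1 := ⟨by linarith, by linarith⟩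
    have hbI : b ∈ Ioo (-1 : ℝ) 1 := ⟨by linarith, hb1⟩
    have h := int_nonneg (f := fun x => (√(1 - x ^ 2) - α + β * x ^ 2) *
        ((b - a) * c x - (c a * (b - x) + c b * (x - a))))
      (fun x hx => by
        have hxI : x ∈ Ioo (-1 : ℝ) 1 := ⟨by linarith [hx.1], hx.2⟩
        have e1 : √(1 - x ^ 2) - α + β * x ^ 2 =
            -(β * (1 - x ^ 2) - √(1 - x ^ 2) + (α - β)) := by ring
        rw [e1]
        rcases le_total x a with hxa | hxa
        · have h1 := hs1 x ⟨hx.1.le, hxa⟩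
          have h2 := three hc.conc hxI hbI hxa hab.le
          exact mul_nonneg_of_nonpos_of_nonpos (by linarith) (by linarith)
        · rcases le_total x b with hxb | hxb
          · have h1 := hs2 x ⟨hxa, hxb⟩
            have h2 := three hc.conc haI hbI hxa hxb
            exact mul_nonneg (by linarith) (by linarith)
          · have h1 := hs3 x ⟨hxb, hx.2.le⟩
            have h2 := three hc.conc haI hxI hab.le hxb
            exact mul_nonneg_of_nonpos_of_nonpos (by linarith) (by linarith))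
    have hF : ∫ x in (0 : ℝ)..1, √(1 - x ^ 2) = π / 4 := by
      rw [int_F le_rfl zero_le_one le_rfl]
      simp
      ring
    have hG : ∫ x in (0 : ℝ)..1, x * √(1 - x ^ 2) = 1 / 3 := by
      rw [int_G le_rfl zero_le_one le_rfl]
      simp
      norm_num
    have h2 : ∫ x in (0 : ℝ)..1, (√(1 - x ^ 2) - α + β * x ^ 2) *
        ((b - a) * c x - (c a * (b - x) + c b * (x - a))) =
        (b - a) * ((∫ x in (0 : ℝ)..1, √(1 - x ^ 2) * c x) - (α * (∫ x in (0 : ℝ)..1, c x) -
          β * ∫ x in (0 : ℝ)..1, x ^ 2 * c x)) -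
        ((c a * b - c b * a) * ((∫ x in (0 : ℝ)..1, √(1 - x ^ 2)) +
          ∫ x in (0 : ℝ)..1, (-α + 0 * x + β * x ^ 2 + 0 * x ^ 3)) +
        (c b - c a) * ((∫ x in (0 : ℝ)..1, x * √(1 - x ^ 2)) +
          ∫ x in (0 : ℝ)..1, (0 + (-α) * x + 0 * x ^ 2 + β * x ^ 3))) := by
      rw [← intervalIntegral.integral_const_mul α, ← intervalIntegral.integral_const_mul β,
        ← intervalIntegral.integral_sub (hI1.const_mul α) (hI2.const_mul β),
        ← intervalIntegral.integral_sub hI3 ((hI1.const_mul α).sub (hI2.const_mul β)),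
        ← intervalIntegral.integral_add (Continuous.intervalIntegrable (by fun_prop) _ _)
          (Continuous.intervalIntegrable (by fun_prop) _ _),
        ← intervalIntegral.integral_add (Continuous.intervalIntegrable (by fun_prop) _ _)
          (Continuous.intervalIntegrable (by fun_prop) _ _),
        ← intervalIntegral.integral_const_mul, ← intervalIntegral.integral_const_mul,
        ← intervalIntegral.integral_const_mul,
        ← intervalIntegral.integral_add (Continuous.intervalIntegrable (by fun_prop) _ _)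
          (Continuous.intervalIntegrable (by fun_prop) _ _),
        ← intervalIntegral.integral_sub
          ((hI3.sub ((hI1.const_mul α).sub (hI2.const_mul β))).const_mul (b - a))
          (Continuous.intervalIntegrable (by fun_prop) _ _)]
      refine intervalIntegral.integral_congr fun x _ => ?_
      ring
    rw [h2, int_poly, int_poly, hF, hG] at h
    have h3 : 0 ≤ (b - a) * ((∫ x in (0 : ℝ)..1, √(1 - x ^ 2) * c x) -
        (α * (∫ x in (0 : ℝ)..1, c x) - β * ∫ x in (0 : ℝ)..1, x ^ 2 * c x)) := by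
      refine h.trans (le_of_eq ?_)
      rw [hα, hβ]
      ring
    have h4 := nonneg_of_mul_nonneg_right h3 (by linarith)
    linarith

end Pool.Agent.Lib.MP_084b88_gt.PC
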